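import Mathlib

/-!
# Asymptotic total positivity of Euler's triangle: definitions and the statements of the parts
-/

set_option autoImplicit false

open MeasureTheory Filter Complex
open scoped Topology Real

namespace Pool.Agent.H53.ATP

/-- Euler's triangle (`r = 1`), in the form of the frozen statement. -/
def eu : ℕ → ℕ → ℤ
  | 0, 0 => 1
  | 0, _ + 1 => 0
  | n + 1, 0 => eu n 0
  | n + 1, k + 1 => ((k : ℤ) + 2) * eu n (k + 1) + ((n : ℤ) - (k : ℤ)) * eu n k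

/-- Solid minor of order `m`: rows `n+1, ..., n+m` and columns `k, ..., k+m-1` of Euler's
triangle. -/
noncomputable def sol (m n k : ℕ) : ℝ :=
  Matrix.det (Matrix.of fun i j : Fin m => ((eu (n + i + 1) (k + j) : ℤ) : ℝ))

/-! ### Combinatorial parts -/

/-- FEK: a Fekete lemma for a lower triangular array, rows `≥ N`, orders `≤ K`. -/
def FekSt : Prop := ∀ (a : ℕ → ℕ → ℝ) (K N : ℕ), (∀ n k, n < k → a n k = 0) →
  (∀ m, m ≤ K → ∀ n, N ≤ n → ∀ k, k ≤ n →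
    0 < Matrix.det (Matrix.of fun i j : Fin m => a (n + i) (k + j))) →
  ∀ m, m ≤ K → ∀ f g : Fin m → ℕ, StrictMono f → StrictMono g → (∀ i, N ≤ f i) →
    0 ≤ Matrix.det (Matrix.of fun i j => a (f i) (g j)) ∧
    ((∀ i, g i ≤ f i) → 0 < Matrix.det (Matrix.of fun i j => a (f i) (g j)))

/-- WOR: elementary facts on Eulerian numbers. -/
def WorSt : Prop :=
  (∀ n k, 0 ≤ eu n k) ∧
  (∀ n k, 1 ≤ n → n ≤ k → eu n k = 0) ∧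
  (∀ n k, 1 ≤ n → k < n → 1 ≤ eu n k) ∧
  (∀ n k, k < n → eu n k = eu n (n - 1 - k)) ∧
  (∀ n k : ℕ, ((eu n k : ℤ) : ℝ) ≤ ((k : ℝ) + 1) ^ n) ∧
  (∀ n k : ℕ, ((k : ℝ) + 1) ^ n - ((n : ℝ) + 1) * (k : ℝ) ^ n ≤ ((eu n k : ℤ) : ℝ))

/-- LEFT: solid minors with `k ≤ A √n`. -/
def LeftSt : Prop := ∀ m : ℕ, ∀ A : ℝ, ∃ N : ℕ, ∀ n, N ≤ n → ∀ k : ℕ,
  (k : ℝ) ≤ A * √(n : ℝ) → 0 < sol m n k

/-- RIGHT: solid minors with `n + 1 - k ≤ A √n`. -/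
def RightSt : Prop := ∀ m : ℕ, ∀ A : ℝ, ∃ N : ℕ, ∀ n, N ≤ n → ∀ k : ℕ, k ≤ n →
  ((n + 1 - k : ℕ) : ℝ) ≤ A * √(n : ℝ) → 0 < sol m n k

/-- MID: solid minors with `A √n ≤ k` and `A √n ≤ n + 1 - k`, for some `A`. -/
def MidSt : Prop := ∀ m : ℕ, ∃ A : ℝ, ∃ N : ℕ, ∀ n, N ≤ n → ∀ k : ℕ, k ≤ n →
  A * √(n : ℝ) ≤ (k : ℝ) → A * √(n : ℝ) ≤ ((n + 1 - k : ℕ) : ℝ) → 0 < sol m n k

/-! ### Analytic parts -/

/-- `phi t = ∫_0^1 exp(-t u) du`. -/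
noncomputable def ph (t : ℂ) : ℂ := ∫ u in (0 : ℝ)..1, cexp (-(t * u))

/-- `J s M x = (1 / 2π) ∫ exp(x (s + i y)) phi(s + i y)^M dy`. -/
noncomputable def J (s : ℝ) (M : ℕ) (x : ℝ) : ℂ :=
  (1 / (2 * π) : ℝ) * ∫ y : ℝ, cexp (x * (s + y * I)) * ph (s + y * I) ^ M

/-- RREC: the recurrence of `J` (integration by parts). -/
def RecSt : Prop := ∀ (s : ℝ) (n : ℕ) (x : ℝ), 2 ≤ n →
  (n : ℂ) * J s (n + 1) x = x * J s n x + (n + 1 - x) * J s n (x - 1)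

/-- RBASE: the case `M = 2` (Fourier inversion of the tent function). -/
def BaseSt : Prop := ∀ (s : ℝ) (x : ℤ), J s 2 x = if x = 1 then 1 else 0

/-- REP: the integral representation. -/
def RepSt : Prop := ∀ (s : ℝ) (n k : ℕ), 1 ≤ n →
  ((eu n k : ℤ) : ℂ) = (n.factorial : ℂ) * J s (n + 1) ((k : ℝ) + 1)

/-- Normalisation of the law with density proportional to `exp(-s u)` on `[0,1]`. -/
noncomputable def Z (s : ℝ) : ℝ := ∫ u in (0 : ℝ)..1, Real.exp (-(s * u))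

/-- Its mean. -/
noncomputable def mu (s : ℝ) : ℝ := (∫ u in (0 : ℝ)..1, u * Real.exp (-(s * u))) / Z s

/-- Its variance. -/
noncomputable def va (s : ℝ) : ℝ := (∫ u in (0 : ℝ)..1, (u - mu s) ^ 2 * Real.exp (-(s * u))) / Z s

/-- Its characteristic function at `-y`. -/
noncomputable def psi (s y : ℝ) : ℂ := ph (s + y * I) / (Z s : ℂ)

/-- TILT: mean and variance. -/
def TiltSt : Prop :=
  (∀ p : ℝ, 0 < p → p < 1 → ∃ s : ℝ, mu s = p) ∧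
  (∀ s : ℝ, 0 < mu s ∧ mu s < 1 ∧ 0 < va s ∧ va s ≤ 1 / 4) ∧
  (∀ s : ℝ, min (mu s) (1 - mu s) ^ 2 ≤ 3 * va s) ∧
  (∀ s : ℝ, va s * (s ^ 2 + 1) ≤ 2)

/-- CHF: bounds for the characteristic function. -/
def ChfSt : Prop :=
  (Continuous fun p : ℝ × ℝ => psi p.1 p.2) ∧
  (∀ s y : ℝ, ‖psi s y‖ ≤ 1) ∧
  (∀ s y : ℝ, ‖cexp (I * mu s * y) * psi s y - (1 - va s * y ^ 2 / 2 : ℝ)‖ ≤ va s * |y| ^ 3 / 6) ∧
  (∀ s y : ℝ, ‖psi s y - 1‖ ≤ mu s * |y|) ∧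
  (∀ s y : ℝ, ‖psi s y - 1 + I * mu s * y‖ ≤ mu s * y ^ 2) ∧
  (∀ s y : ℝ, ‖psi s y‖ ^ 2 * (s ^ 2 + y ^ 2) ≤ s ^ 2 + 4) ∧
  (∃ c : ℝ, 0 < c ∧ c ≤ 1 ∧ ∀ s y : ℝ, 1 ≤ |y| → ‖psi s y‖ ^ 2 ≤ 1 - c * y ^ 2 / (s ^ 2 + y ^ 2))

/-- The reduced integrals. -/
noncomputable def H (s : ℝ) (M i j : ℕ) : ℂ :=
  ∫ y : ℝ, (cexp (I * mu s * y) * psi s y) ^ M * (psi s y - 1) ^ i * (cexp (I * y) - 1) ^ j

/-- LIM: the normalised integrals tend to Gaussian moments. -/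
def LimSt : Prop := ∀ (s : ℕ → ℝ) (M : ℕ → ℕ), Tendsto M atTop atTop →
  Tendsto (fun l => (M l : ℝ) * va (s l)) atTop atTop → ∀ i j : ℕ,
  Tendsto (fun l => ((√((M l : ℝ) * va (s l)) ^ (i + j + 1) / mu (s l) ^ i : ℝ) : ℂ)
      * H (s l) (M l) i j) atTop
    (𝓝 ((-I) ^ i * I ^ j * (∫ v : ℝ, v ^ (i + j) * Real.exp (-(v ^ 2 / 2)) : ℝ)))

/-- DET: binomial row and column operations. -/
def DetSt : Prop := ∀ (m M : ℕ) (s : ℝ), 2 ≤ M →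
  Matrix.det (Matrix.of fun i j : Fin m => J s (M + i) (M * mu s + j)) =
    (∏ i : Fin m, ((1 / (2 * π) * Z s ^ (M + (i : ℕ)) * Real.exp ((M * mu s + (i : ℕ)) * s) : ℝ) : ℂ))
      * Matrix.det (Matrix.of fun i j : Fin m => H s M i j)

/-- HAN: positivity of the Gaussian Hankel determinants. -/
def HanSt : Prop := ∀ m : ℕ,
  0 < Matrix.det (Matrix.of fun i j : Fin m =>
    (∫ v : ℝ, v ^ ((i : ℕ) + (j : ℕ)) * Real.exp (-(v ^ 2 / 2)) : ℝ))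

end Pool.Agent.H53.ATP
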