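import Pool.Agent.H53.ATP.Spec

/-!
# Part HAN: positivity of the Gaussian Hankel determinants
-/

set_option autoImplicit false

open MeasureTheory Filter
open scoped Topology Real

namespace Pool.Agent.H53.ATP

theorem han_integrable (n : ℕ) :
    Integrable (fun v : ℝ => v ^ n * Real.exp (-(v ^ 2 / 2))) := by
  have h := integrable_rpow_mul_exp_neg_mul_sq (b := 1 / 2) (by norm_num) (s := (n : ℝ))
    (by
      have : (0 : ℝ) ≤ (n : ℝ) := Nat.cast_nonneg n
      linarith)
  refine h.congr (Filter.Eventually.of_forall fun v => ?_)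
  simp only [Real.rpow_natCast]
  congr 2
  ring

theorem han_quad (m : ℕ) (x : Fin m → ℝ) :
    ∑ i : Fin m, ∑ j : Fin m, x i * ((∫ v : ℝ, v ^ ((i : ℕ) + (j : ℕ)) * Real.exp (-(v ^ 2 / 2))) * x j) =
      ∫ v : ℝ, (∑ i : Fin m, x i * v ^ (i : ℕ)) ^ 2 * Real.exp (-(v ^ 2 / 2)) := by
  have h1 : ∀ v : ℝ, (∑ i : Fin m, x i * v ^ (i : ℕ)) ^ 2 * Real.exp (-(v ^ 2 / 2)) =
      ∑ i : Fin m, ∑ j : Fin m, (x i * x j) * (v ^ ((i : ℕ) + (j : ℕ)) * Real.exp (-(v ^ 2 / 2))) := by
    intro v
    rw [sq, Finset.sum_mul_sum, Finset.sum_mul]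
    refine Finset.sum_congr rfl fun i _ => ?_
    rw [Finset.sum_mul]
    refine Finset.sum_congr rfl fun j _ => ?_
    rw [pow_add]
    ring
  simp_rw [h1]
  rw [integral_finsetSum]
  · refine Finset.sum_congr rfl fun i _ => ?_
    rw [integral_finsetSum]
    · refine Finset.sum_congr rfl fun j _ => ?_
      rw [integral_const_mul]
      ring
    · intro j _
      exact (han_integrable _).const_mul _
  · intro i _
    apply integrable_finsetSum
    intro j _
    exact (han_integrable _).const_mul _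

theorem han_pos (m : ℕ) (x : Fin m → ℝ) (hx : x ≠ 0) :
    0 < ∫ v : ℝ, (∑ i : Fin m, x i * v ^ (i : ℕ)) ^ 2 * Real.exp (-(v ^ 2 / 2)) := by
  have hint : Integrable (fun v : ℝ => (∑ i : Fin m, x i * v ^ (i : ℕ)) ^ 2 * Real.exp (-(v ^ 2 / 2))) := by
    have h1 : ∀ v : ℝ, (∑ i : Fin m, x i * v ^ (i : ℕ)) ^ 2 * Real.exp (-(v ^ 2 / 2)) =
        ∑ i : Fin m, ∑ j : Fin m, (x i * x j) * (v ^ ((i : ℕ) + (j : ℕ)) * Real.exp (-(v ^ 2 / 2))) := by
      intro v
      rw [sq, Finset.sum_mul_sum, Finset.sum_mul]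
      refine Finset.sum_congr rfl fun i _ => ?_
      rw [Finset.sum_mul]
      refine Finset.sum_congr rfl fun j _ => ?_
      rw [pow_add]
      ring
    simp_rw [h1]
    apply integrable_finsetSum
    intro i _
    apply integrable_finsetSum
    intro j _
    exact (han_integrable _).const_mul _
  rw [integral_pos_iff_support_of_nonneg (fun v => by positivity) hint]
  have hopen : IsOpen (Function.support
      (fun v : ℝ => (∑ i : Fin m, x i * v ^ (i : ℕ)) ^ 2 * Real.exp (-(v ^ 2 / 2)))) := by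
    apply Continuous.isOpen_support
    fun_prop
  refine hopen.measure_pos volume ?_
  by_contra hne
  rw [Set.not_nonempty_iff_eq_empty, Function.support_eq_empty_iff] at hne
  let p : Polynomial ℝ := ∑ i : Fin m, Polynomial.C (x i) * Polynomial.X ^ (i : ℕ)
  have hp : p = 0 := by
    apply Polynomial.funext
    intro v
    have h2 := congrFun hne v
    simp only [Pi.zero_apply, mul_eq_zero, Real.exp_ne_zero, or_false, ne_eq, OfNat.ofNat_ne_zero,
      not_false_eq_true, pow_eq_zero_iff] at h2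
    simp only [p, Polynomial.eval_finsetSum, Polynomial.eval_mul, Polynomial.eval_C,
      Polynomial.eval_pow, Polynomial.eval_X, Polynomial.eval_zero]
    exact h2
  apply hx
  funext i
  have h3 : p.coeff (i : ℕ) = x i := by
    simp only [p, Polynomial.finsetSum_coeff, Polynomial.coeff_C_mul, Polynomial.coeff_X_pow]
    rw [Finset.sum_eq_single i]
    · simp
    · intro j _ hj
      have : (i : ℕ) ≠ (j : ℕ) := fun h => hj (Fin.ext h.symm)
      simp [this]
    · intro h
      exact absurd (Finset.mem_univ i) h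
  rw [hp] at h3
  simpa using h3.symm

theorem han : HanSt := by
  intro m
  have hpd : (Matrix.of fun i j : Fin m =>
      (∫ v : ℝ, v ^ ((i : ℕ) + (j : ℕ)) * Real.exp (-(v ^ 2 / 2)) : ℝ)).PosDef := by
    apply Matrix.PosDef.of_dotProduct_mulVec_pos
    · ext i j
      simp only [Matrix.conjTranspose_apply, Matrix.of_apply, star_trivial]
      rw [add_comm]
    · intro x hx
      have h := han_pos m x hx
      rw [← han_quad] at h
      have h2 : star x ⬝ᵥ (Matrix.of fun i j : Fin m =>
          (∫ v : ℝ, v ^ ((i : ℕ) + (j : ℕ)) * Real.exp (-(v ^ 2 / 2)) : ℝ)).mulVec x =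
          ∑ i : Fin m, ∑ j : Fin m, x i * ((∫ v : ℝ, v ^ ((i : ℕ) + (j : ℕ)) * Real.exp (-(v ^ 2 / 2))) * x j) := by
        simp only [dotProduct, Matrix.mulVec, Matrix.of_apply, star_trivial]
        refine Finset.sum_congr rfl fun i _ => ?_
        rw [Finset.mul_sum]
      rw [h2]
      exact h
  exact hpd.det_pos

end Pool.Agent.H53.ATP
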