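import Pool.Agent.H53.ATP.Spec

/-!
# Fekete's criterion with staircase zeros, bounded order, rows at least `N`
-/

set_option autoImplicit false

namespace Pool.Agent.H53.ATP

section ident

/-- Determinant with coordinates `V` and column labels `c`. -/
noncomputable def fkD {k : ℕ} (V : Fin k → ℕ → ℝ) (c : Fin k → ℕ) : ℝ :=
  Matrix.det (Matrix.of fun i j => V i (c j))

theorem fkD_perm {k : ℕ} (V : Fin k → ℕ → ℝ) (c : Fin k → ℕ) (σ : Equiv.Perm (Fin k)) :
    fkD V (c ∘ σ) = ((Equiv.Perm.sign σ : ℤ) : ℝ) * fkD V c := by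
  unfold fkD
  rw [← Matrix.det_permute']
  rfl

theorem fkD_insert {k : ℕ} (V : Fin (k + 1) → ℕ → ℝ) (x : ℕ) (H : Fin k → ℕ) (p : Fin (k + 1)) :
    fkD V (p.insertNth (α := fun _ => ℕ) x H) = (-1) ^ (p : ℕ) * fkD V (Fin.cons x H) := by
  have h : (p.insertNth (α := fun _ => ℕ) x H) =
      (Fin.cons x H : Fin (k + 1) → ℕ) ∘ p.cycleRange := by
    funext j
    exact (Fin.cons_apply_cycleRange x H p j).symm
  rw [h, fkD_perm, Fin.sign_cycleRange]
  norm_num

theorem fkD_snoc {k : ℕ} (V : Fin (k + 1) → ℕ → ℝ) (x : ℕ) (H : Fin k → ℕ) :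
    fkD V (Fin.snoc (α := fun _ => ℕ) H x) = (-1) ^ k * fkD V (Fin.cons x H) := by
  rw [← Fin.insertNth_last', fkD_insert]
  simp

theorem fkD_col {k : ℕ} (V : Fin (k + 1) → ℕ → ℝ) (u : ℕ) (c : Fin k → ℕ) :
    fkD V (Fin.cons u c) = ∑ i : Fin (k + 1), (-1) ^ (i : ℕ) * V i u *
      fkD (fun l => V (i.succAbove l)) c := by
  unfold fkD
  rw [Matrix.det_succ_column_zero]
  refine Finset.sum_congr rfl fun i _ => ?_
  rfl

theorem fkD_cons_congr {k : ℕ} (V : Fin (k + 1) → ℕ → ℝ) (u : ℕ) (c c' : Fin k → ℕ) (s : ℝ)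
    (h : ∀ V' : Fin k → ℕ → ℝ, fkD V' c = s * fkD V' c') :
    fkD V (Fin.cons u c) = s * fkD V (Fin.cons u c') := by
  rw [fkD_col, fkD_col, Finset.mul_sum]
  refine Finset.sum_congr rfl fun i _ => ?_
  rw [h]
  ring

theorem fkD_swap {k : ℕ} (V : Fin (k + 2) → ℕ → ℝ) (u v : ℕ) (G : Fin k → ℕ) :
    fkD V (Fin.cons u (Fin.cons v G)) = - fkD V (Fin.cons v (Fin.cons u G)) := by
  have h : (Fin.cons u (Fin.cons v G) : Fin (k + 2) → ℕ) =
      (Fin.cons v (Fin.cons u G) : Fin (k + 2) → ℕ) ∘ (Equiv.swap 0 1) := by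
    funext j
    refine Fin.cases ?_ (fun j => ?_) j
    · simp
    · refine Fin.cases ?_ (fun j => ?_) j
      · simp
      · have h1 : (Equiv.swap (0 : Fin (k + 2)) 1) j.succ.succ = j.succ.succ := by
          apply Equiv.swap_apply_of_ne_of_ne
          · exact Fin.succ_ne_zero _
          · intro h
            have := congrArg Fin.val h
            simp at this
        simp [h1]
  rw [h, fkD_perm, Equiv.Perm.sign_swap (by simp)]
  simp

theorem fkD_rep {k : ℕ} (V : Fin k → ℕ → ℝ) (c : Fin k → ℕ) (i j : Fin k) (hij : i ≠ j)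
    (h : c i = c j) : fkD V c = 0 := by
  unfold fkD
  refine Matrix.det_zero_of_column_eq hij fun r => ?_
  simp [h]

theorem fk_three {M : ℕ} (V : Fin (M + 2) → ℕ → ℝ) (ε : Fin (M + 1) → Fin (M + 2))
    (G : Fin M → ℕ) (x y z : ℕ) :
    fkD (fun i => V (ε i)) (Fin.cons y G) * fkD V (Fin.cons x (Fin.cons z G)) =
      fkD (fun i => V (ε i)) (Fin.cons x G) * fkD V (Fin.cons y (Fin.cons z G)) +
        fkD (fun i => V (ε i)) (Fin.cons z G) * fkD V (Fin.cons x (Fin.cons y G)) := by
  set L : ℕ → ℝ := fun c => fkD (fun i => V (ε i)) (Fin.cons c G) with hL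
  set col : Fin (M + 3) → ℕ := Fin.cons x (Fin.cons y (Fin.cons z G)) with hcol
  set W : Matrix (Fin (M + 3)) (Fin (M + 3)) ℝ :=
    Matrix.of (Fin.cons (fun j => L (col j)) (fun i j => V i (col j))) with hW
  have hLc : ∀ c, L c = ∑ i : Fin (M + 1), (-1) ^ (i : ℕ) * V (ε i) c *
      fkD (fun l => V (ε (i.succAbove l))) G := fun c => fkD_col _ _ _
  have hdet : W.det = 0 := by
    rw [← Matrix.exists_vecMul_eq_zero_iff]
    refine ⟨Fin.cons (-1) (fun k => ∑ i : Fin (M + 1), if ε i = k then (-1) ^ (i : ℕ) *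
      fkD (fun l => V (ε (i.succAbove l))) G else 0), ?_, ?_⟩
    · intro h
      have := congrFun h 0
      simp at this
    · funext j
      rw [Matrix.vecMul, dotProduct, Fin.sum_univ_succ]
      simp only [Fin.cons_zero, Fin.cons_succ, hW, Matrix.of_apply, Pi.zero_apply]
      rw [hLc]
      have h2 : ∑ k : Fin (M + 2), (∑ i : Fin (M + 1), if ε i = k then (-1) ^ (i : ℕ) *
          fkD (fun l => V (ε (i.succAbove l))) G else 0) * V k (col j) =
          ∑ i : Fin (M + 1), (-1) ^ (i : ℕ) * V (ε i) (col j) *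
            fkD (fun l => V (ε (i.succAbove l))) G := by
        simp_rw [Finset.sum_mul]
        rw [Finset.sum_comm]
        refine Finset.sum_congr rfl fun i _ => ?_
        rw [Finset.sum_eq_single (ε i)]
        · rw [if_pos rfl]
          ring
        · intro b _ hb
          rw [if_neg (fun h => hb h.symm), zero_mul]
        · intro h
          exact absurd (Finset.mem_univ _) h
      rw [h2]
      ring
  rw [Matrix.det_succ_row_zero, Fin.sum_univ_succ, Fin.sum_univ_succ, Fin.sum_univ_succ] at hdet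
  have htail : ∀ j : Fin M, W 0 j.succ.succ.succ = 0 := by
    intro j
    simp only [hW, Matrix.of_apply, Fin.cons_zero, hcol, Fin.cons_succ, hL]
    exact fkD_rep _ _ 0 j.succ (Fin.succ_ne_zero _).symm (by simp)
  have e0 : W 0 0 = L x := by simp [hW, hcol]
  have e1 : W 0 (Fin.succ 0) = L y := by
    simp only [hW, Matrix.of_apply, Fin.cons_zero, hcol, Fin.cons_succ]
  have e2 : W 0 (Fin.succ (Fin.succ 0)) = L z := by
    simp only [hW, Matrix.of_apply, Fin.cons_zero, hcol, Fin.cons_succ]
  have d0 : (W.submatrix Fin.succ (Fin.succAbove 0)).det = fkD V (Fin.cons y (Fin.cons z G)) := by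
    unfold fkD
    congr 1
  have d1 : (W.submatrix Fin.succ (Fin.succAbove (Fin.succ 0))).det =
      fkD V (Fin.cons x (Fin.cons z G)) := by
    unfold fkD
    congr 1
    funext i j
    simp only [Matrix.submatrix_apply, hW, Matrix.of_apply, Fin.cons_succ, hcol]
    refine Fin.cases ?_ (fun j => ?_) j
    · simp
    · simp
  have d2 : (W.submatrix Fin.succ (Fin.succAbove (Fin.succ (Fin.succ 0)))).det =
      fkD V (Fin.cons x (Fin.cons y G)) := by
    unfold fkD
    congr 1
    funext i j
    simp only [Matrix.submatrix_apply, hW, Matrix.of_apply, Fin.cons_succ, hcol]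
    refine Fin.cases ?_ (fun j => ?_) j
    · rw [Fin.succ_succAbove_zero]
      rfl
    · refine Fin.cases ?_ (fun j => ?_) j
      · rw [Fin.succ_succAbove_succ, Fin.succ_succAbove_zero]
        rfl
      · rw [Fin.succ_succAbove_succ, Fin.succ_succAbove_succ, Fin.zero_succAbove]
        rfl
  have hz : ∑ i : Fin M, (-1) ^ ((i.succ.succ.succ : Fin (M + 3)) : ℕ) * W 0 i.succ.succ.succ *
      (W.submatrix Fin.succ (Fin.succAbove i.succ.succ.succ)).det = 0 := by
    refine Finset.sum_eq_zero fun i _ => ?_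
    rw [htail]
    ring
  rw [hz, e0, e1, e2, d0, d1, d2] at hdet
  simp only [Fin.val_zero, Fin.val_succ, pow_zero, one_mul, zero_add, pow_one] at hdet
  change L y * _ = L x * _ + L z * _
  linear_combination (-1 : ℝ) * hdet

theorem fk_plu {M : ℕ} (V : Fin (M + 2) → ℕ → ℝ) (ε : Fin (M + 1) → Fin (M + 2))
    (G : Fin M → ℕ) (p : Fin (M + 1)) (x y z : ℕ) :
    fkD (fun i => V (ε i)) (p.insertNth (α := fun _ => ℕ) y G) *
        fkD V (Fin.cons x (Fin.snoc (α := fun _ => ℕ) G z)) =
      fkD (fun i => V (ε i)) (Fin.cons x G) *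
          fkD V (Fin.snoc (α := fun _ => ℕ) (p.insertNth (α := fun _ => ℕ) y G) z) +
        fkD (fun i => V (ε i)) (Fin.snoc (α := fun _ => ℕ) G z) *
          fkD V (Fin.cons x (p.insertNth (α := fun _ => ℕ) y G)) := by
  have h1 : fkD V (Fin.cons x (Fin.snoc (α := fun _ => ℕ) G z)) =
      (-1) ^ M * fkD V (Fin.cons x (Fin.cons z G)) :=
    fkD_cons_congr V x _ _ _ fun V' => fkD_snoc V' z G
  have h2 : fkD V (Fin.snoc (α := fun _ => ℕ) (p.insertNth (α := fun _ => ℕ) y G) z) =
      (-1) ^ M * (-1) ^ (p : ℕ) * fkD V (Fin.cons y (Fin.cons z G)) := by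
    rw [fkD_snoc, fkD_cons_congr V z _ _ _ fun V' => fkD_insert V' y G p, fkD_swap]
    ring
  have h3 : fkD V (Fin.cons x (p.insertNth (α := fun _ => ℕ) y G)) =
      (-1) ^ (p : ℕ) * fkD V (Fin.cons x (Fin.cons y G)) :=
    fkD_cons_congr V x _ _ _ fun V' => fkD_insert V' y G p
  rw [h1, h2, h3, fkD_insert, fkD_snoc]
  have h := fk_three V ε G x y z
  linear_combination ((-1) ^ M * (-1) ^ (p : ℕ)) * h

end ident

section zero

/-- The minor vanishes if the staircase condition fails. -/
theorem fk_zero {a : ℕ → ℕ → ℝ} (htri : ∀ n k, n < k → a n k = 0) {m : ℕ} {f g : Fin m → ℕ}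
    (hf : StrictMono f) (hg : StrictMono g) (j : Fin m) (hj : f j < g j) :
    Matrix.det (Matrix.of fun i j => a (f i) (g j)) = 0 := by
  rw [Matrix.det_apply]
  refine Finset.sum_eq_zero fun σ _ => ?_
  have h : ∃ i : Fin m, j ≤ i ∧ σ i ≤ j := by
    by_contra hc
    push Not at hc
    have h1 : (Finset.Ici j).image σ ⊆ Finset.Ioi j := by
      intro x hx
      obtain ⟨i, hi, rfl⟩ := Finset.mem_image.1 hx
      exact Finset.mem_Ioi.2 (hc i (Finset.mem_Ici.1 hi))
    have h2 := Finset.card_le_card h1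
    rw [Finset.card_image_of_injective _ σ.injective, Fin.card_Ici, Fin.card_Ioi] at h2
    have := j.isLt
    omega
  obtain ⟨i, hi, hσ⟩ := h
  have h0 : ∏ k, (Matrix.of fun i j => a (f i) (g j)) (σ k) k = 0 := by
    refine Finset.prod_eq_zero (Finset.mem_univ i) ?_
    rw [Matrix.of_apply]
    apply htri
    exact lt_of_le_of_lt (hf.monotone hσ) (lt_of_lt_of_le hj (hg.monotone hi))
  rw [h0, smul_zero]

end zero

section shift

/-- `g` with one more element inserted after position `t`, without its ends. -/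
def fkH {M : ℕ} (g : Fin (M + 2) → ℕ) (t : Fin (M + 1)) (i : Fin (M + 1)) : ℕ :=
  if i < t then g i.succ else if i = t then g t.castSucc + 1 else g i.castSucc

/-- The inner part of `g`. -/
def fkG {M : ℕ} (g : Fin (M + 2) → ℕ) : Fin M → ℕ :=
  fun j => g j.succ.castSucc

theorem fkH_eq {M : ℕ} (g : Fin (M + 2) → ℕ) (t : Fin (M + 1)) :
    t.insertNth (α := fun _ => ℕ) (g t.castSucc + 1) (fkG g) = fkH g t := by
  funext i
  refine Fin.succAboveCases t ?_ (fun j => ?_) i
  · simp [fkH]
  · rw [Fin.insertNth_apply_succAbove]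
    rcases lt_or_ge j.castSucc t with h | h
    · rw [Fin.succAbove_of_castSucc_lt _ _ h]
      rw [fkH, if_pos h, fkG, Fin.succ_castSucc]
    · rw [Fin.succAbove_of_le_castSucc _ _ h]
      have h1 : t < j.succ := lt_of_le_of_lt h (Fin.castSucc_lt_succ)
      rw [fkH, if_neg (not_lt.2 h1.le), if_neg h1.ne', fkG]

theorem fk_cs {M : ℕ} (g : Fin (M + 2) → ℕ) :
    (Fin.cons (g 0) (fkG g) : Fin (M + 1) → ℕ) = fun i => g i.castSucc := by
  funext i
  refine Fin.cases ?_ (fun j => ?_) i
  · simp
  · rfl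

theorem fk_sn {M : ℕ} (g : Fin (M + 2) → ℕ) :
    (Fin.snoc (α := fun _ => ℕ) (fkG g) (g (Fin.last (M + 1))) : Fin (M + 1) → ℕ) =
      fun i => g i.succ := by
  funext i
  refine Fin.lastCases ?_ (fun j => ?_) i
  · simp
  · rw [Fin.snoc_castSucc, fkG, Fin.succ_castSucc]

theorem fk_all {M : ℕ} (g : Fin (M + 2) → ℕ) :
    (Fin.cons (g 0) (Fin.snoc (α := fun _ => ℕ) (fkG g) (g (Fin.last (M + 1)))) :
      Fin (M + 2) → ℕ) = g := by
  rw [fk_sn]
  exact Fin.cons_self_tail g

variable {M : ℕ} {g : Fin (M + 2) → ℕ} {t : Fin (M + 1)}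

theorem fkH_lo (hg : StrictMono g) (i : Fin (M + 1)) : g i.castSucc ≤ fkH g t i := by
  unfold fkH
  split_ifs with h1 h2
  · exact (hg Fin.castSucc_lt_succ).le
  · rw [h2]
    omega
  · exact le_rfl

theorem fkH_hi (hg : StrictMono g) (ht : g t.castSucc + 1 < g t.succ) (i : Fin (M + 1)) :
    fkH g t i ≤ g i.succ := by
  unfold fkH
  split_ifs with h1 h2
  · exact le_rfl
  · rw [h2]
    omega
  · exact (hg Fin.castSucc_lt_succ).le

theorem fkH_zero (hg : StrictMono g) : g 0 < fkH g t 0 := by
  unfold fkH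
  split_ifs with h1 h2
  · exact hg (Fin.succ_pos 0)
  · rw [← h2]
    simp
  · exfalso
    rcases Fin.eq_zero_or_eq_succ t with h | ⟨j, h⟩
    · exact h2 h.symm
    · exact h1 (by rw [h]; exact Fin.succ_pos j)

theorem fkH_last (hg : StrictMono g) (ht : g t.castSucc + 1 < g t.succ) :
    fkH g t (Fin.last M) < g (Fin.last (M + 1)) := by
  unfold fkH
  split_ifs with h1 h2
  · exact absurd (Fin.le_last t) (not_le.2 h1)
  · rw [← h2] at ht ⊢
    rwa [Fin.succ_last] at ht
  · exact hg (Fin.castSucc_lt_last _)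

theorem fkH_mono (hg : StrictMono g) (ht : g t.castSucc + 1 < g t.succ) :
    StrictMono (fkH g t) := by
  intro i j hij
  unfold fkH
  have e1 : ∀ a b : Fin (M + 2), a < b → g a < g b := fun a b h => hg h
  have e2 : ∀ a b : Fin (M + 2), a ≤ b → g a ≤ g b := fun a b h => hg.monotone h
  split_ifs with h1 h2 h3 h4 h5 h6 h7 h8
  · exact e1 _ _ (Fin.succ_lt_succ_iff.2 hij)
  · have : g i.succ ≤ g t.castSucc := e2 _ _ (by
      rw [Fin.le_def]
      simp only [Fin.val_succ, Fin.val_castSucc]
      have := Fin.lt_def.1 h1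
      omega)
    omega
  · have : g i.succ < g j.castSucc := e1 _ _ (by
      rw [Fin.lt_def]
      simp only [Fin.val_succ, Fin.val_castSucc]
      have h5 := Fin.lt_def.1 h1
      have h6 : (t : ℕ) ≤ j := Fin.le_def.1 (not_lt.1 h2)
      have h7 : (j : ℕ) ≠ t := fun h => h3 (Fin.ext h)
      omega)
    exact this
  · exfalso
    rw [h4] at hij
    exact absurd hij (not_lt.2 h5.le)
  · exfalso
    rw [h4, h6] at hij
    exact lt_irrefl _ hij
  · have h7 : g t.succ ≤ g j.castSucc := e2 _ _ (by
      rw [Fin.le_def]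
      simp only [Fin.val_succ, Fin.val_castSucc]
      have h8 := Fin.lt_def.1 hij
      rw [h4] at h8
      omega)
    omega
  · exfalso
    exact h1 (lt_trans hij h7)
  · exfalso
    rw [h8] at hij
    exact h1 hij
  · exact e1 _ _ (Fin.castSucc_lt_castSucc_iff.2 hij)

theorem fk_snoc_mono {k : ℕ} {H : Fin (k + 1) → ℕ} {z : ℕ} (hH : StrictMono H)
    (hz : H (Fin.last k) < z) :
    StrictMono (Fin.snoc (α := fun _ => ℕ) H z : Fin (k + 2) → ℕ) := by
  intro i j
  refine Fin.lastCases ?_ (fun j => ?_) j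
  · refine Fin.lastCases ?_ (fun i => ?_) i
    · intro h
      exact absurd h (lt_irrefl _)
    · intro _
      rw [Fin.snoc_castSucc, Fin.snoc_last]
      exact lt_of_le_of_lt (hH.monotone (Fin.le_last i)) hz
  · refine Fin.lastCases ?_ (fun i => ?_) i
    · intro h
      exact absurd (Fin.castSucc_lt_last j) (not_lt.2 h.le)
    · intro h
      rw [Fin.snoc_castSucc, Fin.snoc_castSucc]
      exact hH (Fin.castSucc_lt_castSucc_iff.1 h)

theorem fk_cons_mono {k : ℕ} {H : Fin (k + 1) → ℕ} {x : ℕ} (hH : StrictMono H)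
    (hx : x < H 0) : StrictMono (Fin.cons x H : Fin (k + 2) → ℕ) := by
  intro i j
  refine Fin.cases ?_ (fun j => ?_) j
  · intro h
    exact absurd h (Fin.not_lt_zero i)
  · refine Fin.cases ?_ (fun i => ?_) i
    · intro _
      rw [Fin.cons_zero, Fin.cons_succ]
      exact lt_of_lt_of_le hx (hH.monotone (Fin.zero_le j))
    · intro h
      rw [Fin.cons_succ, Fin.cons_succ]
      exact hH (Fin.succ_lt_succ_iff.1 h)

theorem fk_gap (hg : StrictMono g) (h : ¬ ∀ i : Fin (M + 2), g i = g 0 + i) :
    ∃ t : Fin (M + 1), g t.castSucc + 1 < g t.succ := by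
  by_contra hc
  push Not at hc
  apply h
  intro i
  induction i using Fin.induction with
  | zero => simp
  | succ i ih =>
    have h1 := hc i
    have h2 : g i.castSucc < g i.succ := hg Fin.castSucc_lt_succ
    rw [Fin.val_castSucc] at ih
    rw [Fin.val_succ]
    omega

end shift

section main

variable {a : ℕ → ℕ → ℝ} {N M : ℕ}

/-- The statement for one order. -/
def FkS (a : ℕ → ℕ → ℝ) (N m : ℕ) : Prop := ∀ f g : Fin m → ℕ, StrictMono f → StrictMono g →
  (∀ i, N ≤ f i) → (∀ i, g i ≤ f i) → 0 < Matrix.det (Matrix.of fun i j => a (f i) (g j))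

theorem fk_stepA (htri : ∀ n k, n < k → a n k = 0)
    (hs : ∀ n, N ≤ n → ∀ k, k ≤ n →
      0 < Matrix.det (Matrix.of fun i j : Fin (M + 2) => a (n + i) (k + j)))
    (ih : FkS a N (M + 1)) (n : ℕ) (hn : N ≤ n) :
    ∀ d : ℕ, ∀ g : Fin (M + 2) → ℕ, StrictMono g → g (Fin.last (M + 1)) - g 0 = d →
      (∀ i : Fin (M + 2), g i ≤ n + i) →
      0 < Matrix.det (Matrix.of fun i j : Fin (M + 2) => a (n + i) (g j)) := by
  intro d
  induction d using Nat.strong_induction_on with
  | _ d IH =>
    intro g hg hd hst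
    by_cases hc : ∀ i : Fin (M + 2), g i = g 0 + i
    · have h1 := hs n hn (g 0) (by simpa using hst 0)
      have h2 : (Matrix.of fun i j : Fin (M + 2) => a (n + i) (g j)) =
          Matrix.of fun i j : Fin (M + 2) => a (n + i) (g 0 + j) := by
        ext i j
        rw [Matrix.of_apply, Matrix.of_apply, hc j]
      rw [h2]
      exact h1
    · obtain ⟨t, ht⟩ := fk_gap hg hc
      have hf : StrictMono fun i : Fin (M + 2) => n + (i : ℕ) := fun i j h => by
        have := Fin.lt_def.1 h
        simp only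
        omega
      have key := fk_plu (fun (i : Fin (M + 2)) c => a (n + i) c) Fin.succ (fkG g) t (g 0)
        (g t.castSucc + 1) (g (Fin.last (M + 1)))
      rw [fkH_eq, fk_all, fk_cs, fk_sn] at key
      have hrow : StrictMono fun i : Fin (M + 1) => n + (i.succ : ℕ) := fun i j h => by
        have := Fin.lt_def.1 h
        simp only [Fin.val_succ]
        omega
      have b1 : 0 < fkD (fun i : Fin (M + 1) => fun c => a (n + (i.succ : ℕ)) c) (fkH g t) :=
        ih (fun i => n + (i.succ : ℕ)) (fkH g t) hrow (fkH_mono hg ht) (fun i => by omega)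
          fun i => (fkH_hi hg ht i).trans (hst i.succ)
      have b2 : 0 < fkD (fun i : Fin (M + 1) => fun c => a (n + (i.succ : ℕ)) c)
          (fun i => g i.castSucc) :=
        ih (fun i => n + (i.succ : ℕ)) (fun i => g i.castSucc) hrow
          (fun i j h => hg (Fin.castSucc_lt_castSucc_iff.2 h)) (fun i => by omega)
          fun i => ((hg Fin.castSucc_lt_succ).le).trans (hst i.succ)
      have b3 : 0 < fkD (fun i : Fin (M + 1) => fun c => a (n + (i.succ : ℕ)) c)
          (fun i => g i.succ) :=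
        ih (fun i => n + (i.succ : ℕ)) (fun i => g i.succ) hrow
          (fun i j h => hg (Fin.succ_lt_succ_iff.2 h)) (fun i => by omega)
          fun i => hst i.succ
      have hlast := fkH_last hg ht
      have hzero : g 0 < fkH g t 0 := fkH_zero hg
      have hH := fkH_mono hg ht
      have hle : fkH g t 0 ≤ fkH g t (Fin.last M) := hH.monotone (Fin.zero_le _)
      have c1 : 0 < fkD (fun (i : Fin (M + 2)) c => a (n + i) c) (Fin.cons (g 0) (fkH g t)) := by
        refine IH (fkH g t (Fin.last M) - g 0) (by omega) (Fin.cons (g 0) (fkH g t))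
          (fk_cons_mono hH hzero) ?_ ?_
        · rw [Fin.cons_zero, ← Fin.succ_last, Fin.cons_succ]
        · intro i
          refine Fin.cases ?_ (fun i => ?_) i
          · rw [Fin.cons_zero]
            exact hst 0
          · rw [Fin.cons_succ]
            exact (fkH_hi hg ht i).trans (hst i.succ)
      have c2 : 0 ≤ fkD (fun (i : Fin (M + 2)) c => a (n + i) c)
          (Fin.snoc (α := fun _ => ℕ) (fkH g t) (g (Fin.last (M + 1)))) := by
        have hm := fk_snoc_mono hH hlast
        by_cases hst' : ∀ i : Fin (M + 2),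
            (Fin.snoc (α := fun _ => ℕ) (fkH g t) (g (Fin.last (M + 1))) : Fin (M + 2) → ℕ) i ≤
              n + i
        · refine (IH (g (Fin.last (M + 1)) - fkH g t 0) (by omega) _ hm ?_ hst').le
          rw [Fin.snoc_last, ← Fin.castSucc_zero, Fin.snoc_castSucc]
        · push Not at hst'
          obtain ⟨j, hj⟩ := hst'
          exact (fk_zero htri hf hm j hj).ge
      have hpos : 0 < fkD (fun i : Fin (M + 1) => fun c => a (n + (i.succ : ℕ)) c) (fkH g t) *
          fkD (fun (i : Fin (M + 2)) c => a (n + i) c) g := by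
        rw [key]
        have h1 := mul_nonneg b2.le c2
        have h2 := mul_pos b3 c1
        linarith
      exact (mul_pos_iff_of_pos_left b1).1 hpos

theorem fk_tr {k : ℕ} (a : ℕ → ℕ → ℝ) (f g : Fin k → ℕ) :
    fkD (fun i r => a r (g i)) f = Matrix.det (Matrix.of fun i j => a (f i) (g j)) := by
  unfold fkD
  rw [← Matrix.det_transpose]
  rfl

theorem fk_stepB (htri : ∀ n k, n < k → a n k = 0)
    (hs : ∀ n, N ≤ n → ∀ k, k ≤ n →
      0 < Matrix.det (Matrix.of fun i j : Fin (M + 2) => a (n + i) (k + j)))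
    (ih : FkS a N (M + 1)) (g : Fin (M + 2) → ℕ) (hg : StrictMono g) :
    ∀ d : ℕ, ∀ f : Fin (M + 2) → ℕ, StrictMono f → f (Fin.last (M + 1)) - f 0 = d →
      (∀ i, N ≤ f i) → (∀ i : Fin (M + 2), g i ≤ f i) →
      0 < Matrix.det (Matrix.of fun i j : Fin (M + 2) => a (f i) (g j)) := by
  intro d
  induction d using Nat.strong_induction_on with
  | _ d IH =>
    intro f hf hd hN hst
    by_cases hc : ∀ i : Fin (M + 2), f i = f 0 + i
    · have h1 := fk_stepA htri hs ih (f 0) (hN 0) _ g hg rfl (fun i => by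
        rw [← hc i]
        exact hst i)
      have h2 : (Matrix.of fun i j : Fin (M + 2) => a (f i) (g j)) =
          Matrix.of fun i j : Fin (M + 2) => a (f 0 + i) (g j) := by
        ext i j
        rw [Matrix.of_apply, Matrix.of_apply, hc i]
      rw [h2]
      exact h1
    · obtain ⟨t, ht⟩ := fk_gap hf hc
      have key := fk_plu (fun (i : Fin (M + 2)) r => a r (g i)) Fin.castSucc (fkG f) t (f 0)
        (f t.castSucc + 1) (f (Fin.last (M + 1)))
      rw [fkH_eq, fk_all, fk_cs, fk_sn] at key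
      have hlast := fkH_last hf ht
      have hzero : f 0 < fkH f t 0 := fkH_zero hf
      have hH := fkH_mono hf ht
      have hle : fkH f t 0 ≤ fkH f t (Fin.last M) := hH.monotone (Fin.zero_le _)
      have hgc : StrictMono fun i : Fin (M + 1) => g i.castSucc :=
        fun i j h => hg (Fin.castSucc_lt_castSucc_iff.2 h)
      have hHN : ∀ i, N ≤ fkH f t i := fun i => (hN i.castSucc).trans (fkH_lo hf i)
      have b1 : 0 < fkD (fun (i : Fin (M + 1)) r => a r (g i.castSucc)) (fkH f t) := by
        rw [fk_tr a (fkH f t) (fun i : Fin (M + 1) => g i.castSucc)]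
        exact ih _ _ hH hgc hHN fun i => (hst i.castSucc).trans (fkH_lo hf i)
      have b2 : 0 < fkD (fun (i : Fin (M + 1)) r => a r (g i.castSucc))
          (fun i => f i.castSucc) := by
        rw [fk_tr a (fun i : Fin (M + 1) => f i.castSucc) (fun i : Fin (M + 1) => g i.castSucc)]
        exact ih _ _ (fun i j h => hf (Fin.castSucc_lt_castSucc_iff.2 h)) hgc (fun i => hN _)
          fun i => hst i.castSucc
      have b3 : 0 < fkD (fun (i : Fin (M + 1)) r => a r (g i.castSucc)) (fun i => f i.succ) := by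
        rw [fk_tr a (fun i : Fin (M + 1) => f i.succ) (fun i : Fin (M + 1) => g i.castSucc)]
        exact ih _ _ (fun i j h => hf (Fin.succ_lt_succ_iff.2 h)) hgc (fun i => hN _)
          fun i => (hst i.castSucc).trans (hf Fin.castSucc_lt_succ).le
      have c2 : 0 < fkD (fun (i : Fin (M + 2)) r => a r (g i))
          (Fin.snoc (α := fun _ => ℕ) (fkH f t) (f (Fin.last (M + 1)))) := by
        rw [fk_tr a _ g]
        refine IH (f (Fin.last (M + 1)) - fkH f t 0) (by omega) _ (fk_snoc_mono hH hlast) ?_ ?_ ?_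
        · rw [Fin.snoc_last, ← Fin.castSucc_zero, Fin.snoc_castSucc]
        · intro i
          refine Fin.lastCases ?_ (fun i => ?_) i
          · rw [Fin.snoc_last]
            exact hN _
          · rw [Fin.snoc_castSucc]
            exact hHN i
        · intro i
          refine Fin.lastCases ?_ (fun i => ?_) i
          · rw [Fin.snoc_last]
            exact hst _
          · rw [Fin.snoc_castSucc]
            exact (hst i.castSucc).trans (fkH_lo hf i)
      have c1 : 0 ≤ fkD (fun (i : Fin (M + 2)) r => a r (g i)) (Fin.cons (f 0) (fkH f t)) := by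
        rw [fk_tr a _ g]
        have hm := fk_cons_mono hH hzero
        by_cases hst' : ∀ i : Fin (M + 2), g i ≤ (Fin.cons (f 0) (fkH f t) : Fin (M + 2) → ℕ) i
        · refine (IH (fkH f t (Fin.last M) - f 0) (by omega) _ hm ?_ ?_ hst').le
          · rw [Fin.cons_zero, ← Fin.succ_last, Fin.cons_succ]
          · intro i
            refine Fin.cases ?_ (fun i => ?_) i
            · rw [Fin.cons_zero]
              exact hN _
            · rw [Fin.cons_succ]
              exact hHN i
        · push Not at hst'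
          obtain ⟨j, hj⟩ := hst'
          exact (fk_zero htri hm hg j hj).ge
      have hpos : 0 < fkD (fun (i : Fin (M + 1)) r => a r (g i.castSucc)) (fkH f t) *
          fkD (fun (i : Fin (M + 2)) r => a r (g i)) f := by
        rw [key]
        have h1 := mul_pos b2 c2
        have h2 := mul_nonneg b3.le c1
        linarith
      rw [← fk_tr a f g]
      exact (mul_pos_iff_of_pos_left b1).1 hpos

theorem fek : FekSt := by
  intro a K N htri hsol
  have hS : ∀ m, m ≤ K → FkS a N m := by
    intro m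
    induction m with
    | zero =>
      intro _ f g _ _ _ _
      rw [Matrix.det_isEmpty]
      exact one_pos
    | succ m ih =>
      intro hm
      rcases m with _ | M
      · intro f g _ _ hN hst
        have h := hsol 1 hm (f 0) (hN 0) (g 0) (hst 0)
        rw [Matrix.det_fin_one] at h ⊢
        simpa using h
      · intro f g hf hg hN hst
        exact fk_stepB htri (hsol (M + 2) hm) (ih (by omega)) g hg _ f hf rfl hN hst
  intro m hm f g hf hg hN
  refine ⟨?_, fun hst => hS m hm f g hf hg hN hst⟩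
  by_cases hst : ∀ i, g i ≤ f i
  · exact (hS m hm f g hf hg hN hst).le
  · push Not at hst
    obtain ⟨j, hj⟩ := hst
    exact (fk_zero htri hf hg j hj).ge

end main

end Pool.Agent.H53.ATP
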