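import Pool.Agent.H53.ATP.Spec

/-!
# Piece BASE: Fourier inversion of the tent function
-/

set_option autoImplicit false

open MeasureTheory Filter Complex
open scoped Topology Real FourierTransform

namespace Pool.Agent.H53.ATP

private lemma base_ph_closed {t : ℂ} (ht : t ≠ 0) : ph t = (1 - cexp (-t)) / t := by
  unfold ph
  have h : ∀ u : ℝ, cexp (-(t * u)) = cexp (-t * u) := by intro u; ring_nf
  simp_rw [h]
  rw [integral_exp_mul_complex (neg_ne_zero.2 ht)]
  simp
  field_simp
  ring

private lemma base_int1 {t : ℂ} (ht : t ≠ 0) :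
    ∫ u in (0:ℝ)..1, (u : ℂ) * cexp (-(t * u)) = (1 - (t + 1) * cexp (-t)) / t ^ 2 := by
  have h : ∀ u ∈ Set.uIcc (0:ℝ) 1, HasDerivAt
      (fun u : ℝ => -((u : ℂ) / t + 1 / t ^ 2) * cexp (-(t * u)))
      ((u : ℂ) * cexp (-(t * u))) u := by
    intro u _
    have h1 : HasDerivAt (fun u : ℝ => (u : ℂ)) 1 u := Complex.ofRealCLM.hasDerivAt
    have h2 : HasDerivAt (fun u : ℝ => -((u : ℂ) / t + 1 / t ^ 2)) (-(1 / t)) u :=
      ((h1.div_const t).add_const _).neg
    have h3 : HasDerivAt (fun u : ℝ => cexp (-(t * u))) (cexp (-(t * u)) * (-(t * 1))) u :=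
      (h1.const_mul t).neg.cexp
    refine (h2.mul h3).congr_deriv ?_
    field_simp
    ring
  rw [intervalIntegral.integral_eq_sub_of_hasDerivAt h]
  · simp
    field_simp
    ring
  · apply Continuous.intervalIntegrable
    fun_prop

private lemma base_int2 {t : ℂ} (ht : t ≠ 0) :
    ∫ u in (1:ℝ)..2, (2 - (u : ℂ)) * cexp (-(t * u)) =
      (cexp (-(2 * t)) + (t - 1) * cexp (-t)) / t ^ 2 := by
  have h : ∀ u ∈ Set.uIcc (1:ℝ) 2, HasDerivAt
      (fun u : ℝ => (((u : ℂ) - 2) / t + 1 / t ^ 2) * cexp (-(t * u)))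
      ((2 - (u : ℂ)) * cexp (-(t * u))) u := by
    intro u _
    have h1 : HasDerivAt (fun u : ℝ => (u : ℂ)) 1 u := Complex.ofRealCLM.hasDerivAt
    have h2 : HasDerivAt (fun u : ℝ => (((u : ℂ) - 2) / t + 1 / t ^ 2)) (1 / t) u :=
      ((h1.sub_const 2).div_const t).add_const _
    have h3 : HasDerivAt (fun u : ℝ => cexp (-(t * u))) (cexp (-(t * u)) * (-(t * 1))) u :=
      (h1.const_mul t).neg.cexp
    refine (h2.mul h3).congr_deriv ?_
    field_simp
    ring
  rw [intervalIntegral.integral_eq_sub_of_hasDerivAt h]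
  · have e1 : cexp (-(t * ((2:ℝ):ℂ))) = cexp (-(2 * t)) := by
      congr 1; push_cast; ring
    rw [e1]
    simp
    field_simp
    ring
  · apply Continuous.intervalIntegrable
    fun_prop

private lemma base_tent (t : ℂ) :
    (∫ u in (0:ℝ)..1, (u : ℂ) * cexp (-(t * u))) +
      ∫ u in (1:ℝ)..2, (2 - (u : ℂ)) * cexp (-(t * u)) = ph t ^ 2 := by
  by_cases ht : t = 0
  · subst ht
    have e1 : (∫ u in (0:ℝ)..1, (u : ℂ) * cexp (-(0 * u))) = ((∫ u in (0:ℝ)..1, u : ℝ) : ℂ) := by
      rw [← intervalIntegral.integral_ofReal]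
      apply intervalIntegral.integral_congr
      intro u _
      simp
    have e2 : (∫ u in (1:ℝ)..2, (2 - (u : ℂ)) * cexp (-(0 * u))) =
        ((∫ u in (1:ℝ)..2, (2 - u) : ℝ) : ℂ) := by
      rw [← intervalIntegral.integral_ofReal]
      apply intervalIntegral.integral_congr
      intro u _
      simp
    rw [e1, e2]
    have e3 : (∫ u in (1:ℝ)..2, (2 - u) : ℝ) = 1 / 2 := by
      rw [intervalIntegral.integral_sub (by simp) (by simp)]
      simp
      norm_num
    rw [e3]
    simp [ph]
    norm_num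
  · rw [base_int1 ht, base_int2 ht, base_ph_closed ht]
    have e : cexp (-(2 * t)) = cexp (-t) * cexp (-t) := by
      rw [← Complex.exp_add]; congr 1; ring
    rw [e]
    field_simp
    ring

/-- the tilted tent function -/
private noncomputable def baseG (s u : ℝ) : ℂ :=
  ((max 0 (1 - |u - 1|) * Real.exp (-(s * u)) : ℝ) : ℂ)

private lemma baseG_cont (s : ℝ) : Continuous (baseG s) := by
  unfold baseG
  fun_prop

private lemma baseG_zero (s : ℝ) {u : ℝ} (hu : u ∉ Set.Ioc (0:ℝ) 2) : baseG s u = 0 := by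
  unfold baseG
  have h : max 0 (1 - |u - 1|) = 0 := by
    apply max_eq_left
    rw [Set.mem_Ioc, not_and_or] at hu
    rcases hu with hu | hu
    · push Not at hu
      rw [abs_of_nonpos (by linarith)]
      linarith
    · push Not at hu
      rw [abs_of_nonneg (by linarith)]
      linarith
  rw [h]
  simp

private lemma baseG_integrable (s : ℝ) : Integrable (baseG s) := by
  apply (baseG_cont s).integrable_of_hasCompactSupport
  apply HasCompactSupport.intro (K := Set.Icc (0:ℝ) 2) isCompact_Icc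
  intro u hu
  exact baseG_zero s fun h => hu ⟨h.1.le, h.2⟩

private lemma baseG_fourier (s ξ : ℝ) :
    𝓕 (baseG s) ξ = ph (s + (2 * π * ξ : ℝ) * I) ^ 2 := by
  rw [Real.fourier_real_eq_integral_exp_smul, ← base_tent]
  set t : ℂ := s + (2 * π * ξ : ℝ) * I with ht
  rw [← setIntegral_eq_integral_of_forall_compl_eq_zero (s := Set.Ioc (0:ℝ) 2)
    (fun u hu => by rw [baseG_zero s hu, smul_zero]),
    ← intervalIntegral.integral_of_le (by norm_num)]
  have hc : Continuous fun u : ℝ => cexp (↑(-2 * π * u * ξ) * I) • baseG s u := by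
    have := baseG_cont s
    fun_prop
  rw [← intervalIntegral.integral_add_adjacent_intervals (b := (1:ℝ))
    (hc.intervalIntegrable _ _) (hc.intervalIntegrable _ _)]
  congr 1
  · apply intervalIntegral.integral_congr
    intro u hu
    rw [Set.uIcc_of_le (by norm_num)] at hu
    simp only [smul_eq_mul, baseG]
    have h : max 0 (1 - |u - 1|) = u := by
      rw [abs_of_nonpos (by linarith [hu.2])]
      rw [max_eq_right (by linarith [hu.1])]
      ring
    rw [h]
    push_cast
    rw [mul_left_comm, ← Complex.exp_add]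
    congr 2
    rw [ht]
    push_cast
    ring
  · apply intervalIntegral.integral_congr
    intro u hu
    rw [Set.uIcc_of_le (by norm_num)] at hu
    simp only [smul_eq_mul, baseG]
    have h : max 0 (1 - |u - 1|) = 2 - u := by
      rw [abs_of_nonneg (by linarith [hu.1])]
      rw [max_eq_right (by linarith [hu.2])]
      ring
    rw [h]
    push_cast
    rw [mul_left_comm, ← Complex.exp_add]
    congr 2
    rw [ht]
    push_cast
    ring

private lemma base_ph_bound (s y : ℝ) :
    ‖ph (s + y * I) ^ 2‖ ≤ (Real.exp |s| ^ 2 + (1 + Real.exp |s|) ^ 2) * (1 + y ^ 2)⁻¹ := by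
  have h1 : ‖ph (s + y * I)‖ ≤ Real.exp |s| := by
    unfold ph
    have := intervalIntegral.norm_integral_le_of_norm_le_const (a := (0:ℝ)) (b := 1)
      (C := Real.exp |s|) (f := fun u : ℝ => cexp (-((s + y * I) * u))) ?_
    · simpa using this
    · intro u hu
      rw [Set.uIoc_of_le (by norm_num)] at hu
      rw [Complex.norm_exp]
      apply Real.exp_le_exp.2
      have : (-((s + y * I) * u) : ℂ).re = -(s * u) := by simp
      rw [this]
      calc -(s * u) ≤ |s * u| := neg_le_abs _
        _ = |s| * u := by rw [abs_mul, abs_of_pos hu.1]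
        _ ≤ |s| * 1 := by gcongr; exact hu.2
        _ = |s| := mul_one _
  have h2 : ‖ph (s + y * I)‖ * |y| ≤ 1 + Real.exp |s| := by
    by_cases ht : (s + y * I : ℂ) = 0
    · have : y = 0 := by
        have := congrArg Complex.im ht
        simpa using this
      rw [this]
      simp
      positivity
    · rw [base_ph_closed ht, norm_div, div_mul_eq_mul_div, div_le_iff₀ (norm_pos_iff.2 ht)]
      apply mul_le_mul
      · refine (norm_sub_le _ _).trans ?_
        rw [norm_one]
        gcongr
        rw [Complex.norm_exp]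
        apply Real.exp_le_exp.2
        simp
        exact neg_le_abs s
      · have := Complex.abs_im_le_norm (s + y * I : ℂ)
        simpa using this
      · exact abs_nonneg _
      · positivity
  rw [norm_pow]
  rw [le_mul_inv_iff₀ (by positivity)]
  have h3 : ‖ph (s + y * I)‖ ^ 2 ≤ Real.exp |s| ^ 2 := by gcongr
  have h4 : ‖ph (s + y * I)‖ ^ 2 * y ^ 2 ≤ (1 + Real.exp |s|) ^ 2 := by
    have := pow_le_pow_left₀ (by positivity) h2 2
    rwa [mul_pow, sq_abs] at this
  nlinarith

private lemma base_F_integrable (s : ℝ) : Integrable (𝓕 (baseG s)) := by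
  have hm : AEStronglyMeasurable (𝓕 (baseG s)) volume :=
    (VectorFourier.fourierIntegral_continuous Real.continuous_fourierChar
      (innerSL ℝ).continuous₂ (baseG_integrable s)).aestronglyMeasurable
  have hI : Integrable (fun ξ : ℝ => (Real.exp |s| ^ 2 + (1 + Real.exp |s|) ^ 2) *
      (1 + (2 * π * ξ) ^ 2)⁻¹) :=
    ((integrable_inv_one_add_sq).comp_mul_left' (by positivity)).const_mul _
  refine hI.mono' hm ?_
  filter_upwards with ξ
  rw [baseG_fourier]
  exact base_ph_bound s (2 * π * ξ)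

theorem base : BaseSt := by
  intro s x
  have h1 := (baseG_cont s).fourierInv_fourier_eq (baseG_integrable s) (base_F_integrable s)
  have h2 := congrFun h1 (x : ℝ)
  rw [Real.fourierInv_eq'] at h2
  simp_rw [baseG_fourier] at h2
  have h3 : ∀ ξ : ℝ, cexp (↑(2 * π * inner ℝ ξ (x : ℝ)) * I) • ph (s + (2 * π * ξ : ℝ) * I) ^ 2 =
      (fun y : ℝ => cexp ((x * y : ℝ) * I) * ph (s + y * I) ^ 2) ((2 * π) * ξ) := by
    intro ξ
    simp only [smul_eq_mul]
    congr 3
    have : inner ℝ ξ (x : ℝ) = (x : ℝ) * ξ := by simp [mul_comm]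
    rw [this]
    push_cast
    ring
  rw [integral_congr_ae (Filter.Eventually.of_forall h3), Measure.integral_comp_mul_left
    (fun y : ℝ => cexp ((x * y : ℝ) * I) * ph (s + y * I) ^ 2) (2 * π)] at h2
  unfold J
  have h4 : ∀ y : ℝ, cexp (((x : ℝ) : ℂ) * (s + y * I)) * ph (s + y * I) ^ 2 =
      cexp ((x * s : ℝ)) * (cexp ((x * y : ℝ) * I) * ph (s + y * I) ^ 2) := by
    intro y
    rw [← mul_assoc, ← Complex.exp_add]
    congr 2
    push_cast
    ring
  simp_rw [h4]
  rw [integral_const_mul]
  have h5 : (((1 / (2 * π) : ℝ)) : ℂ) * ∫ y : ℝ, cexp ((x * y : ℝ) * I) * ph (s + y * I) ^ 2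
      = baseG s x := by
    rw [← h2, Complex.real_smul]
    congr 2
    rw [abs_of_pos (by positivity), one_div]
  rw [mul_left_comm, h5]
  unfold baseG
  rw [← Complex.ofReal_exp, ← Complex.ofReal_mul]
  by_cases hx : x = 1
  · subst hx
    simp
    rw [← Complex.exp_add]
    simp
  · rw [if_neg hx]
    have h6 : max 0 (1 - |(x : ℝ) - 1|) = 0 := by
      apply max_eq_left
      have h7 : (1 : ℤ) ≤ |x - 1| := Int.one_le_abs (sub_ne_zero.2 hx)
      have h8 : (1 : ℝ) ≤ |(x : ℝ) - 1| := by exact_mod_cast h7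
      linarith
    rw [h6]
    simp

end Pool.Agent.H53.ATP
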