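import Pool.Agent.H53.ATP.Spec

/-!
# Bounds for the characteristic function of the tilted uniform law
-/

set_option autoImplicit false

open MeasureTheory Filter Complex
open scoped Topology Real

namespace Pool.Agent.H53.ATP

/-! ### Taylor bounds -/

private lemma chf_step (g g' : ℝ → ℂ) (B b : ℝ → ℝ) (hg : ∀ x, HasDerivAt g (g' x) x)
    (hB : ∀ x, HasDerivAt B (b x) x) (h0 : ‖g 0‖ ≤ B 0) (hb : ∀ x, 0 ≤ x → ‖g' x‖ ≤ b x)
    (x : ℝ) (hx : 0 ≤ x) : ‖g x‖ ≤ B x := by
  have h := image_norm_le_of_norm_deriv_right_le_deriv_boundary (f := g) (f' := g') (a := 0)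
    (b := x) (fun y _ => (hg y).continuousAt.continuousWithinAt)
    (fun y _ => (hg y).hasDerivWithinAt) h0 hB (fun y hy => hb y hy.1)
  exact h ⟨hx, le_refl x⟩

private lemma chf_step2 (g g' : ℝ → ℂ) (B b : ℝ → ℝ) (hg : ∀ x, HasDerivAt g (g' x) x)
    (hB : ∀ x, HasDerivAt B (b x) x) (h0 : ‖g 0‖ ≤ B 0) (hb : ∀ x, ‖g' x‖ ≤ b |x|)
    (x : ℝ) : ‖g x‖ ≤ B |x| := by
  rcases le_total 0 x with hx | hx
  · rw [abs_of_nonneg hx]
    refine chf_step g g' B b hg hB h0 (fun y hy => ?_) x hx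
    have := hb y
    rwa [abs_of_nonneg hy] at this
  · have h := chf_step (fun y => g (-y)) (fun y => -g' (-y)) B b ?_ hB (by simpa using h0) ?_
      (-x) (by linarith)
    · rw [abs_of_nonpos hx]
      simpa using h
    · intro y
      have h1 := (hg (-y)).scomp y (hasDerivAt_neg y)
      simpa [Function.comp_def] using h1
    · intro y hy
      have := hb (-y)
      rw [abs_neg, abs_of_nonneg hy] at this
      rwa [norm_neg]

private lemma chf_tay1 (x : ℝ) : ‖cexp (-(I * x)) - 1‖ ≤ |x| := by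
  have h := Real.norm_exp_I_mul_ofReal_sub_one_le (x := -x)
  simpa using h

private lemma chf_dexp (x : ℝ) :
    HasDerivAt (fun x : ℝ => cexp (-(I * x))) (-I * cexp (-(I * x))) x := by
  have h1 : HasDerivAt (fun z : ℂ => cexp (-(I * z))) (cexp (-(I * x)) * (-(I * 1))) (x : ℂ) :=
    (((hasDerivAt_id (x : ℂ)).const_mul I).neg).cexp
  have h2 := h1.comp_ofReal
  convert h2 using 1
  ring

private lemma chf_tay2 (x : ℝ) : ‖cexp (-(I * x)) - 1 + I * x‖ ≤ |x| ^ 2 / 2 := by
  have h := chf_step2 (fun x : ℝ => cexp (-(I * x)) - 1 + I * x)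
    (fun x : ℝ => -I * cexp (-(I * x)) + I * 1) (fun x => x ^ 2 / 2) (fun x => x) ?_ ?_ ?_ ?_ x
  · exact h
  · intro y
    have h1 := (chf_dexp y).sub_const 1
    have h2 : HasDerivAt (fun x : ℝ => I * (x : ℂ)) (I * 1) y :=
      (ofRealCLM.hasDerivAt (x := y)).const_mul I
    exact h1.add h2
  · intro y
    have h1 := (hasDerivAt_pow 2 y).div_const 2
    exact h1.congr_deriv (by simp)
  · simp
  · intro y
    have h1 : -I * cexp (-(I * y)) + I * 1 = -I * (cexp (-(I * y)) - 1) := by ring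
    rw [h1, norm_mul, norm_neg, norm_I, one_mul]
    exact chf_tay1 y

private lemma chf_tay3 (x : ℝ) :
    ‖cexp (-(I * x)) - 1 + I * x + (x : ℂ) ^ 2 / 2‖ ≤ |x| ^ 3 / 6 := by
  have h := chf_step2 (fun x : ℝ => cexp (-(I * x)) - 1 + I * x + (x : ℂ) ^ 2 / 2)
    (fun x : ℝ => -I * cexp (-(I * x)) + I * 1 + (x : ℂ)) (fun x => x ^ 3 / 6)
    (fun x => x ^ 2 / 2) ?_ ?_ ?_ ?_ x
  · exact h
  · intro y
    have h1 := (chf_dexp y).sub_const 1
    have h2 : HasDerivAt (fun x : ℝ => I * (x : ℂ)) (I * 1) y :=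
      (ofRealCLM.hasDerivAt (x := y)).const_mul I
    have h3 : HasDerivAt (fun x : ℝ => (x : ℂ) ^ 2 / 2) (y : ℂ) y := by
      have h4 : HasDerivAt (fun z : ℂ => z ^ 2 / 2) (((2 : ℕ) : ℂ) * (y : ℂ) ^ (2 - 1) / 2) (y : ℂ) :=
        (hasDerivAt_pow 2 (y : ℂ)).div_const 2
      have h5 := h4.comp_ofReal
      convert h5 using 1
      simp
    exact (h1.add h2).add h3
  · intro y
    have h1 := (hasDerivAt_pow 3 y).div_const 6
    refine h1.congr_deriv ?_
    push_cast
    ring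
  · simp
  · intro y
    have h1 : -I * cexp (-(I * y)) + I * 1 + (y : ℂ) =
        -I * (cexp (-(I * y)) - 1 + I * y) := by
      linear_combination (y : ℂ) * I_sq
    rw [h1, norm_mul, norm_neg, norm_I, one_mul]
    exact chf_tay2 y

/-! ### The weight -/

private lemma chf_cE (s : ℝ) : Continuous fun u : ℝ => Real.exp (-(s * u)) := by fun_prop

private lemma chf_Zlow (s : ℝ) : Real.exp (-(s / 2)) ≤ Z s := by
  have h1 : ∫ u in (0 : ℝ)..1, (1 - s * (u - 1 / 2)) = 1 := by
    have h2 : ∀ u ∈ Set.uIcc (0 : ℝ) 1,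
        HasDerivAt (fun u : ℝ => u - s * (u ^ 2 / 2 - u / 2)) (1 - s * (u - 1 / 2)) u := by
      intro u _
      have h3 : HasDerivAt (fun u : ℝ => u - s * (u ^ 2 / 2 - u / 2))
          (1 - s * (((2 : ℕ) : ℝ) * u ^ (2 - 1) / 2 - 1 / 2)) u := (hasDerivAt_id u).sub
        ((((hasDerivAt_pow 2 u).div_const 2).sub ((hasDerivAt_id u).div_const 2)).const_mul s)
      exact h3.congr_deriv (by simp)
    rw [intervalIntegral.integral_eq_sub_of_hasDerivAt h2
      (Continuous.intervalIntegrable (by fun_prop) _ _)]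
    norm_num
  have h : ∫ u in (0 : ℝ)..1, Real.exp (-(s / 2)) * (1 - s * (u - 1 / 2)) =
      Real.exp (-(s / 2)) := by
    rw [intervalIntegral.integral_const_mul, h1, mul_one]
  rw [← h]
  refine intervalIntegral.integral_mono_on (by norm_num)
    (Continuous.intervalIntegrable (by fun_prop) _ _)
    (Continuous.intervalIntegrable (by fun_prop) _ _) (fun u _ => ?_)
  have h4 := Real.add_one_le_exp (-(s * (u - 1 / 2)))
  rw [show -(s * u) = -(s / 2) + -(s * (u - 1 / 2)) by ring, Real.exp_add]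
  exact mul_le_mul_of_nonneg_left (by linarith) (Real.exp_pos _).le

private lemma chf_Zpos (s : ℝ) : 0 < Z s := (Real.exp_pos _).trans_le (chf_Zlow s)

private lemma chf_Zsq (s : ℝ) : Real.exp (-s) ≤ Z s ^ 2 := by
  have h := chf_Zlow s
  have h1 : Real.exp (-s) = Real.exp (-(s / 2)) ^ 2 := by
    rw [← Real.exp_nat_mul]
    congr 1
    push_cast
    ring
  rw [h1]
  exact pow_le_pow_left₀ (Real.exp_pos _).le h 2

private lemma chf_mu (s : ℝ) :
    (∫ u in (0 : ℝ)..1, u * Real.exp (-(s * u))) = mu s * Z s := by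
  rw [mu, div_mul_cancel₀ _ (chf_Zpos s).ne']

private lemma chf_va (s : ℝ) :
    (∫ u in (0 : ℝ)..1, (u - mu s) ^ 2 * Real.exp (-(s * u))) = va s * Z s := by
  rw [va, div_mul_cancel₀ _ (chf_Zpos s).ne']

private lemma chf_cen (s : ℝ) :
    (∫ u in (0 : ℝ)..1, (u - mu s) * Real.exp (-(s * u))) = 0 := by
  have h : ∀ u : ℝ, (u - mu s) * Real.exp (-(s * u)) =
      u * Real.exp (-(s * u)) - mu s * Real.exp (-(s * u)) := fun u => by ring
  simp_rw [h]
  rw [intervalIntegral.integral_sub (Continuous.intervalIntegrable (by fun_prop) _ _)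
    (Continuous.intervalIntegrable (by fun_prop) _ _), intervalIntegral.integral_const_mul,
    chf_mu]
  simp [Z]

private lemma chf_mu_mem (s : ℝ) : 0 ≤ mu s ∧ mu s ≤ 1 := by
  have hZ := chf_Zpos s
  constructor
  · rw [mu]
    refine div_nonneg ?_ hZ.le
    exact intervalIntegral.integral_nonneg (by norm_num)
      (fun u hu => mul_nonneg hu.1 (Real.exp_pos _).le)
  · rw [mu, div_le_one hZ, Z]
    refine intervalIntegral.integral_mono_on (by norm_num)
      (Continuous.intervalIntegrable (by fun_prop) _ _)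
      (Continuous.intervalIntegrable (by fun_prop) _ _) (fun u hu => ?_)
    nlinarith [Real.exp_pos (-(s * u)), hu.2]

private lemma chf_w (s : ℝ) (g : ℝ → ℂ) (h : ℝ → ℝ) (hh : Continuous h)
    (hle : ∀ u ∈ Set.Icc (0 : ℝ) 1, ‖g u‖ ≤ h u) :
    ‖∫ u in (0 : ℝ)..1, g u * (Real.exp (-(s * u)) : ℂ)‖ ≤
      ∫ u in (0 : ℝ)..1, h u * Real.exp (-(s * u)) := by
  refine intervalIntegral.norm_integral_le_of_norm_le (by norm_num) ?_
    (Continuous.intervalIntegrable (by fun_prop) _ _)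
  refine Filter.Eventually.of_forall (fun u hu => ?_)
  rw [norm_mul, norm_real, Real.norm_of_nonneg (Real.exp_pos _).le]
  exact mul_le_mul_of_nonneg_right (hle u ⟨hu.1.le, hu.2⟩) (Real.exp_pos _).le

private lemma chf_ph (s y : ℝ) : ph (s + y * I) =
    ∫ u in (0 : ℝ)..1, cexp (-(I * ((y * u : ℝ) : ℂ))) * (Real.exp (-(s * u)) : ℂ) := by
  rw [ph]
  refine intervalIntegral.integral_congr (fun u _ => ?_)
  show cexp (-((s + y * I) * u)) = cexp (-(I * ((y * u : ℝ) : ℂ))) * (Real.exp (-(s * u)) : ℂ)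
  rw [ofReal_exp, ← Complex.exp_add]
  congr 1
  push_cast
  ring

private lemma chf_Zc (s : ℝ) :
    (∫ u in (0 : ℝ)..1, (Real.exp (-(s * u)) : ℂ)) = (Z s : ℂ) := by
  rw [intervalIntegral.integral_ofReal, Z]

/-- From a bound for the numerator to a bound for the quotient by `Z`. -/
private lemma chf_div (s : ℝ) (w : ℂ) (b : ℝ) (h : ‖w‖ ≤ b * Z s) : ‖w / (Z s : ℂ)‖ ≤ b := by
  rw [norm_div, norm_real, Real.norm_of_nonneg (chf_Zpos s).le, div_le_iff₀ (chf_Zpos s)]
  exact h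

private lemma chf_2 (s y : ℝ) : ‖psi s y‖ ≤ 1 := by
  rw [psi]
  refine chf_div s _ 1 ?_
  rw [chf_ph]
  have h := chf_w s (fun u => cexp (-(I * ((y * u : ℝ) : ℂ)))) (fun _ => 1) continuous_const ?_
  · simpa [Z] using h
  · intro u _
    have : -(I * ((y * u : ℝ) : ℂ)) = ((-(y * u) : ℝ) : ℂ) * I := by push_cast; ring
    rw [this, norm_exp_ofReal_mul_I]

private lemma chf_4 (s y : ℝ) : ‖psi s y - 1‖ ≤ mu s * |y| := by
  have hZ : (Z s : ℂ) ≠ 0 := by exact_mod_cast (chf_Zpos s).ne'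
  have h1 : psi s y - 1 = (∫ u in (0 : ℝ)..1,
      (cexp (-(I * ((y * u : ℝ) : ℂ))) - 1) * (Real.exp (-(s * u)) : ℂ)) / (Z s : ℂ) := by
    rw [psi, chf_ph]
    simp_rw [sub_mul, one_mul]
    rw [intervalIntegral.integral_sub (Continuous.intervalIntegrable (by fun_prop) _ _)
      (Continuous.intervalIntegrable (by fun_prop) _ _), chf_Zc, sub_div, div_self hZ]
  rw [h1]
  refine chf_div s _ _ ?_
  refine (chf_w s (fun u => cexp (-(I * ((y * u : ℝ) : ℂ))) - 1) (fun u => |y| * u)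
    (by fun_prop) ?_).trans ?_
  · intro u hu
    refine (chf_tay1 _).trans ?_
    rw [abs_mul, abs_of_nonneg hu.1]
  · simp_rw [mul_assoc]
    rw [intervalIntegral.integral_const_mul, chf_mu]
    exact le_of_eq (by ring)

private lemma chf_5 (s y : ℝ) : ‖psi s y - 1 + I * mu s * y‖ ≤ mu s * y ^ 2 := by
  have hZ : (Z s : ℂ) ≠ 0 := by exact_mod_cast (chf_Zpos s).ne'
  have hmu : (∫ u in (0 : ℝ)..1, (u : ℂ) * (Real.exp (-(s * u)) : ℂ)) = mu s * Z s := by
    have h := chf_mu s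
    rw [← ofReal_mul, ← h, ← intervalIntegral.integral_ofReal]
    refine intervalIntegral.integral_congr (fun u _ => ?_)
    simp
  have h1 : psi s y - 1 + I * mu s * y = (∫ u in (0 : ℝ)..1,
      (cexp (-(I * ((y * u : ℝ) : ℂ))) - 1 + I * ((y * u : ℝ) : ℂ)) *
        (Real.exp (-(s * u)) : ℂ)) / (Z s : ℂ) := by
    have h2 : ∀ u : ℝ, (cexp (-(I * ((y * u : ℝ) : ℂ))) - 1 + I * ((y * u : ℝ) : ℂ)) *
        (Real.exp (-(s * u)) : ℂ) = (cexp (-(I * ((y * u : ℝ) : ℂ))) * (Real.exp (-(s * u)) : ℂ)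
          - (Real.exp (-(s * u)) : ℂ)) + (I * y) * ((u : ℂ) * (Real.exp (-(s * u)) : ℂ)) := by
      intro u
      push_cast
      ring
    simp_rw [h2]
    rw [intervalIntegral.integral_add (Continuous.intervalIntegrable (by fun_prop) _ _)
      (Continuous.intervalIntegrable (by fun_prop) _ _),
      intervalIntegral.integral_sub (Continuous.intervalIntegrable (by fun_prop) _ _)
      (Continuous.intervalIntegrable (by fun_prop) _ _), intervalIntegral.integral_const_mul,
      chf_Zc, hmu, psi, ← chf_ph]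
    field_simp
  rw [h1]
  refine chf_div s _ _ ?_
  refine (chf_w s (fun u => cexp (-(I * ((y * u : ℝ) : ℂ))) - 1 + I * ((y * u : ℝ) : ℂ))
    (fun u => y ^ 2 * u) (by fun_prop) ?_).trans ?_
  · intro u hu
    refine (chf_tay2 _).trans ?_
    rw [sq_abs]
    nlinarith [mul_nonneg (sq_nonneg y) (mul_nonneg hu.1 (sub_nonneg.2 hu.2)),
      mul_nonneg (sq_nonneg y) hu.1]
  · simp_rw [mul_assoc]
    rw [intervalIntegral.integral_const_mul, chf_mu]
    exact le_of_eq (by ring)

private lemma chf_3 (s y : ℝ) :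
    ‖cexp (I * mu s * y) * psi s y - (1 - va s * y ^ 2 / 2 : ℝ)‖ ≤ va s * |y| ^ 3 / 6 := by
  have hZ : (Z s : ℂ) ≠ 0 := by exact_mod_cast (chf_Zpos s).ne'
  have hcen : (∫ u in (0 : ℝ)..1, ((u - mu s : ℝ) : ℂ) * (Real.exp (-(s * u)) : ℂ)) = 0 := by
    have h := chf_cen s
    have h0 : (∫ u in (0 : ℝ)..1, ((u - mu s : ℝ) : ℂ) * (Real.exp (-(s * u)) : ℂ)) =
        ((∫ u in (0 : ℝ)..1, (u - mu s) * Real.exp (-(s * u)) : ℝ) : ℂ) := by
      rw [← intervalIntegral.integral_ofReal]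
      refine intervalIntegral.integral_congr (fun u _ => ?_)
      simp
    rw [h0, h, ofReal_zero]
  have hva : (∫ u in (0 : ℝ)..1, ((u - mu s : ℝ) : ℂ) ^ 2 * (Real.exp (-(s * u)) : ℂ)) =
      va s * Z s := by
    have h := chf_va s
    rw [← ofReal_mul, ← h, ← intervalIntegral.integral_ofReal]
    refine intervalIntegral.integral_congr (fun u _ => ?_)
    simp
  have hmain : cexp (I * mu s * y) * ph (s + y * I) = ∫ u in (0 : ℝ)..1,
      cexp (-(I * ((y * (u - mu s) : ℝ) : ℂ))) * (Real.exp (-(s * u)) : ℂ) := by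
    rw [chf_ph, ← intervalIntegral.integral_const_mul]
    refine intervalIntegral.integral_congr (fun u _ => ?_)
    show cexp (I * mu s * y) * (cexp (-(I * ((y * u : ℝ) : ℂ))) * (Real.exp (-(s * u)) : ℂ)) =
      cexp (-(I * ((y * (u - mu s) : ℝ) : ℂ))) * (Real.exp (-(s * u)) : ℂ)
    rw [← mul_assoc, ← Complex.exp_add]
    congr 2
    push_cast
    ring
  have h1 : cexp (I * mu s * y) * psi s y - (1 - va s * y ^ 2 / 2 : ℝ) = (∫ u in (0 : ℝ)..1,
      (cexp (-(I * ((y * (u - mu s) : ℝ) : ℂ))) - 1 + I * ((y * (u - mu s) : ℝ) : ℂ)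
        + ((y * (u - mu s) : ℝ) : ℂ) ^ 2 / 2) * (Real.exp (-(s * u)) : ℂ)) / (Z s : ℂ) := by
    have h2 : ∀ u : ℝ, (cexp (-(I * ((y * (u - mu s) : ℝ) : ℂ))) - 1
        + I * ((y * (u - mu s) : ℝ) : ℂ) + ((y * (u - mu s) : ℝ) : ℂ) ^ 2 / 2) *
          (Real.exp (-(s * u)) : ℂ) =
        ((cexp (-(I * ((y * (u - mu s) : ℝ) : ℂ))) * (Real.exp (-(s * u)) : ℂ)
          - (Real.exp (-(s * u)) : ℂ))
          + (I * y) * (((u - mu s : ℝ) : ℂ) * (Real.exp (-(s * u)) : ℂ)))
          + ((y : ℂ) ^ 2 / 2) * (((u - mu s : ℝ) : ℂ) ^ 2 * (Real.exp (-(s * u)) : ℂ)) := by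
      intro u
      push_cast
      ring
    simp_rw [h2]
    rw [intervalIntegral.integral_add (Continuous.intervalIntegrable (by fun_prop) _ _)
      (Continuous.intervalIntegrable (by fun_prop) _ _),
      intervalIntegral.integral_add (Continuous.intervalIntegrable (by fun_prop) _ _)
      (Continuous.intervalIntegrable (by fun_prop) _ _),
      intervalIntegral.integral_sub (Continuous.intervalIntegrable (by fun_prop) _ _)
      (Continuous.intervalIntegrable (by fun_prop) _ _), intervalIntegral.integral_const_mul,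
      intervalIntegral.integral_const_mul, chf_Zc, hcen, hva, psi, ← hmain]
    push_cast
    field_simp
    ring
  rw [h1]
  refine chf_div s _ _ ?_
  obtain ⟨hm0, hm1⟩ := chf_mu_mem s
  refine (chf_w s (fun u => cexp (-(I * ((y * (u - mu s) : ℝ) : ℂ))) - 1
    + I * ((y * (u - mu s) : ℝ) : ℂ) + ((y * (u - mu s) : ℝ) : ℂ) ^ 2 / 2)
    (fun u => |y| ^ 3 / 6 * (u - mu s) ^ 2) (by fun_prop) ?_).trans ?_
  · intro u hu
    refine (chf_tay3 _).trans ?_
    have h3 : |u - mu s| ≤ 1 := by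
      rw [abs_le]
      constructor <;> linarith [hu.1, hu.2]
    have h4 : |u - mu s| ^ 3 ≤ (u - mu s) ^ 2 := by
      rw [← sq_abs (u - mu s), pow_succ]
      exact mul_le_of_le_one_right (sq_nonneg _) h3
    rw [abs_mul, mul_pow]
    have h5 : 0 ≤ |y| ^ 3 := by positivity
    nlinarith [mul_le_mul_of_nonneg_left h4 h5]
  · simp_rw [mul_assoc]
    rw [intervalIntegral.integral_const_mul, chf_va]
    exact le_of_eq (by ring)

/-! ### The closed form -/

private lemma chf_mul (t : ℂ) : ph t * t = 1 - cexp (-t) := by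
  rcases eq_or_ne t 0 with h | h
  · simp [h]
  · have h1 : ph t = ∫ u in (0 : ℝ)..1, cexp ((-t) * u) := by
      rw [ph]
      simp only [neg_mul]
    rw [h1, integral_exp_mul_complex (neg_ne_zero.2 h)]
    field_simp
    simp

private lemma chf_Zmul (s : ℝ) : Z s * s = 1 - Real.exp (-s) := by
  have h := chf_mul (s : ℂ)
  have h1 : ph (s : ℂ) = (Z s : ℂ) := by
    rw [ph, ← chf_Zc]
    refine intervalIntegral.integral_congr (fun u _ => ?_)
    simp
  rw [h1] at h
  exact_mod_cast h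

private lemma chf_key (s y : ℝ) :
    ‖psi s y‖ ^ 2 * (s ^ 2 + y ^ 2) ≤ s ^ 2 + 2 * (1 - Real.cos y) := by
  have hZ := chf_Zpos s
  have h1 : ‖ph (s + y * I)‖ ^ 2 * (s ^ 2 + y ^ 2) =
      1 - 2 * Real.exp (-s) * Real.cos y + Real.exp (-s) ^ 2 := by
    have h2 : ‖(s : ℂ) + y * I‖ ^ 2 = s ^ 2 + y ^ 2 := by
      rw [← normSq_eq_norm_sq, normSq_add_mul_I]
    have h3 : ‖(1 : ℂ) - cexp (-(s + y * I))‖ ^ 2 =
        1 - 2 * Real.exp (-s) * Real.cos y + Real.exp (-s) ^ 2 := by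
      have h4 : (1 : ℂ) - cexp (-(s + y * I)) =
          ((1 - Real.exp (-s) * Real.cos y : ℝ) : ℂ) + ((Real.exp (-s) * Real.sin y : ℝ) : ℂ) * I := by
        have h5 : -((s : ℂ) + y * I) = ((-s : ℝ) : ℂ) + ((-y : ℝ) : ℂ) * I := by
          push_cast
          ring
        rw [h5, Complex.exp_add, exp_mul_I, ← ofReal_cos, ← ofReal_sin, ← ofReal_exp,
          Real.cos_neg, Real.sin_neg]
        push_cast
        ring
      rw [h4, ← normSq_eq_norm_sq, normSq_add_mul_I]
      nlinarith [Real.sin_sq_add_cos_sq y]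
    rw [← h2, ← mul_pow, ← norm_mul, chf_mul, h3]
  have h2 : ‖psi s y‖ ^ 2 = ‖ph (s + y * I)‖ ^ 2 / Z s ^ 2 := by
    rw [psi, norm_div, norm_real, Real.norm_of_nonneg hZ.le, div_pow]
  rw [h2, div_mul_eq_mul_div, h1, div_le_iff₀ (by positivity)]
  have h3 := chf_Zmul s
  have h4 := chf_Zsq s
  have h5 : 0 ≤ 1 - Real.cos y := by linarith [Real.cos_le_one y]
  have h6 : s ^ 2 * Z s ^ 2 = (1 - Real.exp (-s)) ^ 2 := by
    rw [← h3]
    ring
  nlinarith [mul_le_mul_of_nonneg_right h4 h5]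

private lemma chf_cos (y : ℝ) (hy : 1 ≤ |y|) : 2 * (1 - Real.cos y) ≤ (1 - 1 / 20) * y ^ 2 := by
  have hx : Real.cos y = 1 - 2 * Real.sin (|y| / 2) ^ 2 := by
    have h1 : Real.cos |y| = Real.cos (2 * (|y| / 2)) := by ring_nf
    rw [← Real.cos_abs, h1, Real.cos_two_mul]
    nlinarith [Real.sin_sq_add_cos_sq (|y| / 2)]
  rw [hx, ← sq_abs y]
  set x := |y| / 2 with hxd
  have hy2 : |y| = 2 * x := by rw [hxd]; ring
  rw [hy2]
  have hx1 : 1 / 2 ≤ x := by rw [hxd]; linarith
  have hs : |Real.sin x| ≤ 97 / 100 * x := by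
    rcases le_total x 2 with h2 | h2
    · have h3 : Real.sin x = 2 * Real.sin (x / 2) * Real.cos (x / 2) := by
        rw [← Real.sin_two_mul]
        ring_nf
      have h4 : Real.cos (x / 2) ≤ Real.cos (1 / 4) :=
        Real.cos_le_cos_of_nonneg_of_le_pi (by norm_num) (by linarith [Real.pi_gt_three])
          (by linarith)
      have h5 : Real.cos (1 / 4) ≤ 97 / 100 := by
        have h6 := Real.cos_bound (x := 1 / 4) (by rw [abs_le]; constructor <;> norm_num)
        have h7 := (abs_le.1 h6).2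
        have h8 : |(1 / 4 : ℝ)| = 1 / 4 := abs_of_pos (by norm_num)
        rw [h8] at h7
        norm_num at h7 ⊢
        linarith
      have h6 : 0 ≤ Real.cos (x / 2) := by
        refine Real.cos_nonneg_of_mem_Icc ⟨?_, ?_⟩ <;> linarith [Real.pi_gt_three]
      have h7 : |Real.sin (x / 2)| ≤ x / 2 := by
        have := Real.abs_sin_le_abs (x := x / 2)
        rwa [abs_of_nonneg (by linarith : (0 : ℝ) ≤ x / 2)] at this
      rw [h3, abs_mul, abs_mul, abs_of_nonneg h6, abs_two]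
      calc 2 * |Real.sin (x / 2)| * Real.cos (x / 2) ≤ 2 * (x / 2) * (97 / 100) := by
            refine mul_le_mul (by linarith) (h4.trans h5) h6 (by linarith)
        _ = 97 / 100 * x := by ring
    · have := Real.abs_sin_le_one x
      linarith
  have h9 : Real.sin x ^ 2 ≤ (97 / 100 * x) ^ 2 := by
    rw [← sq_abs (Real.sin x)]
    exact pow_le_pow_left₀ (abs_nonneg _) hs 2
  nlinarith [sq_nonneg x]

/-- **Bounds for the characteristic function.** -/
theorem chf : ChfSt := by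
  refine ⟨?_, chf_2, chf_3, chf_4, chf_5, fun s y => ?_, ⟨1 / 20, by norm_num, by norm_num,
    fun s y hy => ?_⟩⟩
  · unfold psi
    refine Continuous.div ?_ ?_ (fun p => by exact_mod_cast (chf_Zpos p.1).ne')
    · unfold ph
      refine intervalIntegral.continuous_parametric_intervalIntegral_of_continuous' ?_ 0 1
      fun_prop
    · refine continuous_ofReal.comp ?_
      unfold Z
      refine intervalIntegral.continuous_parametric_intervalIntegral_of_continuous' ?_ 0 1
      fun_prop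
  · have h := chf_key s y
    linarith [Real.neg_one_le_cos y]
  · have h := chf_key s y
    have h1 := chf_cos y hy
    have h2 : 0 < s ^ 2 + y ^ 2 := by
      have : 0 < y ^ 2 := by
        rw [← sq_abs]
        have : 0 < |y| := by linarith
        positivity
      positivity
    have h3 : 1 - 1 / 20 * y ^ 2 / (s ^ 2 + y ^ 2) =
        (s ^ 2 + (1 - 1 / 20) * y ^ 2) / (s ^ 2 + y ^ 2) := by
      field_simp
      ring
    rw [h3, le_div_iff₀ h2]
    linarith

end Pool.Agent.H53.ATP
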