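import Pool.Agent.H53.ATP.Spec

/-!
# Part DET: binomial row and column operations
-/

set_option autoImplicit false

open MeasureTheory Filter Complex
open scoped Topology Real

namespace Pool.Agent.H53.ATP

theorem det_Z_pos (s : ℝ) : 0 < Z s := by
  unfold Z
  apply intervalIntegral.intervalIntegral_pos_of_pos
  · apply Continuous.intervalIntegrable
    fun_prop
  · intro u
    exact Real.exp_pos _
  · norm_num

theorem det_norm_psi_sq (hc : ChfSt) (s y : ℝ) : ‖psi s y‖ ^ 2 ≤ (s ^ 2 + 5) * (1 + y ^ 2)⁻¹ := by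
  have h1 := hc.2.1 s y
  have h2 := hc.2.2.2.2.2.1 s y
  have h3 : ‖psi s y‖ ^ 2 ≤ 1 := pow_le_one₀ (norm_nonneg _) h1
  rw [← div_eq_mul_inv, le_div_iff₀ (by positivity)]
  nlinarith [sq_nonneg ‖psi s y‖, sq_nonneg s]

theorem det_norm_psi_pow (hc : ChfSt) (s y : ℝ) (M : ℕ) (hM : 2 ≤ M) :
    ‖psi s y‖ ^ M ≤ (s ^ 2 + 5) * (1 + y ^ 2)⁻¹ := by
  have h1 := hc.2.1 s y
  exact (pow_le_pow_of_le_one (norm_nonneg _) h1 hM).trans (det_norm_psi_sq hc s y)

theorem det_norm_cexp (a y : ℝ) : ‖cexp (I * a * y)‖ = 1 := by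
  rw [Complex.norm_exp]
  simp

theorem det_integrable (hc : ChfSt) (s : ℝ) (M i j : ℕ) (hM : 2 ≤ M) :
    Integrable (fun y : ℝ => (cexp (I * mu s * y) * psi s y) ^ M * (psi s y - 1) ^ i *
      (cexp (I * y) - 1) ^ j) := by
  have hcont : Continuous fun y : ℝ => psi s y := by
    have := hc.1.comp (Continuous.prodMk_right s : Continuous fun y : ℝ => (s, y))
    exact this
  have hb : Integrable (fun y : ℝ => (2 : ℝ) ^ i * 2 ^ j * ((s ^ 2 + 5) * (1 + y ^ 2)⁻¹)) :=
    (integrable_inv_one_add_sq.const_mul _).const_mul _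
  refine hb.mono' ?_ (Filter.Eventually.of_forall fun y => ?_)
  · apply Continuous.aestronglyMeasurable
    fun_prop
  · rw [norm_mul, norm_mul, norm_pow, norm_pow, norm_pow, norm_mul, det_norm_cexp, one_mul]
    have h1 : ‖psi s y - 1‖ ≤ 2 := by
      calc ‖psi s y - 1‖ ≤ ‖psi s y‖ + ‖(1 : ℂ)‖ := norm_sub_le _ _
        _ ≤ 1 + 1 := by
          rw [norm_one]
          linarith [hc.2.1 s y]
        _ = 2 := by norm_num
    have h2 : ‖cexp (I * y) - 1‖ ≤ 2 := by
      have h3 : ‖cexp (I * y)‖ = 1 := by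
        have := det_norm_cexp 1 y
        rwa [Complex.ofReal_one, mul_one] at this
      calc ‖cexp (I * y) - 1‖ ≤ ‖cexp (I * y)‖ + ‖(1 : ℂ)‖ := norm_sub_le _ _
        _ = 2 := by rw [h3, norm_one]; norm_num
    have h3 := det_norm_psi_pow hc s y M hM
    have h4 : ‖psi s y - 1‖ ^ i ≤ 2 ^ i := pow_le_pow_left₀ (norm_nonneg _) h1 i
    have h5 : ‖cexp (I * y) - 1‖ ^ j ≤ 2 ^ j := pow_le_pow_left₀ (norm_nonneg _) h2 j
    have h6 : 0 ≤ (s ^ 2 + 5) * (1 + y ^ 2)⁻¹ := by positivity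
    calc ‖psi s y‖ ^ M * ‖psi s y - 1‖ ^ i * ‖cexp (I * y) - 1‖ ^ j
        ≤ ((s ^ 2 + 5) * (1 + y ^ 2)⁻¹) * 2 ^ i * 2 ^ j := by gcongr
      _ = 2 ^ i * 2 ^ j * ((s ^ 2 + 5) * (1 + y ^ 2)⁻¹) := by ring

/-- the integral without the binomial operations -/
noncomputable def det_G (s : ℝ) (M i j : ℕ) : ℂ :=
  ∫ y : ℝ, (cexp (I * mu s * y) * psi s y) ^ M * (psi s y) ^ i * (cexp (I * y)) ^ j

theorem det_J_eq (s : ℝ) (M i j : ℕ) :
    J s (M + i) (M * mu s + j) =
      ((1 / (2 * π) * Z s ^ (M + i) : ℝ) : ℂ) * ((Real.exp ((M * mu s + j) * s) : ℝ) : ℂ) *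
        det_G s M i j := by
  have hZ : (Z s : ℂ) ≠ 0 := by
    exact_mod_cast (det_Z_pos s).ne'
  unfold J det_G
  have h1 : ∀ y : ℝ, cexp (((M * mu s + j : ℝ) : ℂ) * (s + y * I)) * ph (s + y * I) ^ (M + i) =
      ((Z s : ℂ) ^ (M + i) * ((Real.exp ((M * mu s + j) * s) : ℝ) : ℂ)) *
        ((cexp (I * mu s * y) * psi s y) ^ M * (psi s y) ^ i * (cexp (I * y)) ^ j) := by
    intro y
    have h2 : ph (s + y * I) = (Z s : ℂ) * psi s y := by
      unfold psi
      field_simp
    have h3 : cexp (((M * mu s + j : ℝ) : ℂ) * (s + y * I)) =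
        ((Real.exp ((M * mu s + j) * s) : ℝ) : ℂ) * (cexp (I * mu s * y) ^ M * cexp (I * y) ^ j) := by
      rw [← Complex.exp_nat_mul, ← Complex.exp_nat_mul, ← Complex.exp_add, Complex.ofReal_exp,
        ← Complex.exp_add]
      congr 1
      push_cast
      ring
    rw [h2, h3, mul_pow, mul_pow, pow_add (psi s y)]
    ring
  simp_rw [h1]
  rw [integral_const_mul]
  push_cast
  ring

theorem det_G_eq (hc : ChfSt) (s : ℝ) (M i j : ℕ) (hM : 2 ≤ M) :
    det_G s M i j = ∑ a ∈ Finset.range (i + 1), ∑ b ∈ Finset.range (j + 1),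
      (i.choose a : ℂ) * H s M a b * (j.choose b : ℂ) := by
  unfold det_G H
  have h1 : ∀ y : ℝ, (cexp (I * mu s * y) * psi s y) ^ M * (psi s y) ^ i * (cexp (I * y)) ^ j =
      ∑ a ∈ Finset.range (i + 1), ∑ b ∈ Finset.range (j + 1),
        ((i.choose a : ℂ) * (j.choose b : ℂ)) * ((cexp (I * mu s * y) * psi s y) ^ M *
          (psi s y - 1) ^ a * (cexp (I * y) - 1) ^ b) := by
    intro y
    have h2 : (psi s y) ^ i = ∑ a ∈ Finset.range (i + 1), (psi s y - 1) ^ a * (i.choose a : ℂ) := by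
      have := add_pow (psi s y - 1) 1 i
      simpa using this
    have h3 : (cexp (I * y)) ^ j =
        ∑ b ∈ Finset.range (j + 1), (cexp (I * y) - 1) ^ b * (j.choose b : ℂ) := by
      have := add_pow (cexp (I * y) - 1) 1 j
      simpa using this
    rw [h2, h3, mul_assoc, Finset.sum_mul_sum, Finset.mul_sum]
    refine Finset.sum_congr rfl fun a _ => ?_
    rw [Finset.mul_sum]
    refine Finset.sum_congr rfl fun b _ => ?_
    ring
  simp_rw [h1]
  rw [integral_finsetSum]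
  · refine Finset.sum_congr rfl fun a _ => ?_
    rw [integral_finsetSum]
    · refine Finset.sum_congr rfl fun b _ => ?_
      rw [integral_const_mul]
      ring
    · intro b _
      exact (det_integrable hc s M a b hM).const_mul _
  · intro a _
    apply integrable_finsetSum
    intro b _
    exact (det_integrable hc s M a b hM).const_mul _

/-- the binomial matrix -/
noncomputable def det_P (m : ℕ) : Matrix (Fin m) (Fin m) ℂ :=
  Matrix.of fun i a => (((i : ℕ).choose (a : ℕ) : ℕ) : ℂ)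

theorem det_det_P (m : ℕ) : (det_P m).det = 1 := by
  rw [Matrix.det_of_isLowerTriangular]
  · simp [det_P]
  · intro i j hij
    have hij' : (i : ℕ) < (j : ℕ) := by
      have : OrderDual.toDual j < OrderDual.toDual i := hij
      exact_mod_cast (OrderDual.toDual_lt_toDual.mp this)
    simp [det_P, Nat.choose_eq_zero_of_lt hij']

theorem det_sum_fin (m : ℕ) (i : Fin m) (f : ℕ → ℂ) :
    ∑ a ∈ Finset.range ((i : ℕ) + 1), ((i : ℕ).choose a : ℂ) * f a =
      ∑ a : Fin m, ((i : ℕ).choose (a : ℕ) : ℂ) * f a := by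
  rw [Fin.sum_univ_eq_sum_range (fun a => (((i : ℕ).choose a : ℕ) : ℂ) * f a) m]
  apply Finset.sum_subset
  · intro a ha
    rw [Finset.mem_range] at ha ⊢
    have := i.2
    omega
  · intro a _ ha
    rw [Finset.mem_range] at ha
    rw [Nat.choose_eq_zero_of_lt (by omega)]
    simp

theorem det (hc : ChfSt) : DetSt := by
  intro m M s hM
  have h1 : (Matrix.of fun i j : Fin m => J s (M + i) (M * mu s + j)) =
      Matrix.diagonal (fun i : Fin m => ((1 / (2 * π) * Z s ^ (M + (i : ℕ)) : ℝ) : ℂ)) *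
        (det_P m * (Matrix.of fun i j : Fin m => H s M i j) * (det_P m).transpose) *
        Matrix.diagonal (fun j : Fin m => ((Real.exp ((M * mu s + (j : ℕ)) * s) : ℝ) : ℂ)) := by
    ext i j
    rw [Matrix.mul_diagonal, Matrix.diagonal_mul, Matrix.of_apply, det_J_eq, det_G_eq hc s M i j hM]
    have h2 : ∑ a ∈ Finset.range ((i : ℕ) + 1), ∑ b ∈ Finset.range ((j : ℕ) + 1),
        (((i : ℕ).choose a : ℕ) : ℂ) * H s M a b * (((j : ℕ).choose b : ℕ) : ℂ) =
        (det_P m * (Matrix.of fun i j : Fin m => H s M i j) * (det_P m).transpose) i j := by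
      have h3 : ∀ a, ∑ b ∈ Finset.range ((j : ℕ) + 1),
          (((i : ℕ).choose a : ℕ) : ℂ) * H s M a b * (((j : ℕ).choose b : ℕ) : ℂ) =
          (((i : ℕ).choose a : ℕ) : ℂ) * ∑ b : Fin m, (((j : ℕ).choose (b : ℕ) : ℕ) : ℂ) * H s M a b := by
        intro a
        rw [← det_sum_fin m j (fun b => H s M a b), Finset.mul_sum]
        refine Finset.sum_congr rfl fun b _ => ?_
        ring
      simp_rw [h3]
      rw [det_sum_fin m i (fun a => ∑ b : Fin m, (((j : ℕ).choose (b : ℕ) : ℕ) : ℂ) * H s M a b)]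
      rw [Matrix.mul_assoc, Matrix.mul_apply]
      refine Finset.sum_congr rfl fun a _ => ?_
      rw [Matrix.mul_apply]
      simp only [det_P, Matrix.of_apply, Matrix.transpose_apply]
      congr 1
      refine Finset.sum_congr rfl fun b _ => ?_
      ring
    rw [h2]
    ring
  rw [h1, Matrix.det_mul, Matrix.det_mul, Matrix.det_mul, Matrix.det_mul, Matrix.det_transpose,
    det_det_P, Matrix.det_diagonal, Matrix.det_diagonal]
  rw [one_mul, mul_one]
  have h4 : (∏ i : Fin m, ((1 / (2 * π) * Z s ^ (M + (i : ℕ)) * Real.exp ((M * mu s + (i : ℕ)) * s) : ℝ) : ℂ)) =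
      (∏ i : Fin m, ((1 / (2 * π) * Z s ^ (M + (i : ℕ)) : ℝ) : ℂ)) *
        ∏ i : Fin m, ((Real.exp ((M * mu s + (i : ℕ)) * s) : ℝ) : ℂ) := by
    rw [← Finset.prod_mul_distrib]
    refine Finset.prod_congr rfl fun i _ => ?_
    push_cast
    ring
  rw [h4]
  ring

end Pool.Agent.H53.ATP
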