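import Pool.Agent.H53.ATP.Mid

/-!
# Assembly of the theorem from its parts
-/

set_option autoImplicit false

open Filter
open scoped Topology Real

namespace Pool.Agent.H53.ATP

/-- All solid minors of order `m` far down are positive. -/
theorem sol_pos (hL : LeftSt) (hR : RightSt) (hM : MidSt) (m : ℕ) :
    ∃ N : ℕ, ∀ n, N ≤ n → ∀ k : ℕ, k ≤ n → 0 < sol m n k := by
  obtain ⟨A, N₀, h0⟩ := hM m
  obtain ⟨N₁, h1⟩ := hL m A
  obtain ⟨N₂, h2⟩ := hR m A
  refine ⟨max N₀ (max N₁ N₂), fun n hn k hk => ?_⟩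
  have hn0 : N₀ ≤ n := le_trans (le_max_left _ _) hn
  have hn1 : N₁ ≤ n := le_trans ((le_max_left _ _).trans (le_max_right _ _)) hn
  have hn2 : N₂ ≤ n := le_trans ((le_max_right _ _).trans (le_max_right _ _)) hn
  by_cases hA : (k : ℝ) ≤ A * √(n : ℝ)
  · exact h1 n hn1 k hA
  by_cases hB : ((n + 1 - k : ℕ) : ℝ) ≤ A * √(n : ℝ)
  · exact h2 n hn2 k hk hB
  · exact h0 n hn0 k hk (not_le.mp hA).le (not_le.mp hB).le

/-- The recursion determines the triangle. -/
theorem eq_eu (E : ℕ → ℕ → ℤ) (h00 : E 0 0 = 1) (h0 : ∀ k, E 0 (k + 1) = 0)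
    (hc : ∀ n, E (n + 1) 0 = E n 0)
    (hs : ∀ n k : ℕ, E (n + 1) (k + 1) =
      ((k : ℤ) + 2) * E n (k + 1) + ((n : ℤ) - (k : ℤ)) * E n k) : ∀ n k, E n k = eu n k := by
  intro n
  induction n with
  | zero =>
    intro k
    cases k with
    | zero => rw [h00]; rfl
    | succ k => rw [h0]; rfl
  | succ n ih =>
    intro k
    cases k with
    | zero => rw [hc, ih]; rfl
    | succ k => rw [hs, ih, ih]; rfl

/-- The theorem for `eu`. -/
theorem final (hF : FekSt) (hW : WorSt) (hL : LeftSt) (hR : RightSt) (hM : MidSt) (K : ℕ) :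
    ∃ N : ℕ, ∀ m, m ≤ K → ∀ f g : Fin m → ℕ, StrictMono f → StrictMono g → (∀ i, N ≤ f i) →
      0 ≤ Matrix.det (Matrix.of fun i j => eu (f i) (g j)) ∧
      ((∀ i, g i < f i) → 0 < Matrix.det (Matrix.of fun i j => eu (f i) (g j))) := by
  choose N hN using sol_pos hL hR hM
  set N' : ℕ := (Finset.range (K + 1)).sup N with hN'
  refine ⟨N' + 1, fun m hm f g hf hg hfN => ?_⟩
  have hkey := hF (fun n k => ((eu (n + 1) k : ℤ) : ℝ)) K N'
    (fun n k hnk => by
      have := hW.2.1 (n + 1) k (by omega) (by omega)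
      rw [this]; simp)
    (fun m' hm' n hn k hk => by
      have h1 : N m' ≤ n := le_trans (Finset.le_sup (f := N) (by simpa using by omega)) hn
      have := hN m' n h1 k hk
      unfold sol at this
      exact this)
    m hm (fun i => f i - 1) g
    (fun i j hij => by
      have h1 := hf hij
      have h2 := hfN i
      show f i - 1 < f j - 1
      omega)
    hg (fun i => by have := hfN i; show N' ≤ f i - 1; omega)
  have hrow : ∀ i, f i - 1 + 1 = f i := fun i => by have := hfN i; omega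
  simp only [hrow] at hkey
  have hcast : ((Matrix.det (Matrix.of fun i j => eu (f i) (g j)) : ℤ) : ℝ) =
      Matrix.det (Matrix.of fun i j => ((eu (f i) (g j) : ℤ) : ℝ)) := by
    have h3 := RingHom.map_det (Int.castRingHom ℝ) (Matrix.of fun i j => eu (f i) (g j))
    rw [show ((Matrix.det (Matrix.of fun i j => eu (f i) (g j)) : ℤ) : ℝ) =
      (Int.castRingHom ℝ) (Matrix.det (Matrix.of fun i j => eu (f i) (g j))) from rfl, h3]
    congr 1
  rw [← hcast] at hkey
  refine ⟨by exact_mod_cast hkey.1, fun hlt => ?_⟩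
  have := hkey.2 (fun i => by have := hlt i; omega)
  exact_mod_cast this

end Pool.Agent.H53.ATP
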