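import Pool.Agent.H53.ATP.Spec

/-!
Asymptotic total positivity of Euler's triangle: solid minors near the left edge.
-/

set_option autoImplicit false

open Filter Topology Finset

namespace Pool.Agent.H53.ATP

private theorem left_prod {ι : Type*} (s : Finset ι) (a b : ι → ℝ) (R δ : ℝ) (hR : 1 ≤ R)
    (ha : ∀ i ∈ s, |a i| ≤ R) (hb : ∀ i ∈ s, |b i| ≤ R) (hab : ∀ i ∈ s, |a i - b i| ≤ δ) :
    |∏ i ∈ s, a i - ∏ i ∈ s, b i| ≤ s.card * R ^ s.card * δ := by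
  classical
  induction s using Finset.induction_on with
  | empty => simp
  | insert i s hi ih =>
    have hai := ha i (mem_insert_self i s)
    have hδi := hab i (mem_insert_self i s)
    have hδ : 0 ≤ δ := (abs_nonneg _).trans hδi
    have ih' := ih (fun j hj => ha j (mem_insert_of_mem hj))
      (fun j hj => hb j (mem_insert_of_mem hj)) (fun j hj => hab j (mem_insert_of_mem hj))
    have hPb : |∏ j ∈ s, b j| ≤ R ^ s.card := by
      rw [abs_prod]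
      have h := prod_le_prod (s := s) (f := fun j => |b j|) (g := fun _ => R)
        (fun j _ => abs_nonneg _) (fun j hj => hb j (mem_insert_of_mem hj))
      rwa [prod_const] at h
    have hR0 : 0 ≤ R := by linarith
    have hRc : 0 ≤ R ^ s.card := pow_nonneg hR0 _
    rw [prod_insert hi, prod_insert hi, card_insert_of_notMem hi]
    have e : a i * ∏ j ∈ s, a j - b i * ∏ j ∈ s, b j =
        a i * (∏ j ∈ s, a j - ∏ j ∈ s, b j) + (a i - b i) * ∏ j ∈ s, b j := by ring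
    rw [e]
    have h1 : |a i * (∏ j ∈ s, a j - ∏ j ∈ s, b j)| ≤ R * (s.card * R ^ s.card * δ) := by
      rw [abs_mul]
      exact mul_le_mul hai ih' (abs_nonneg _) hR0
    have h2 : |(a i - b i) * ∏ j ∈ s, b j| ≤ δ * R ^ s.card := by
      rw [abs_mul]
      exact mul_le_mul hδi hPb (abs_nonneg _) hδ
    have h3 : δ * R ^ s.card ≤ R * (R ^ s.card * δ) := by
      have h4 : 0 ≤ R ^ s.card * δ := mul_nonneg hRc hδ
      nlinarith
    calc |a i * (∏ j ∈ s, a j - ∏ j ∈ s, b j) + (a i - b i) * ∏ j ∈ s, b j|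
        ≤ R * (s.card * R ^ s.card * δ) + δ * R ^ s.card := (abs_add_le _ _).trans (by linarith)
      _ ≤ R * (s.card * R ^ s.card * δ) + R * (R ^ s.card * δ) := by linarith
      _ = ((s.card + 1 : ℕ) : ℝ) * R ^ (s.card + 1) * δ := by push_cast; ring

private theorem left_det {m : ℕ} (B V : Matrix (Fin m) (Fin m) ℝ) (R δ : ℝ) (hR : 1 ≤ R)
    (hB : ∀ i j, |B i j| ≤ R) (hV : ∀ i j, |V i j| ≤ R) (hBV : ∀ i j, |B i j - V i j| ≤ δ) :
    |B.det - V.det| ≤ m.factorial * (m * R ^ m * δ) := by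
  rw [Matrix.det_apply', Matrix.det_apply', ← sum_sub_distrib]
  refine (abs_sum_le_sum_abs _ _).trans ?_
  have hterm : ∀ σ ∈ (univ : Finset (Equiv.Perm (Fin m))),
      |((Equiv.Perm.sign σ : ℤ) : ℝ) * ∏ i, B (σ i) i -
        ((Equiv.Perm.sign σ : ℤ) : ℝ) * ∏ i, V (σ i) i| ≤ m * R ^ m * δ := by
    intro σ _
    rw [← mul_sub, abs_mul]
    have hs : |((Equiv.Perm.sign σ : ℤ) : ℝ)| = 1 := by
      rcases Int.units_eq_one_or (Equiv.Perm.sign σ) with h | h <;> rw [h] <;> simp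
    rw [hs, one_mul]
    have h := left_prod (univ : Finset (Fin m)) (fun i => B (σ i) i) (fun i => V (σ i) i) R δ hR
      (fun i _ => hB _ _) (fun i _ => hV _ _) (fun i _ => hBV _ _)
    simpa using h
  refine (sum_le_sum hterm).trans ?_
  rw [sum_const, card_univ, Fintype.card_perm, Fintype.card_fin, nsmul_eq_mul]

private theorem left_vdm (m : ℕ) (x : ℝ) :
    1 ≤ Matrix.det (Matrix.of fun i j : Fin m => (x + (j : ℕ)) ^ (i : ℕ)) := by
  have e : (Matrix.of fun i j : Fin m => (x + ((j : ℕ) : ℝ)) ^ (i : ℕ)) =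
      (Matrix.vandermonde fun j : Fin m => x + ((j : ℕ) : ℝ)).transpose := by
    ext i j
    simp [Matrix.vandermonde]
  rw [e, Matrix.det_transpose, Matrix.det_vandermonde]
  have h : ∀ i ∈ (univ : Finset (Fin m)), (1 : ℝ) ≤ ∏ j ∈ Ioi i,
      ((x + ((j : ℕ) : ℝ)) - (x + ((i : ℕ) : ℝ))) := by
    intro i _
    have h1 : ∏ _j ∈ Ioi i, (1 : ℝ) ≤ ∏ j ∈ Ioi i,
        ((x + ((j : ℕ) : ℝ)) - (x + ((i : ℕ) : ℝ))) := by
      refine prod_le_prod (fun _ _ => zero_le_one) fun j hj => ?_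
      have hij : (i : ℕ) + 1 ≤ (j : ℕ) := Fin.lt_def.mp (mem_Ioi.mp hj)
      have hij' : ((i : ℕ) : ℝ) + 1 ≤ ((j : ℕ) : ℝ) := by exact_mod_cast hij
      linarith
    simpa using h1
  have h2 : ∏ _i : Fin m, (1 : ℝ) ≤ ∏ i : Fin m, ∏ j ∈ Ioi i,
      ((x + ((j : ℕ) : ℝ)) - (x + ((i : ℕ) : ℝ))) :=
    prod_le_prod (fun _ _ => zero_le_one) h
  simpa using h2

private theorem left_key (hW : WorSt) (m n k : ℕ) (hm : 1 ≤ m)
    (hlt : (m.factorial : ℝ) * (m * (((k : ℝ) + m) ^ m) ^ m *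
      (((n : ℝ) + m + 1) * Real.exp (-(((n : ℝ) + 1) / ((k : ℝ) + m))) * ((k : ℝ) + m) ^ m)) < 1) :
    0 < sol m n k := by
  obtain ⟨w0, -, -, -, w5, w6⟩ := hW
  have hm' : (1 : ℝ) ≤ m := by exact_mod_cast hm
  have hk0 : (0 : ℝ) ≤ k := Nat.cast_nonneg k
  have hkm : (1 : ℝ) ≤ (k : ℝ) + m := by linarith
  have hkm0 : (0 : ℝ) < (k : ℝ) + m := by linarith
  set x : ℝ := (k : ℝ) + 1 with hx
  have hxj : ∀ j : Fin m, (0 : ℝ) < x + ((j : ℕ) : ℝ) := fun j => by positivity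
  have hxjle : ∀ j : Fin m, x + ((j : ℕ) : ℝ) ≤ (k : ℝ) + m := by
    intro j
    have h1 : (j : ℕ) + 1 ≤ m := j.2
    have h2 : ((j : ℕ) : ℝ) + 1 ≤ m := by exact_mod_cast h1
    rw [hx]
    linarith
  set E : Fin m → Fin m → ℝ := fun i j => ((eu (n + i + 1) (k + j) : ℤ) : ℝ) with hE
  set B : Matrix (Fin m) (Fin m) ℝ :=
    Matrix.of fun i j => E i j / (x + ((j : ℕ) : ℝ)) ^ (n + 1) with hB
  set V : Matrix (Fin m) (Fin m) ℝ := Matrix.of fun i j => (x + ((j : ℕ) : ℝ)) ^ (i : ℕ) with hV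
  have hsol : sol m n k = (∏ j : Fin m, (x + ((j : ℕ) : ℝ)) ^ (n + 1)) * B.det := by
    rw [← Matrix.det_mul_row]
    unfold sol
    congr 1
    ext i j
    simp only [Matrix.of_apply, hB, hE]
    rw [mul_div_cancel₀]
    exact (pow_pos (hxj j) _).ne'
  have hprod : 0 < ∏ j : Fin m, (x + ((j : ℕ) : ℝ)) ^ (n + 1) :=
    prod_pos fun j _ => pow_pos (hxj j) _
  rw [hsol]
  refine mul_pos hprod ?_
  have hVle : ∀ i j, V i j ≤ ((k : ℝ) + m) ^ m := by
    intro i j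
    simp only [hV, Matrix.of_apply]
    exact (pow_le_pow_left₀ (hxj j).le (hxjle j) _).trans (pow_le_pow_right₀ hkm i.2.le)
  have hV0 : ∀ i j, 0 ≤ V i j := fun i j => by
    simp only [hV, Matrix.of_apply]
    exact pow_nonneg (hxj j).le _
  have hup : ∀ i j : Fin m, E i j ≤ (x + ((j : ℕ) : ℝ)) ^ (n + 1) * (x + ((j : ℕ) : ℝ)) ^ (i : ℕ) := by
    intro i j
    have h := w5 (n + i + 1) (k + j)
    have e : (((k + (j : ℕ) : ℕ) : ℝ) + 1) = x + ((j : ℕ) : ℝ) := by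
      rw [hx]; push_cast; ring
    rw [e] at h
    rw [← pow_add]
    have e2 : n + 1 + (i : ℕ) = n + i + 1 := by ring
    rw [e2]
    exact h
  have hlo : ∀ i j : Fin m, (x + ((j : ℕ) : ℝ)) ^ (n + 1) * (x + ((j : ℕ) : ℝ)) ^ (i : ℕ) - E i j ≤
      ((n : ℝ) + m + 1) * (((k : ℝ) + ((j : ℕ) : ℝ)) ^ (n + 1) * ((k : ℝ) + m) ^ m) := by
    intro i j
    have h := w6 (n + i + 1) (k + j)
    have e : (((k + (j : ℕ) : ℕ) : ℝ) + 1) = x + ((j : ℕ) : ℝ) := by
      rw [hx]; push_cast; ring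
    rw [e] at h
    have e3 : (x + ((j : ℕ) : ℝ)) ^ (n + 1) * (x + ((j : ℕ) : ℝ)) ^ (i : ℕ) =
        (x + ((j : ℕ) : ℝ)) ^ (n + i + 1) := by
      rw [← pow_add]; congr 1; ring
    rw [e3]
    have h1 : (((n + (i : ℕ) + 1 : ℕ) : ℝ) + 1) ≤ (n : ℝ) + m + 1 := by
      have h2 : (i : ℕ) + 1 ≤ m := i.2
      have h3 : ((i : ℕ) : ℝ) + 1 ≤ m := by exact_mod_cast h2
      push_cast
      linarith
    have hkj : (0 : ℝ) ≤ (k : ℝ) + ((j : ℕ) : ℝ) := by positivity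
    have hkj' : (k : ℝ) + ((j : ℕ) : ℝ) ≤ (k : ℝ) + m := by
      have h2 : (j : ℕ) ≤ m := j.2.le
      have h3 : ((j : ℕ) : ℝ) ≤ m := by exact_mod_cast h2
      linarith
    have h4 : ((k + (j : ℕ) : ℕ) : ℝ) ^ (n + (i : ℕ) + 1) ≤
        ((k : ℝ) + ((j : ℕ) : ℝ)) ^ (n + 1) * ((k : ℝ) + m) ^ m := by
      have e4 : ((k + (j : ℕ) : ℕ) : ℝ) ^ (n + (i : ℕ) + 1) =
          ((k : ℝ) + ((j : ℕ) : ℝ)) ^ (n + 1) * ((k : ℝ) + ((j : ℕ) : ℝ)) ^ (i : ℕ) := by
        rw [← pow_add]; push_cast; congr 1; ring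
      rw [e4]
      refine mul_le_mul_of_nonneg_left ?_ (pow_nonneg hkj _)
      exact (pow_le_pow_left₀ hkj hkj' _).trans (pow_le_pow_right₀ hkm i.2.le)
    have h5 : (0 : ℝ) ≤ ((k + (j : ℕ) : ℕ) : ℝ) ^ (n + (i : ℕ) + 1) := by positivity
    have h6 : (((n + (i : ℕ) + 1 : ℕ) : ℝ) + 1) * ((k + (j : ℕ) : ℕ) : ℝ) ^ (n + (i : ℕ) + 1) ≤
        ((n : ℝ) + m + 1) * (((k : ℝ) + ((j : ℕ) : ℝ)) ^ (n + 1) * ((k : ℝ) + m) ^ m) :=
      mul_le_mul h1 h4 h5 (by positivity)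
    linarith
  have hexp : ∀ j : Fin m, ((k : ℝ) + ((j : ℕ) : ℝ)) ^ (n + 1) ≤
      (x + ((j : ℕ) : ℝ)) ^ (n + 1) * Real.exp (-(((n : ℝ) + 1) / ((k : ℝ) + m))) := by
    intro j
    have h1 : (k : ℝ) + ((j : ℕ) : ℝ) ≤ (x + ((j : ℕ) : ℝ)) * Real.exp (-(1 / ((k : ℝ) + m))) := by
      have h2 : 1 - 1 / (x + ((j : ℕ) : ℝ)) ≤ Real.exp (-(1 / ((k : ℝ) + m))) := by
        have h3 := Real.add_one_le_exp (-(1 / (x + ((j : ℕ) : ℝ))))
        have h4 : Real.exp (-(1 / (x + ((j : ℕ) : ℝ)))) ≤ Real.exp (-(1 / ((k : ℝ) + m))) := by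
          apply Real.exp_le_exp.mpr
          apply neg_le_neg
          exact one_div_le_one_div_of_le (hxj j) (hxjle j)
        linarith
      have h5 := mul_le_mul_of_nonneg_left h2 (hxj j).le
      have h6 : (x + ((j : ℕ) : ℝ)) * (1 - 1 / (x + ((j : ℕ) : ℝ))) = (k : ℝ) + ((j : ℕ) : ℝ) := by
        rw [mul_sub, mul_one, mul_one_div_cancel (hxj j).ne', hx]
        ring
      linarith
    have h7 := pow_le_pow_left₀ (by positivity) h1 (n + 1)
    rw [mul_pow, ← Real.exp_nat_mul] at h7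
    have e : ((n + 1 : ℕ) : ℝ) * -(1 / ((k : ℝ) + m)) = -(((n : ℝ) + 1) / ((k : ℝ) + m)) := by
      push_cast; ring
    rwa [e] at h7
  have hBle : ∀ i j, B i j ≤ V i j := by
    intro i j
    simp only [hB, hV, Matrix.of_apply]
    rw [div_le_iff₀ (pow_pos (hxj j) _), mul_comm]
    exact hup i j
  have hB0 : ∀ i j, 0 ≤ B i j := by
    intro i j
    simp only [hB, hE, Matrix.of_apply]
    exact div_nonneg (by exact_mod_cast w0 _ _) (pow_nonneg (hxj j).le _)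
  have hdiff : ∀ i j, V i j - B i j ≤
      ((n : ℝ) + m + 1) * Real.exp (-(((n : ℝ) + 1) / ((k : ℝ) + m))) * ((k : ℝ) + m) ^ m := by
    intro i j
    have hp := pow_pos (hxj j) (n + 1)
    have h1 : V i j - B i j = ((x + ((j : ℕ) : ℝ)) ^ (n + 1) * (x + ((j : ℕ) : ℝ)) ^ (i : ℕ) -
        E i j) / (x + ((j : ℕ) : ℝ)) ^ (n + 1) := by
      simp only [hB, hV, Matrix.of_apply]
      rw [sub_div, mul_div_cancel_left₀ _ hp.ne']
    rw [h1, div_le_iff₀ hp]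
    refine (hlo i j).trans ?_
    have h2 := mul_le_mul_of_nonneg_left (hexp j)
      (show (0 : ℝ) ≤ ((n : ℝ) + m + 1) * ((k : ℝ) + m) ^ m by positivity)
    calc ((n : ℝ) + m + 1) * (((k : ℝ) + ((j : ℕ) : ℝ)) ^ (n + 1) * ((k : ℝ) + m) ^ m)
        = ((n : ℝ) + m + 1) * ((k : ℝ) + m) ^ m * ((k : ℝ) + ((j : ℕ) : ℝ)) ^ (n + 1) := by ring
      _ ≤ _ := h2
      _ = _ := by ring
  have hmain := left_det B V (((k : ℝ) + m) ^ m)
    (((n : ℝ) + m + 1) * Real.exp (-(((n : ℝ) + 1) / ((k : ℝ) + m))) * ((k : ℝ) + m) ^ m)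
    (one_le_pow₀ hkm)
    (fun i j => by rw [abs_of_nonneg (hB0 i j)]; exact (hBle i j).trans (hVle i j))
    (fun i j => by rw [abs_of_nonneg (hV0 i j)]; exact hVle i j)
    (fun i j => by
      rw [abs_sub_comm, abs_of_nonneg (sub_nonneg.mpr (hBle i j))]
      exact hdiff i j)
  have hv := left_vdm m x
  have h1 : |B.det - V.det| < 1 := lt_of_le_of_lt hmain hlt
  have h2 := (abs_lt.mp h1).1
  have h3 : 1 ≤ V.det := hv
  linarith

theorem left : WorSt → LeftSt := by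
  intro hW m A
  rcases Nat.eq_zero_or_pos m with rfl | hm
  · exact ⟨0, fun n _ k _ => by simp [sol]⟩
  set A' : ℝ := |A| + m with hA'
  have hm' : (1 : ℝ) ≤ m := by exact_mod_cast hm
  have hA1 : 1 ≤ A' := by
    have := abs_nonneg A
    rw [hA']; linarith
  have hA0 : 0 < A' := by linarith
  set p : ℕ := m * m + m + 2 with hp
  set C : ℝ := (m.factorial : ℝ) * (m * ((m + 2) * (A' ^ 2) ^ (m * m + m) * A' ^ 2)) with hC
  have hlim : Tendsto (fun n : ℕ => C * ((√(n : ℝ) / A') ^ p * Real.exp (-(√(n : ℝ) / A'))))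
      atTop (𝓝 (C * 0)) := by
    refine Tendsto.const_mul C ?_
    have h1 : Tendsto (fun n : ℕ => √(n : ℝ) / A') atTop atTop :=
      (Real.tendsto_sqrt_atTop.comp tendsto_natCast_atTop_atTop).atTop_div_const hA0
    exact (Real.tendsto_pow_mul_exp_neg_atTop_nhds_zero p).comp h1
  rw [mul_zero] at hlim
  obtain ⟨N0, hN0⟩ := eventually_atTop.mp (hlim.eventually (gt_mem_nhds zero_lt_one))
  refine ⟨max N0 1, fun n hn k hk => ?_⟩
  have hnN : N0 ≤ n := (le_max_left _ _).trans hn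
  have hn1 : 1 ≤ n := (le_max_right _ _).trans hn
  have hn1' : (1 : ℝ) ≤ n := by exact_mod_cast hn1
  set y : ℝ := √(n : ℝ) with hy
  have hy1 : 1 ≤ y := by rw [hy]; exact Real.one_le_sqrt.mpr hn1'
  have hyy : y * y = n := Real.mul_self_sqrt (by linarith)
  have hkm : (k : ℝ) + m ≤ A' * y := by
    have h1 : A * y ≤ |A| * y := mul_le_mul_of_nonneg_right (le_abs_self A) (by linarith)
    have h2 : (m : ℝ) ≤ m * y := by nlinarith
    rw [hA', add_mul]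
    linarith
  have hkm1 : (1 : ℝ) ≤ (k : ℝ) + m := by
    have : (0 : ℝ) ≤ k := Nat.cast_nonneg k
    linarith
  have hkm0 : (0 : ℝ) < (k : ℝ) + m := by linarith
  refine left_key hW m n k hm (lt_of_le_of_lt ?_ (hN0 n hnN))
  have hexp : Real.exp (-(((n : ℝ) + 1) / ((k : ℝ) + m))) ≤ Real.exp (-(y / A')) := by
    apply Real.exp_le_exp.mpr
    apply neg_le_neg
    rw [div_le_div_iff₀ hA0 hkm0]
    calc y * ((k : ℝ) + m) ≤ y * (A' * y) := mul_le_mul_of_nonneg_left hkm (by linarith)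
      _ = (n : ℝ) * A' := by rw [← hyy]; ring
      _ ≤ ((n : ℝ) + 1) * A' := by nlinarith
  have hn2 : (n : ℝ) + m + 1 ≤ (m + 2) * y ^ 2 := by
    have e : y ^ 2 = n := by rw [pow_two]; exact hyy
    rw [e]
    nlinarith
  have hpw : (((k : ℝ) + m) ^ m) ^ m * ((k : ℝ) + m) ^ m ≤ (A' * y) ^ (m * m + m) := by
    rw [← pow_mul, ← pow_add]
    exact pow_le_pow_left₀ hkm0.le hkm _
  have hfin : (m.factorial : ℝ) * (m * (((k : ℝ) + m) ^ m) ^ m *
      (((n : ℝ) + m + 1) * Real.exp (-(((n : ℝ) + 1) / ((k : ℝ) + m))) * ((k : ℝ) + m) ^ m)) =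
      (m.factorial : ℝ) * (m * ((((k : ℝ) + m) ^ m) ^ m * ((k : ℝ) + m) ^ m *
      (((n : ℝ) + m + 1) * Real.exp (-(((n : ℝ) + 1) / ((k : ℝ) + m)))))) := by ring
  have hrhs : C * ((y / A') ^ p * Real.exp (-(y / A'))) =
      (m.factorial : ℝ) * (m * ((A' * y) ^ (m * m + m) *
        (((m + 2) * y ^ 2) * Real.exp (-(y / A'))))) := by
    have e1 : (y / A') ^ p = (y / A') ^ (m * m + m) * (y / A') ^ 2 := by rw [hp, pow_add]
    have e2 : (A' ^ 2) ^ (m * m + m) * (y / A') ^ (m * m + m) = (A' * y) ^ (m * m + m) := by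
      rw [← mul_pow]
      congr 1
      field_simp
    have e3 : A' ^ 2 * (y / A') ^ 2 = y ^ 2 := by
      rw [← mul_pow]
      congr 1
      field_simp
    rw [hC, e1, ← e2]
    calc _ = (m.factorial : ℝ) * (m * ((A' ^ 2) ^ (m * m + m) * (y / A') ^ (m * m + m) *
          ((m + 2) * (A' ^ 2 * (y / A') ^ 2) * Real.exp (-(y / A'))))) := by ring
      _ = _ := by rw [e3]
  rw [hfin, hrhs]
  have hf0 : (0 : ℝ) ≤ m.factorial := Nat.cast_nonneg _
  have hm0 : (0 : ℝ) ≤ m := by linarith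
  refine mul_le_mul_of_nonneg_left (mul_le_mul_of_nonneg_left ?_ hm0) hf0
  refine mul_le_mul hpw ?_ (by positivity) (by positivity)
  exact mul_le_mul hn2 hexp (Real.exp_nonneg _) (by positivity)

end Pool.Agent.H53.ATP
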