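import Pool.Agent.H53.ATP.Spec

/-!
# LIM: the normalised integrals tend to Gaussian moments
-/

set_option autoImplicit false

open MeasureTheory Filter Complex
open scoped Topology Real

namespace Pool.Agent.H53.ATP

private theorem lim_pow_sub (a b : ℂ) (ha : ‖a‖ ≤ 1) (hb : ‖b‖ ≤ 1) (n : ℕ) :
    ‖a ^ n - b ^ n‖ ≤ n * ‖a - b‖ := by
  induction n with
  | zero => simp
  | succ n ih =>
    have h : a ^ (n + 1) - b ^ (n + 1) = a ^ n * (a - b) + (a ^ n - b ^ n) * b := by ring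
    rw [h]
    have h1 : ‖a ^ n * (a - b)‖ ≤ 1 * ‖a - b‖ := by
      rw [norm_mul, norm_pow]
      gcongr
      exact pow_le_one₀ (norm_nonneg _) ha
    have h2 : ‖(a ^ n - b ^ n) * b‖ ≤ (n * ‖a - b‖) * 1 := by
      rw [norm_mul]
      gcongr
    calc ‖a ^ n * (a - b) + (a ^ n - b ^ n) * b‖
        ≤ ‖a ^ n * (a - b)‖ + ‖(a ^ n - b ^ n) * b‖ := norm_add_le _ _
      _ ≤ 1 * ‖a - b‖ + (n * ‖a - b‖) * 1 := add_le_add h1 h2
      _ = ((n + 1 : ℕ) : ℝ) * ‖a - b‖ := by push_cast; ring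

/-- the rescaled integrand -/
private noncomputable def lf (s : ℝ) (M i j : ℕ) (t v : ℝ) : ℂ :=
  (cexp (I * mu s * (v / t : ℝ)) * psi s (v / t)) ^ M *
    ((t / mu s : ℝ) * (psi s (v / t) - 1)) ^ i * ((t : ℂ) * (cexp (I * (v / t : ℝ)) - 1)) ^ j

private theorem lim_scale (s : ℝ) (M i j : ℕ) (t : ℝ) (ht : 0 < t) :
    ((t ^ (i + j + 1) / mu s ^ i : ℝ) : ℂ) * H s M i j = ∫ v : ℝ, lf s M i j t v := by
  have h1 : ∀ v : ℝ, lf s M i j t v = ((t ^ (i + j) / mu s ^ i : ℝ) : ℂ) *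
      ((fun y : ℝ => (cexp (I * mu s * y) * psi s y) ^ M * (psi s y - 1) ^ i *
        (cexp (I * y) - 1) ^ j) (v / t)) := by
    intro v
    simp only [lf]
    rw [mul_pow ((t / mu s : ℝ) : ℂ), mul_pow (t : ℂ)]
    push_cast
    rw [div_pow]
    ring
  have h2 := Measure.integral_comp_div (fun y : ℝ => (cexp (I * mu s * y) * psi s y) ^ M *
    (psi s y - 1) ^ i * (cexp (I * y) - 1) ^ j) t
  simp_rw [h1]
  rw [integral_const_mul, h2, abs_of_pos ht, real_smul, ← H]
  push_cast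
  ring

private theorem lim_norm_e (s y : ℝ) : ‖cexp (I * mu s * y)‖ = 1 := by
  have h : I * (mu s : ℂ) * (y : ℂ) = I * ((mu s * y : ℝ) : ℂ) := by push_cast; ring
  rw [h, norm_exp_I_mul_ofReal]

private theorem lim_norm_lf (T : TiltSt) (C : ChfSt) (s : ℝ) (M i j : ℕ) (t : ℝ) (ht : 0 < t)
    (v : ℝ) : ‖lf s M i j t v‖ ≤ ‖psi s (v / t)‖ ^ M * |v| ^ (i + j) := by
  have hmu := (T.2.1 s).1
  have h1 : ‖((t / mu s : ℝ) : ℂ) * (psi s (v / t) - 1)‖ ≤ |v| := by
    rw [norm_mul, norm_real, Real.norm_eq_abs, abs_of_pos (by positivity)]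
    calc t / mu s * ‖psi s (v / t) - 1‖ ≤ t / mu s * (mu s * |v / t|) := by
          gcongr
          exact C.2.2.2.1 s (v / t)
      _ = |v| := by
          rw [abs_div, abs_of_pos ht]
          field_simp
  have h2 : ‖(t : ℂ) * (cexp (I * (v / t : ℝ)) - 1)‖ ≤ |v| := by
    rw [norm_mul, norm_real, Real.norm_eq_abs, abs_of_pos ht]
    calc t * ‖cexp (I * (v / t : ℝ)) - 1‖ ≤ t * |v / t| := by
          gcongr
          exact Real.norm_exp_I_mul_ofReal_sub_one_le
      _ = |v| := by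
          rw [abs_div, abs_of_pos ht]
          field_simp
  unfold lf
  rw [norm_mul, norm_mul, norm_pow, norm_pow, norm_pow, norm_mul (cexp _) (psi s (v / t)),
    lim_norm_e, one_mul, pow_add, ← mul_assoc]
  gcongr

/-- the bound in the main region -/
private theorem lim_main (T : TiltSt) (C : ChfSt) (c : ℝ) (hc0 : 0 < c) (hc1 : c ≤ 1)
    (hc : ∀ s y : ℝ, 1 ≤ |y| → ‖psi s y‖ ^ 2 ≤ 1 - c * y ^ 2 / (s ^ 2 + y ^ 2)) (s y : ℝ)
    (hy : |y| ≤ |s| + 1) : ‖psi s y‖ ≤ Real.exp (-(c / 12 * (va s * y ^ 2))) := by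
  obtain ⟨_, _, hv0, hv1⟩ := T.2.1 s
  rcases le_total |y| 1 with h | h
  · have h3 := C.2.2.1 s y
    have hy2 : y ^ 2 ≤ 1 := by
      rw [← sq_abs]
      exact pow_le_one₀ (abs_nonneg _) h
    have hy3 : |y| ^ 3 ≤ y ^ 2 := by
      have : |y| ^ 3 = y ^ 2 * |y| := by rw [pow_succ, sq_abs]
      rw [this]
      exact mul_le_of_le_one_right (sq_nonneg _) h
    have h4 : ‖psi s y‖ ≤ 1 - va s * y ^ 2 / 3 := by
      have e1 : ‖psi s y‖ = ‖cexp (I * mu s * y) * psi s y‖ := by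
        rw [norm_mul, lim_norm_e, one_mul]
      have e2 : ‖((1 - va s * y ^ 2 / 2 : ℝ) : ℂ)‖ = 1 - va s * y ^ 2 / 2 := by
        rw [norm_real, Real.norm_eq_abs, abs_of_nonneg]
        nlinarith [sq_nonneg y, mul_le_mul hv1 hy2 (sq_nonneg y) (by norm_num)]
      calc ‖psi s y‖ = ‖(cexp (I * mu s * y) * psi s y - ((1 - va s * y ^ 2 / 2 : ℝ) : ℂ)) +
            ((1 - va s * y ^ 2 / 2 : ℝ) : ℂ)‖ := by rw [e1, sub_add_cancel]
        _ ≤ va s * |y| ^ 3 / 6 + (1 - va s * y ^ 2 / 2) := by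
            refine (norm_add_le _ _).trans ?_
            rw [e2]
            gcongr
        _ ≤ 1 - va s * y ^ 2 / 3 := by nlinarith [mul_le_mul_of_nonneg_left hy3 hv0.le]
    refine h4.trans ?_
    have h5 := Real.add_one_le_exp (-(va s * y ^ 2 / 3))
    have h6 : Real.exp (-(va s * y ^ 2 / 3)) ≤ Real.exp (-(c / 12 * (va s * y ^ 2))) := by
      apply Real.exp_le_exp.2
      have : 0 ≤ va s * y ^ 2 := by positivity
      nlinarith
    linarith
  · have h1 := hc s y h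
    have hy2 : 0 < y ^ 2 := by
      have : (1 : ℝ) ≤ |y| ^ 2 := one_le_pow₀ h
      rw [sq_abs] at this
      linarith
    have hd : 0 < s ^ 2 + y ^ 2 := by positivity
    have h2 : va s * (s ^ 2 + y ^ 2) ≤ 6 := by
      have h3 := T.2.2.2 s
      have h4 : y ^ 2 ≤ 2 * (s ^ 2 + 1) := by
        have h5 : |y| ^ 2 ≤ (|s| + 1) ^ 2 := by gcongr
        rw [sq_abs] at h5
        nlinarith [sq_abs s, sq_nonneg (|s| - 1)]
      nlinarith
    have h3 : c * (va s * y ^ 2) / 6 ≤ c * y ^ 2 / (s ^ 2 + y ^ 2) := by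
      rw [div_le_div_iff₀ (by norm_num) hd]
      have : 0 ≤ c * y ^ 2 := by positivity
      nlinarith
    have h4 : ‖psi s y‖ ^ 2 ≤ Real.exp (-(c / 12 * (va s * y ^ 2))) ^ 2 := by
      rw [← Real.exp_nat_mul]
      have h5 := Real.add_one_le_exp (-(c * (va s * y ^ 2) / 6))
      have e : ((2 : ℕ) : ℝ) * -(c / 12 * (va s * y ^ 2)) = -(c * (va s * y ^ 2) / 6) := by
        push_cast; ring
      rw [e]
      linarith
    exact le_of_sq_le_sq h4 (Real.exp_pos _).le

/-- the bound in the outer region -/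
private theorem lim_tail (C : ChfSt) (c : ℝ) (hc0 : 0 < c)
    (hc : ∀ s y : ℝ, 1 ≤ |y| → ‖psi s y‖ ^ 2 ≤ 1 - c * y ^ 2 / (s ^ 2 + y ^ 2)) (s y : ℝ)
    (hy : |s| + 1 < |y|) : ‖psi s y‖ ≤ Real.exp (-(c / 4)) ∧
      ‖psi s y‖ ^ 2 ≤ (s ^ 2 + 4) / y ^ 2 := by
  have hy1 : 1 ≤ |y| := by linarith [abs_nonneg s]
  have h1 := hc s y hy1
  have hsy : s ^ 2 ≤ y ^ 2 := by
    rw [← sq_abs s, ← sq_abs y]
    exact pow_le_pow_left₀ (abs_nonneg _) (by linarith) 2
  have hy2 : 0 < y ^ 2 := by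
    have : (1 : ℝ) ≤ |y| ^ 2 := one_le_pow₀ hy1
    rw [sq_abs] at this
    linarith
  have hd : 0 < s ^ 2 + y ^ 2 := by positivity
  constructor
  · have h3 : c / 2 ≤ c * y ^ 2 / (s ^ 2 + y ^ 2) := by
      rw [div_le_div_iff₀ (by norm_num) hd]
      nlinarith
    have h4 : ‖psi s y‖ ^ 2 ≤ Real.exp (-(c / 4)) ^ 2 := by
      rw [← Real.exp_nat_mul]
      have h5 := Real.add_one_le_exp (-(c / 2))
      have e : ((2 : ℕ) : ℝ) * -(c / 4) = -(c / 2) := by push_cast; ring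
      rw [e]
      linarith
    exact le_of_sq_le_sq h4 (Real.exp_pos _).le
  · have h6 := C.2.2.2.2.2.1 s y
    rw [le_div_iff₀ hy2]
    have : 0 ≤ ‖psi s y‖ ^ 2 * s ^ 2 := by positivity
    nlinarith

/-- powers against an exponential -/
private theorem lim_pow_exp (c : ℝ) (hc0 : 0 < c) (p M : ℕ) (hM : 2 * p ≤ M) :
    Real.exp (-(c / 4)) ^ (M - 2 * p) * (3 * (M : ℝ)) ^ p ≤
      Real.exp (c * p / 2) * (3 ^ p * (p.factorial * (4 / c) ^ p)) := by
  have h1 := Real.pow_div_factorial_le_exp (x := c * M / 4) (by positivity) p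
  have hf : (0 : ℝ) < p.factorial := by exact_mod_cast p.factorial_pos
  rw [div_le_iff₀ hf] at h1
  have h2 : (M : ℝ) ^ p ≤ (4 / c) ^ p * (Real.exp (c * M / 4) * p.factorial) := by
    have e : (M : ℝ) ^ p = (4 / c) ^ p * (c * M / 4) ^ p := by
      rw [← mul_pow]
      congr 1
      field_simp
    rw [e]
    gcongr
  have h3 : Real.exp (-(c / 4)) ^ (M - 2 * p) =
      Real.exp (c * p / 2) * Real.exp (-(c * M / 4)) := by
    rw [← Real.exp_nat_mul, ← Real.exp_add, Nat.cast_sub hM]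
    congr 1
    push_cast
    ring
  rw [h3, mul_pow]
  calc Real.exp (c * p / 2) * Real.exp (-(c * M / 4)) * (3 ^ p * (M : ℝ) ^ p)
      ≤ Real.exp (c * p / 2) * Real.exp (-(c * M / 4)) *
        (3 ^ p * ((4 / c) ^ p * (Real.exp (c * M / 4) * p.factorial))) := by gcongr
    _ = Real.exp (c * p / 2) * (3 ^ p * (p.factorial * (4 / c) ^ p)) *
        (Real.exp (-(c * M / 4)) * Real.exp (c * M / 4)) := by ring
    _ = Real.exp (c * p / 2) * (3 ^ p * (p.factorial * (4 / c) ^ p)) := by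
        rw [← Real.exp_add]
        simp

/-- the dominating function -/
private noncomputable def lb (c : ℝ) (n : ℕ) (v : ℝ) : ℝ :=
  |v| ^ n * Real.exp (-(c / 12) * v ^ 2) +
    2 * (Real.exp (c * (n + 1 : ℕ) / 2) * (3 ^ (n + 1) * ((n + 1).factorial * (4 / c) ^ (n + 1)))) *
      (1 + v ^ 2)⁻¹

private theorem lb_integrable (c : ℝ) (hc0 : 0 < c) (n : ℕ) : Integrable (lb c n) := by
  unfold lb
  apply Integrable.add
  · have h1 := (integrable_rpow_mul_exp_neg_mul_sq (b := c / 12) (by positivity) (s := n)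
      (by have : (0 : ℝ) ≤ n := n.cast_nonneg
          linarith)).norm
    refine h1.congr (Eventually.of_forall fun v => ?_)
    simp only [Real.rpow_natCast, norm_mul, norm_pow, Real.norm_eq_abs, Real.abs_exp]
  · exact integrable_inv_one_add_sq.const_mul _

private theorem lim_bound (T : TiltSt) (C : ChfSt) (c : ℝ) (hc0 : 0 < c) (hc1 : c ≤ 1)
    (hc : ∀ s y : ℝ, 1 ≤ |y| → ‖psi s y‖ ^ 2 ≤ 1 - c * y ^ 2 / (s ^ 2 + y ^ 2)) (s : ℝ)
    (M i j : ℕ) (t : ℝ) (ht : 1 ≤ t) (hM : 2 * (i + j + 1) ≤ M) (htM : t ^ 2 = M * va s) (v : ℝ) :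
    ‖lf s M i j t v‖ ≤ lb c (i + j) v := by
  have ht0 : 0 < t := by linarith
  obtain ⟨_, _, hv0, hv1⟩ := T.2.1 s
  refine (lim_norm_lf T C s M i j t ht0 v).trans ?_
  have hc0' := hc0.le
  rcases le_or_gt |v / t| (|s| + 1) with h | h
  · have h1 := lim_main T C c hc0 hc1 hc s (v / t) h
    have h2 : ‖psi s (v / t)‖ ^ M ≤ Real.exp (-(c / 12) * v ^ 2) := by
      calc ‖psi s (v / t)‖ ^ M ≤ Real.exp (-(c / 12 * (va s * (v / t) ^ 2))) ^ M := by gcongr
        _ = Real.exp (-(c / 12) * v ^ 2) := by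
            rw [← Real.exp_nat_mul]
            congr 1
            have : v ^ 2 = (M * va s) * (v / t) ^ 2 := by
              rw [← htM, div_pow]
              field_simp
            rw [this]
            ring
    unfold lb
    have h3 : ‖psi s (v / t)‖ ^ M * |v| ^ (i + j) ≤
        |v| ^ (i + j) * Real.exp (-(c / 12) * v ^ 2) := by
      rw [mul_comm]
      gcongr
    have h4 : 0 ≤ 2 * (Real.exp (c * (i + j + 1 : ℕ) / 2) *
        (3 ^ (i + j + 1) * ((i + j + 1).factorial * (4 / c) ^ (i + j + 1)))) *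
      (1 + v ^ 2)⁻¹ := by positivity
    linarith
  · obtain ⟨h1, h2⟩ := lim_tail C c hc0 hc s (v / t) h
    set p := i + j + 1 with hp
    have hv : 1 ≤ |v| := by
      rw [abs_div, abs_of_pos ht0, lt_div_iff₀ ht0] at h
      nlinarith [abs_nonneg s]
    have hv2 : 1 ≤ v ^ 2 := by
      rw [← sq_abs]
      exact one_le_pow₀ hv
    have h3 : ‖psi s (v / t)‖ ^ 2 ≤ 3 * M / v ^ 2 := by
      refine h2.trans ?_
      have e : (s ^ 2 + 4) / (v / t) ^ 2 = (s ^ 2 + 4) * t ^ 2 / v ^ 2 := by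
        rw [div_pow]
        field_simp
      rw [e]
      apply div_le_div_of_nonneg_right _ (by positivity)
      rw [htM]
      have h5 := T.2.2.2 s
      have h6 : (0 : ℝ) ≤ M := M.cast_nonneg
      have h7 : (s ^ 2 + 4) * va s ≤ 3 := by nlinarith
      nlinarith
    have h4 : ‖psi s (v / t)‖ ^ M ≤ Real.exp (-(c / 4)) ^ (M - 2 * p) * (3 * M / v ^ 2) ^ p := by
      have e : ‖psi s (v / t)‖ ^ M =
          ‖psi s (v / t)‖ ^ (M - 2 * p) * (‖psi s (v / t)‖ ^ 2) ^ p := by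
        rw [← pow_mul, ← pow_add, Nat.sub_add_cancel hM]
      rw [e]
      gcongr
    have h5 := lim_pow_exp c hc0 p M hM
    have h6 : |v| ^ (i + j) / (v ^ 2) ^ p ≤ 2 * (1 + v ^ 2)⁻¹ := by
      have e : (v ^ 2) ^ p = |v| ^ (i + j) * |v| ^ (i + j + 2) := by
        rw [← sq_abs, ← pow_mul, ← pow_add]
        congr 1
        omega
      have h7 : 0 < |v| := by linarith
      rw [e, div_mul_cancel_left₀ (by positivity)]
      have h8 : v ^ 2 ≤ |v| ^ (i + j + 2) := by
        rw [← sq_abs]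
        exact pow_le_pow_right₀ hv (by omega)
      rw [← div_eq_mul_inv, inv_eq_one_div, div_le_div_iff₀ (by positivity) (by positivity)]
      nlinarith
    have h9 : ‖psi s (v / t)‖ ^ M * |v| ^ (i + j) ≤
        (Real.exp (-(c / 4)) ^ (M - 2 * p) * (3 * M) ^ p) * (|v| ^ (i + j) / (v ^ 2) ^ p) := by
      calc ‖psi s (v / t)‖ ^ M * |v| ^ (i + j) ≤
          (Real.exp (-(c / 4)) ^ (M - 2 * p) * (3 * M / v ^ 2) ^ p) * |v| ^ (i + j) := by gcongr
        _ = _ := by rw [div_pow]; ring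
    unfold lb
    have h10 : 0 ≤ |v| ^ (i + j) * Real.exp (-(c / 12) * v ^ 2) := by positivity
    have h11 : (Real.exp (-(c / 4)) ^ (M - 2 * p) * (3 * (M : ℝ)) ^ p) *
        (|v| ^ (i + j) / (v ^ 2) ^ p) ≤
        (Real.exp (c * p / 2) * (3 ^ p * (p.factorial * (4 / c) ^ p))) * (2 * (1 + v ^ 2)⁻¹) := by
      gcongr
    calc _ ≤ _ := h9
      _ ≤ _ := h11
      _ = 2 * (Real.exp (c * p / 2) * (3 ^ p * (p.factorial * (4 / c) ^ p))) * (1 + v ^ 2)⁻¹ := by
          ring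
      _ ≤ _ := by linarith

private theorem lf_cont (C : ChfSt) (s : ℝ) (M i j : ℕ) (t : ℝ) :
    Continuous (lf s M i j t) := by
  have h0 : Continuous fun v : ℝ => ((s, v / t) : ℝ × ℝ) := by fun_prop
  have hC : Continuous (Function.uncurry psi) := C.1
  have h1 : Continuous fun v : ℝ => psi s (v / t) :=
    (hC.comp h0 : Continuous (Function.uncurry psi ∘ fun v : ℝ => ((s, v / t) : ℝ × ℝ)))
  have h2 : Continuous fun v : ℝ => cexp (I * mu s * (v / t : ℝ)) := by fun_prop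
  have h3 : Continuous fun v : ℝ => (t : ℂ) * (cexp (I * (v / t : ℝ)) - 1) := by fun_prop
  exact (((h2.mul h1).pow M).mul ((continuous_const.mul (h1.sub continuous_const)).pow i)).mul
    (h3.pow j)

/-- the pointwise limit -/
private theorem lim_point (T : TiltSt) (C : ChfSt) (s : ℕ → ℝ) (M : ℕ → ℕ)
    (hM : Tendsto M atTop atTop) (hT : Tendsto (fun l => √((M l : ℝ) * va (s l))) atTop atTop)
    (i j : ℕ) (v : ℝ) :
    Tendsto (fun l => lf (s l) (M l) i j (√((M l : ℝ) * va (s l))) v) atTop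
      (𝓝 (cexp (-(v ^ 2 / 2)) * (-(I * v)) ^ i * (I * v) ^ j)) := by
  set t : ℕ → ℝ := fun l => √((M l : ℝ) * va (s l)) with ht
  have hinv : Tendsto (fun l => (t l)⁻¹) atTop (𝓝 0) := tendsto_inv_atTop_zero.comp hT
  have hpos : ∀ᶠ l in atTop, 0 < t l := hT.eventually_gt_atTop 0
  have hsq : ∀ l, t l ^ 2 = M l * va (s l) := fun l =>
    Real.sq_sqrt (mul_nonneg (M l).cast_nonneg (T.2.1 (s l)).2.2.1.le)
  have h1 : Tendsto (fun l => (cexp (I * mu (s l) * (v / t l : ℝ)) * psi (s l) (v / t l)) ^ M l)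
      atTop (𝓝 (cexp (-(v ^ 2 / 2)))) := by
    have hb : Tendsto (fun l => (1 + (-((v : ℂ) ^ 2 / 2)) / (M l : ℂ)) ^ M l) atTop
        (𝓝 (cexp (-(v ^ 2 / 2)))) := by
      exact (Complex.tendsto_one_add_div_pow_exp (-((v : ℂ) ^ 2 / 2))).comp hM
    have hd : Tendsto (fun l => (cexp (I * mu (s l) * (v / t l : ℝ)) * psi (s l) (v / t l)) ^ M l -
        (1 + (-((v : ℂ) ^ 2 / 2)) / (M l : ℂ)) ^ M l) atTop (𝓝 0) := by
      have hz : Tendsto (fun l => |v| ^ 3 * (t l)⁻¹) atTop (𝓝 0) := by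
        simpa using hinv.const_mul (|v| ^ 3)
      refine squeeze_zero_norm' ?_ hz
      have hMv : ∀ᶠ l in atTop, v ^ 2 ≤ M l := by
        obtain ⟨n, hn⟩ := exists_nat_ge (v ^ 2)
        filter_upwards [hM.eventually_ge_atTop n] with l hl
        exact hn.trans (by exact_mod_cast hl)
      filter_upwards [hpos, hMv, hM.eventually_gt_atTop 0] with l hl hl2 hl3
      have hM0 : (0 : ℝ) < M l := by exact_mod_cast hl3
      have e1 : (1 + (-((v : ℂ) ^ 2 / 2)) / (M l : ℂ)) = ((1 - va (s l) * (v / t l) ^ 2 / 2 : ℝ) : ℂ) := by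
        have : va (s l) * (v / t l) ^ 2 = v ^ 2 / M l := by
          have hv0 := (T.2.1 (s l)).2.2.1
          rw [div_pow, hsq l]
          field_simp
        rw [this]
        push_cast
        ring
      have hvM : va (s l) * (v / t l) ^ 2 = v ^ 2 / M l := by
        have hv0 := (T.2.1 (s l)).2.2.1
        rw [div_pow, hsq l]
        field_simp
      have hb1 : ‖((1 - va (s l) * (v / t l) ^ 2 / 2 : ℝ) : ℂ)‖ ≤ 1 := by
        rw [norm_real, Real.norm_eq_abs, hvM, abs_le]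
        have h5 : v ^ 2 / M l ≤ 1 := by
          rw [div_le_one hM0]
          exact hl2
        have h6 : 0 ≤ v ^ 2 / M l := by positivity
        constructor <;> linarith
      have ha1 : ‖cexp (I * mu (s l) * (v / t l : ℝ)) * psi (s l) (v / t l)‖ ≤ 1 := by
        rw [norm_mul, lim_norm_e, one_mul]
        exact C.2.1 _ _
      rw [e1]
      refine (lim_pow_sub _ _ ha1 hb1 (M l)).trans ?_
      have h7 := C.2.2.1 (s l) (v / t l)
      calc (M l : ℝ) * ‖_‖ ≤ M l * (va (s l) * |v / t l| ^ 3 / 6) := by gcongr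
        _ = (M l * va (s l)) * |v| ^ 3 / (t l) ^ 3 / 6 := by
            rw [abs_div, abs_of_pos hl, div_pow]
            ring
        _ = |v| ^ 3 * (t l)⁻¹ / 6 := by
            rw [← hsq l]
            field_simp
        _ ≤ |v| ^ 3 * (t l)⁻¹ := by
            have : 0 ≤ |v| ^ 3 * (t l)⁻¹ := by positivity
            linarith
    have := hd.add hb
    simpa using this
  have h2 : Tendsto (fun l => ((t l / mu (s l) : ℝ) : ℂ) * (psi (s l) (v / t l) - 1)) atTop
      (𝓝 (-(I * v))) := by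
    have hd : Tendsto (fun l => ((t l / mu (s l) : ℝ) : ℂ) * (psi (s l) (v / t l) - 1) -
        (-(I * v))) atTop (𝓝 0) := by
      have hz : Tendsto (fun l => v ^ 2 * (t l)⁻¹) atTop (𝓝 0) := by
        simpa using hinv.const_mul (v ^ 2)
      refine squeeze_zero_norm' ?_ hz
      filter_upwards [hpos] with l hl
      have hmu := (T.2.1 (s l)).1
      have e : ((t l / mu (s l) : ℝ) : ℂ) * (psi (s l) (v / t l) - 1) - (-(I * v)) =
          ((t l / mu (s l) : ℝ) : ℂ) * (psi (s l) (v / t l) - 1 + I * mu (s l) * (v / t l : ℝ)) := by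
        have h3 : (t l : ℂ) ≠ 0 := by exact_mod_cast hl.ne'
        have h4 : (mu (s l) : ℂ) ≠ 0 := by exact_mod_cast hmu.ne'
        push_cast
        field_simp
        ring
      rw [e, norm_mul, norm_real, Real.norm_eq_abs, abs_of_pos (by positivity)]
      calc t l / mu (s l) * _ ≤ t l / mu (s l) * (mu (s l) * (v / t l) ^ 2) := by
            gcongr
            exact C.2.2.2.2.1 (s l) (v / t l)
        _ = v ^ 2 * (t l)⁻¹ := by
            rw [div_pow]
            field_simp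
    have := hd.add_const (-(I * (v : ℂ)))
    simpa using this
  have h3 : Tendsto (fun l => (t l : ℂ) * (cexp (I * (v / t l : ℝ)) - 1)) atTop
      (𝓝 (I * v)) := by
    have hd : Tendsto (fun l => (t l : ℂ) * (cexp (I * (v / t l : ℝ)) - 1) - I * v) atTop
        (𝓝 0) := by
      have hz : Tendsto (fun l => v ^ 2 * (t l)⁻¹) atTop (𝓝 0) := by
        simpa using hinv.const_mul (v ^ 2)
      refine squeeze_zero_norm' ?_ hz
      filter_upwards [hpos, hT.eventually_ge_atTop |v|] with l hl hl2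
      have h4 : (t l : ℂ) ≠ 0 := by exact_mod_cast hl.ne'
      have e : (t l : ℂ) * (cexp (I * (v / t l : ℝ)) - 1) - I * v =
          (t l : ℂ) * (cexp (I * (v / t l : ℝ)) - 1 - I * (v / t l : ℝ)) := by
        push_cast
        field_simp
      have hn : ‖I * ((v / t l : ℝ) : ℂ)‖ = |v| / t l := by
        rw [norm_mul, norm_I, one_mul, norm_real, Real.norm_eq_abs, abs_div, abs_of_pos hl]
      have h5 := norm_exp_sub_one_sub_id_le (x := I * ((v / t l : ℝ) : ℂ)) (by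
        rw [hn, div_le_one hl]
        exact hl2)
      rw [e, norm_mul, norm_real, Real.norm_eq_abs, abs_of_pos hl]
      calc t l * _ ≤ t l * (‖I * ((v / t l : ℝ) : ℂ)‖ ^ 2) := by gcongr
        _ = v ^ 2 * (t l)⁻¹ := by
            rw [hn, div_pow, sq_abs]
            field_simp
    have := hd.add_const (I * (v : ℂ))
    simpa using this
  exact (h1.mul (h2.pow i)).mul (h3.pow j)

theorem lim : TiltSt → ChfSt → LimSt := by
  intro T C s M hM hT2 i j
  obtain ⟨c, hc0, hc1, hc⟩ := C.2.2.2.2.2.2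
  have hT : Tendsto (fun l => √((M l : ℝ) * va (s l))) atTop atTop :=
    Real.tendsto_sqrt_atTop.comp hT2
  have key : Tendsto (fun l => ∫ v : ℝ, lf (s l) (M l) i j (√((M l : ℝ) * va (s l))) v) atTop
      (𝓝 (∫ v : ℝ, cexp (-(v ^ 2 / 2)) * (-(I * v)) ^ i * (I * v) ^ j)) := by
    refine tendsto_integral_filter_of_dominated_convergence (lb c (i + j)) ?_ ?_
      (lb_integrable c hc0 (i + j)) ?_
    · exact Eventually.of_forall fun l => (lf_cont C _ _ _ _ _).aestronglyMeasurable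
    · filter_upwards [hT.eventually_ge_atTop 1, hM.eventually_ge_atTop (2 * (i + j + 1))]
        with l hl1 hl2
      refine Eventually.of_forall fun v => ?_
      refine lim_bound T C c hc0 hc1 hc (s l) (M l) i j _ hl1 hl2 ?_ v
      exact Real.sq_sqrt (mul_nonneg (M l).cast_nonneg (T.2.1 (s l)).2.2.1.le)
    · exact Eventually.of_forall fun v => lim_point T C s M hM hT i j v
  have hlim : (∫ v : ℝ, cexp (-(v ^ 2 / 2)) * (-(I * v)) ^ i * (I * v) ^ j) =
      (-I) ^ i * I ^ j * (∫ v : ℝ, v ^ (i + j) * Real.exp (-(v ^ 2 / 2)) : ℝ) := by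
    rw [← integral_complex_ofReal, ← integral_const_mul]
    congr 1
    funext v
    push_cast
    rw [show (-(I * (v : ℂ))) = (-I) * v by ring, mul_pow, mul_pow, pow_add]
    ring
  rw [hlim] at key
  refine key.congr' ?_
  filter_upwards [hT.eventually_gt_atTop 0] with l hl
  exact (lim_scale (s l) (M l) i j _ hl).symm

end Pool.Agent.H53.ATP
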