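import Pool.Agent.H53.ATP.Spec2

/-!
# MID: assembly of the middle range
-/

set_option autoImplicit false

open MeasureTheory Filter Complex
open scoped Topology Real

namespace Pool.Agent.H53.ATP

/-- The factor between `det H` and the normalised determinant is positive. -/
theorem mid_det_scale (m : ℕ) (r c : Fin m → ℝ) (X : Fin m → Fin m → ℂ) :
    Matrix.det (Matrix.of fun i j : Fin m => ((r i * c j : ℝ) : ℂ) * X i j) =
      ((∏ i, (r i * c i) : ℝ) : ℂ) * Matrix.det (Matrix.of fun i j : Fin m => X i j) := by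
  have h1 : (Matrix.of fun i j : Fin m => ((r i * c j : ℝ) : ℂ) * X i j) =
      Matrix.of fun i j : Fin m => (r i : ℂ) * (Matrix.of fun i j : Fin m => (c j : ℂ) *
        (Matrix.of fun i j : Fin m => X i j) i j) i j := by
    ext i j
    simp only [Matrix.of_apply]
    push_cast
    ring
  rw [h1, Matrix.det_mul_column, Matrix.det_mul_row]
  push_cast
  rw [Finset.prod_mul_distrib]
  ring

theorem mid (ht : TiltSt) (hl : LimSt) (hd : DetSt) (hh : HanSt) (hr : RepSt) : MidSt := by
  intro m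
  by_contra hcon
  push Not at hcon
  have hcon' : ∀ l : ℕ, ∃ n : ℕ, l ≤ n ∧ 1 ≤ n ∧ ∃ k : ℕ, k ≤ n ∧ (l : ℝ) * √(n : ℝ) ≤ (k : ℝ) ∧
      (l : ℝ) * √(n : ℝ) ≤ ((n + 1 - k : ℕ) : ℝ) ∧ sol m n k ≤ 0 := by
    intro l
    obtain ⟨n, hn, k, hk, h1, h2, h3⟩ := hcon (l : ℝ) (l + 1)
    exact ⟨n, by omega, by omega, k, hk, h1, h2, h3⟩
  choose n hn hn1 k hk h1 h2 h3 using hcon'
  set M : ℕ → ℕ := fun l => n l + 2 with hM
  set p : ℕ → ℝ := fun l => ((k l : ℝ) + 1) / ((n l : ℝ) + 2) with hp
  have hp0 : ∀ l, 0 < p l := fun l => by rw [hp]; positivity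
  have hp1 : ∀ l, p l < 1 := by
    intro l
    have hkn : (k l : ℝ) ≤ n l := by exact_mod_cast hk l
    rw [hp]
    rw [div_lt_one (by positivity)]
    linarith
  have hex : ∀ l, ∃ s : ℝ, mu s = p l := fun l => ht.1 (p l) (hp0 l) (hp1 l)
  choose s hs using hex
  have hMt : Tendsto M atTop atTop := by
    refine tendsto_atTop_mono (fun l => ?_) tendsto_id
    have := hn l
    simp only [id, hM]
    omega
  have hMp : ∀ l, (M l : ℝ) * p l = (k l : ℝ) + 1 := by
    intro l
    simp only [hM, hp]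
    push_cast
    field_simp
  have hva : ∀ l : ℕ, ((l : ℝ) ^ 2) / 9 ≤ (M l : ℝ) * va (s l) := by
    intro l
    have hmin := ht.2.2.1 (s l)
    rw [hs l] at hmin
    have hMpos : (0 : ℝ) < M l := by simp only [hM]; positivity
    have hnl : (1 : ℝ) ≤ n l := by exact_mod_cast hn1 l
    have hsq : 0 ≤ √(n l : ℝ) := Real.sqrt_nonneg _
    have hsq2 : √(n l : ℝ) ^ 2 = n l := Real.sq_sqrt (by positivity)
    have hkn : k l ≤ n l := hk l
    have hcast : ((n l + 1 - k l : ℕ) : ℝ) = (n l : ℝ) + 1 - k l := by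
      rw [Nat.cast_sub (by omega)]
      push_cast
      ring
    have hA : (l : ℝ) * √(n l : ℝ) ≤ (M l : ℝ) * p l := by
      rw [hMp]; linarith [h1 l]
    have hB : (l : ℝ) * √(n l : ℝ) ≤ (M l : ℝ) * (1 - p l) := by
      rw [mul_sub, hMp, mul_one]
      have := h2 l
      rw [hcast] at this
      simp only [hM]
      push_cast
      linarith
    have hC : (l : ℝ) * √(n l : ℝ) ≤ (M l : ℝ) * min (p l) (1 - p l) := by
      rw [mul_min_of_nonneg _ _ hMpos.le]
      exact le_min hA hB
    have hD : ((l : ℝ) * √(n l : ℝ)) ^ 2 ≤ ((M l : ℝ) * min (p l) (1 - p l)) ^ 2 :=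
      pow_le_pow_left₀ (by positivity) hC 2
    have hM3 : (M l : ℝ) ≤ 3 * n l := by
      simp only [hM]
      push_cast
      linarith
    have hE : (l : ℝ) ^ 2 * n l ≤ (M l : ℝ) ^ 2 * (3 * va (s l)) := by
      calc (l : ℝ) ^ 2 * n l = ((l : ℝ) * √(n l : ℝ)) ^ 2 := by rw [mul_pow, hsq2]
        _ ≤ ((M l : ℝ) * min (p l) (1 - p l)) ^ 2 := hD
        _ = (M l : ℝ) ^ 2 * (min (p l) (1 - p l)) ^ 2 := by ring
        _ ≤ (M l : ℝ) ^ 2 * (3 * va (s l)) := by gcongr
    have hF : (l : ℝ) ^ 2 * (M l : ℝ) ≤ 9 * ((M l : ℝ) * va (s l)) * (M l : ℝ) := by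
      calc (l : ℝ) ^ 2 * (M l : ℝ) ≤ (l : ℝ) ^ 2 * (3 * n l) := by gcongr
        _ = 3 * ((l : ℝ) ^ 2 * n l) := by ring
        _ ≤ 3 * ((M l : ℝ) ^ 2 * (3 * va (s l))) := by linarith
        _ = 9 * ((M l : ℝ) * va (s l)) * (M l : ℝ) := by ring
    have hG := le_of_mul_le_mul_right hF hMpos
    linarith
  have hvt : Tendsto (fun l => (M l : ℝ) * va (s l)) atTop atTop := by
    refine tendsto_atTop_mono hva ?_
    have h9 : Tendsto (fun l : ℕ => (l : ℝ) ^ 2) atTop atTop :=
      (tendsto_pow_atTop (by norm_num)).comp tendsto_natCast_atTop_atTop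
    exact h9.atTop_div_const (by norm_num)
  -- limits of the entries
  set X : ℕ → Fin m → Fin m → ℂ := fun l i j => (nf (s l) (M l) i j : ℂ) * H (s l) (M l) i j with hX
  set h : Fin m → Fin m → ℝ := fun i j =>
    (∫ v : ℝ, v ^ ((i : ℕ) + (j : ℕ)) * Real.exp (-(v ^ 2 / 2)) : ℝ) with hhdef
  have hlim : Tendsto (fun l => Matrix.det (Matrix.of fun i j : Fin m => X l i j)) atTop
      (𝓝 (Matrix.det (Matrix.of fun i j : Fin m => (-I) ^ (i : ℕ) * I ^ (j : ℕ) * (h i j : ℂ)))) := by
    have hcont : Continuous fun A : Matrix (Fin m) (Fin m) ℂ => A.det := continuous_id.matrix_det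
    refine (hcont.tendsto _).comp ?_
    refine tendsto_pi_nhds.mpr (fun i => ?_)
    refine tendsto_pi_nhds.mpr (fun j => ?_)
    exact hl s M hMt hvt i j
  have hdlim : Matrix.det (Matrix.of fun i j : Fin m =>
      (-I) ^ (i : ℕ) * I ^ (j : ℕ) * (h i j : ℂ)) =
      ((Matrix.det (Matrix.of fun i j : Fin m => h i j) : ℝ) : ℂ) := by
    have e1 : (Matrix.of fun i j : Fin m => (-I) ^ (i : ℕ) * I ^ (j : ℕ) * (h i j : ℂ)) =
        Matrix.of fun i j : Fin m => (-I) ^ (i : ℕ) *
          (Matrix.of fun i j : Fin m => I ^ (j : ℕ) * (Matrix.of fun i j : Fin m => (h i j : ℂ)) i j) i j := by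
      ext i j
      simp only [Matrix.of_apply]
      ring
    rw [e1, Matrix.det_mul_column, Matrix.det_mul_row, ← mul_assoc, ← Finset.prod_mul_distrib]
    have e2 : ∀ i : Fin m, (-I) ^ (i : ℕ) * I ^ (i : ℕ) = 1 := by
      intro i
      rw [← mul_pow]
      simp
    simp only [e2, Finset.prod_const_one, one_mul]
    have e3 := RingHom.map_det Complex.ofRealHom (Matrix.of fun i j : Fin m => h i j)
    rw [show ((Matrix.det (Matrix.of fun i j : Fin m => h i j) : ℝ) : ℂ) =
      Complex.ofRealHom (Matrix.det (Matrix.of fun i j : Fin m => h i j)) from rfl, e3]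
    congr 1
  rw [hdlim] at hlim
  have hre : Tendsto (fun l => (Matrix.det (Matrix.of fun i j : Fin m => X l i j)).re) atTop
      (𝓝 (Matrix.det (Matrix.of fun i j : Fin m => h i j))) := by
    have := (Complex.continuous_re.tendsto _).comp hlim
    rw [Complex.ofReal_re] at this
    exact this
  -- each term is a positive multiple of `sol`
  have hneg : ∀ l, 1 ≤ l → (Matrix.det (Matrix.of fun i j : Fin m => X l i j)).re ≤ 0 := by
    intro l hl1
    have hmu : 0 < mu (s l) := by rw [hs]; exact hp0 l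
    have hMv : 0 < (M l : ℝ) * va (s l) := by
      have h5 := hva l
      have h6 : (0 : ℝ) < (l : ℝ) ^ 2 / 9 := by
        have : (1 : ℝ) ≤ l := by exact_mod_cast hl1
        positivity
      linarith
    set τ : ℝ := √((M l : ℝ) * va (s l)) with hτ
    have hτ0 : 0 < τ := Real.sqrt_pos.mpr hMv
    -- normalised determinant
    have e1 : Matrix.det (Matrix.of fun i j : Fin m => X l i j) =
        ((∏ i : Fin m, (τ ^ ((i : ℕ) + 1) / mu (s l) ^ (i : ℕ) * τ ^ (i : ℕ)) : ℝ) : ℂ) *
          Matrix.det (Matrix.of fun i j : Fin m => H (s l) (M l) i j) := by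
      rw [← mid_det_scale m (fun i => τ ^ ((i : ℕ) + 1) / mu (s l) ^ (i : ℕ)) (fun j => τ ^ (j : ℕ))
        (fun i j => H (s l) (M l) i j)]
      congr 1
      ext i j
      simp only [hX, Matrix.of_apply, nf]
      congr 2
      rw [← hτ]
      rw [show (i : ℕ) + (j : ℕ) + 1 = ((i : ℕ) + 1) + (j : ℕ) by ring, pow_add]
      ring
    have e2 := hd m (M l) (s l) (by simp only [hM]; omega)
    have e3 : ((sol m (n l) (k l) : ℝ) : ℂ) =
        ((∏ i : Fin m, ((n l + (i : ℕ) + 1).factorial : ℝ) : ℝ) : ℂ) *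
          Matrix.det (Matrix.of fun i j : Fin m =>
            J (s l) (M l + i) (M l * mu (s l) + j)) := by
      have f1 : ((sol m (n l) (k l) : ℝ) : ℂ) =
          Matrix.det (Matrix.of fun i j : Fin m =>
            ((eu (n l + i + 1) (k l + j) : ℤ) : ℂ)) := by
        unfold sol
        have e3 := RingHom.map_det Complex.ofRealHom (Matrix.of fun i j : Fin m =>
          ((eu (n l + i + 1) (k l + j) : ℤ) : ℝ))
        rw [show ((Matrix.det (Matrix.of fun i j : Fin m =>
          ((eu (n l + i + 1) (k l + j) : ℤ) : ℝ)) : ℝ) : ℂ) =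
          Complex.ofRealHom (Matrix.det (Matrix.of fun i j : Fin m =>
          ((eu (n l + i + 1) (k l + j) : ℤ) : ℝ))) from rfl, e3]
        congr 1
      rw [f1]
      have f2 : (Matrix.of fun i j : Fin m => ((eu (n l + i + 1) (k l + j) : ℤ) : ℂ)) =
          Matrix.of fun i j : Fin m => (((n l + (i : ℕ) + 1).factorial : ℝ) : ℂ) *
            (Matrix.of fun i j : Fin m => J (s l) (M l + i) (M l * mu (s l) + j)) i j := by
        ext i j
        simp only [Matrix.of_apply]
        rw [hr (s l) (n l + i + 1) (k l + j) (by omega)]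
        have g1 : (M l : ℝ) * mu (s l) + (j : ℕ) = ((k l + (j : ℕ) : ℕ) : ℝ) + 1 := by
          rw [hs, hMp]
          push_cast
          ring
        have g2 : n l + (i : ℕ) + 1 + 1 = M l + i := by
          simp only [hM]; ring
        rw [g1, g2]
        push_cast
        ring
      rw [f2, Matrix.det_mul_column]
      push_cast
      ring
    -- combine
    set P : ℝ := ∏ i : Fin m, (1 / (2 * π) * Z (s l) ^ (M l + (i : ℕ)) *
      Real.exp ((M l * mu (s l) + (i : ℕ)) * s l)) with hP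
    set Q : ℝ := ∏ i : Fin m, ((n l + (i : ℕ) + 1).factorial : ℝ) with hQ
    set R : ℝ := ∏ i : Fin m, (τ ^ ((i : ℕ) + 1) / mu (s l) ^ (i : ℕ) * τ ^ (i : ℕ)) with hR
    have hZ : 0 < Z (s l) := by
      unfold Z
      refine intervalIntegral.intervalIntegral_pos_of_pos_on ?_ (fun x _ => Real.exp_pos _)
        zero_lt_one
      exact (by fun_prop : Continuous fun u : ℝ => Real.exp (-(s l * u))).intervalIntegrable _ _
    have hPpos : 0 < P := Finset.prod_pos (fun i _ => by positivity)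
    have hQpos : 0 < Q := Finset.prod_pos (fun i _ => by positivity)
    have hRpos : 0 < R := Finset.prod_pos (fun i _ => by positivity)
    set D : ℂ := Matrix.det (Matrix.of fun i j : Fin m => H (s l) (M l) i j) with hD
    have e4 : ((sol m (n l) (k l) : ℝ) : ℂ) = ((Q * P : ℝ) : ℂ) * D := by
      rw [e3, e2, ← Complex.ofReal_prod, ← hP, Complex.ofReal_mul, mul_assoc]
    have e5 : D.re = sol m (n l) (k l) / (Q * P) := by
      have h7 : (((sol m (n l) (k l) : ℝ) : ℂ)).re = (Q * P) * D.re := by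
        rw [e4, Complex.re_ofReal_mul]
      rw [Complex.ofReal_re] at h7
      rw [h7]
      field_simp
    rw [e1, Complex.re_ofReal_mul, e5]
    exact mul_nonpos_of_nonneg_of_nonpos hRpos.le (div_nonpos_of_nonpos_of_nonneg (h3 l)
      (by positivity))
  have hfin : Matrix.det (Matrix.of fun i j : Fin m => h i j) ≤ 0 := by
    refine le_of_tendsto hre ?_
    filter_upwards [eventually_ge_atTop 1] with l hl1
    exact hneg l hl1
  exact absurd (hh m) (not_lt.mpr hfin)

end Pool.Agent.H53.ATP
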