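import Pool.Agent.H53.ATP.Spec

/-!
# ATP, piece REC: the recurrence of `J` (integration by parts)
-/

set_option autoImplicit false

open MeasureTheory Filter Complex
open scoped Topology Real

namespace Pool.Agent.H53.ATP

theorem rec_ph_eq : ph = dslope (fun t : ℂ => -cexp (-t)) 0 := by
  funext t
  by_cases ht : t = 0
  · subst ht
    rw [dslope_same]
    have h1 : HasDerivAt (fun t : ℂ => -cexp (-t)) (cexp (-(0 : ℂ))) 0 := by
      have h : HasDerivAt (fun t : ℂ => -cexp (-t)) (-(cexp (-(0 : ℂ)) * -1)) 0 :=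
        ((hasDerivAt_id (0 : ℂ)).neg.cexp).neg
      exact h.congr_deriv (by ring)
    rw [h1.deriv]
    simp [ph]
  · rw [dslope_of_ne _ ht, slope_def_field]
    have h1 : ph t = ∫ u in (0 : ℝ)..1, cexp (-t * u) := by
      unfold ph
      simp only [neg_mul]
    rw [h1, integral_exp_mul_complex (neg_ne_zero.2 ht)]
    simp only [ofReal_one, ofReal_zero, mul_one, mul_zero, Complex.exp_zero, neg_zero, sub_zero]
    rw [div_neg, ← neg_div]
    congr 1
    ring

theorem rec_ph_diff : Differentiable ℂ ph := by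
  rw [rec_ph_eq, ← differentiableOn_univ]
  refine (Complex.differentiableOn_dslope (f := fun t : ℂ => -cexp (-t)) univ_mem).2 ?_
  exact (differentiable_id.neg.cexp.neg).differentiableOn

theorem rec_mul_ph (t : ℂ) : t * ph t = 1 - cexp (-t) := by
  by_cases ht : t = 0
  · subst ht; simp
  · rw [rec_ph_eq, dslope_of_ne _ ht, slope_def_field, sub_zero, mul_div_cancel₀ _ ht]
    simp only [neg_zero, Complex.exp_zero]
    ring

theorem rec_mul_deriv (t : ℂ) : t * deriv ph t = cexp (-t) - ph t := by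
  have h1 : HasDerivAt (fun t : ℂ => t * ph t) (1 * ph t + t * deriv ph t) t :=
    (hasDerivAt_id t).mul (rec_ph_diff t).hasDerivAt
  have h2 : HasDerivAt (fun t : ℂ => 1 - cexp (-t)) (cexp (-t)) t := by
    have h := ((hasDerivAt_id t).neg.cexp).const_sub 1
    simpa using h
  have h3 : (fun t : ℂ => t * ph t) = fun t : ℂ => 1 - cexp (-t) := funext rec_mul_ph
  rw [h3] at h1
  have h4 := h1.unique h2
  linear_combination h4

/-- the line -/
noncomputable def recL (s y : ℝ) : ℂ := s + y * I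

theorem recL_re (s y : ℝ) : (recL s y).re = s := by simp [recL]

theorem recL_im (s y : ℝ) : (recL s y).im = y := by simp [recL]

theorem recL_cont (s : ℝ) : Continuous (recL s) := by
  unfold recL; fun_prop

theorem recL_deriv (s y : ℝ) : HasDerivAt (recL s) I y := by
  have h : HasDerivAt (fun y : ℝ => (s : ℂ) + (y : ℂ) * I) (1 * I) y :=
    ((hasDerivAt_id y).ofReal_comp.mul_const I).const_add (s : ℂ)
  rw [one_mul] at h
  exact h

theorem recL_abs (s y : ℝ) : |y| ≤ ‖recL s y‖ := by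
  have h := Complex.abs_im_le_norm (recL s y)
  rwa [recL_im] at h

theorem rec_num_le (s y : ℝ) : ‖recL s y‖ * ‖ph (recL s y)‖ ≤ 1 + Real.exp (-s) := by
  rw [← norm_mul, rec_mul_ph]
  refine (norm_sub_le _ _).trans ?_
  rw [norm_one, Complex.norm_exp, neg_re, recL_re]

theorem rec_ph_bdd (s y : ℝ) : ‖ph (recL s y)‖ ≤ Real.exp |s| := by
  have h : ‖∫ u in (0 : ℝ)..1, cexp (-(recL s y * u))‖ ≤ Real.exp |s| * |1 - 0| := by
    refine intervalIntegral.norm_integral_le_of_norm_le_const fun u hu => ?_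
    rw [Set.uIoc_of_le zero_le_one] at hu
    rw [Complex.norm_exp]
    refine Real.exp_le_exp.2 ?_
    have h1 : (-(recL s y * (u : ℂ))).re = -(s * u) := by
      rw [neg_re, re_mul_ofReal, recL_re]
    rw [h1]
    have h2 : -(s * u) ≤ |s * u| := neg_le_abs _
    have h3 : |s * u| ≤ |s| := by
      rw [abs_mul, abs_of_pos hu.1]
      exact mul_le_of_le_one_right (abs_nonneg _) hu.2
    exact h2.trans h3
  rw [sub_zero, abs_one, mul_one] at h
  exact h

theorem rec_ph_sq (s y : ℝ) : ‖ph (recL s y)‖ ^ 2 ≤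
    (Real.exp |s| ^ 2 + (1 + Real.exp (-s)) ^ 2) * (1 + y ^ 2)⁻¹ := by
  rw [← div_eq_mul_inv, le_div_iff₀ (by positivity)]
  have h1 : ‖ph (recL s y)‖ ^ 2 ≤ Real.exp |s| ^ 2 :=
    pow_le_pow_left₀ (norm_nonneg _) (rec_ph_bdd s y) 2
  have h2 : (‖recL s y‖ * ‖ph (recL s y)‖) ^ 2 ≤ (1 + Real.exp (-s)) ^ 2 :=
    pow_le_pow_left₀ (by positivity) (rec_num_le s y) 2
  have h3 : y ^ 2 ≤ ‖recL s y‖ ^ 2 := by
    rw [← sq_abs y]
    exact pow_le_pow_left₀ (abs_nonneg _) (recL_abs s y) 2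
  have h4 : ‖ph (recL s y)‖ ^ 2 * y ^ 2 ≤ ‖ph (recL s y)‖ ^ 2 * ‖recL s y‖ ^ 2 :=
    mul_le_mul_of_nonneg_left h3 (by positivity)
  nlinarith

theorem rec_exp_norm (s y x : ℝ) : ‖cexp (x * recL s y)‖ = Real.exp (x * s) := by
  rw [Complex.norm_exp, re_ofReal_mul, recL_re]

theorem rec_int (s x : ℝ) (n : ℕ) (hn : 2 ≤ n) :
    Integrable fun y : ℝ => cexp (x * recL s y) * ph (recL s y) ^ n := by
  have hc : Continuous fun y : ℝ => cexp (x * recL s y) * ph (recL s y) ^ n := by
    have h1 := recL_cont s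
    have h2 : Continuous fun y => ph (recL s y) := rec_ph_diff.continuous.comp h1
    exact (Complex.continuous_exp.comp (continuous_const.mul h1)).mul (h2.pow n)
  refine (integrable_inv_one_add_sq.const_mul (Real.exp (x * s) * Real.exp |s| ^ (n - 2) *
    (Real.exp |s| ^ 2 + (1 + Real.exp (-s)) ^ 2))).mono' hc.aestronglyMeasurable
    (Eventually.of_forall fun y => ?_)
  rw [norm_mul, rec_exp_norm, norm_pow]
  have h1 : ‖ph (recL s y)‖ ^ n = ‖ph (recL s y)‖ ^ (n - 2) * ‖ph (recL s y)‖ ^ 2 := by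
    rw [← pow_add]; congr 1; omega
  rw [h1]
  have h2 : ‖ph (recL s y)‖ ^ (n - 2) ≤ Real.exp |s| ^ (n - 2) :=
    pow_le_pow_left₀ (norm_nonneg _) (rec_ph_bdd s y) _
  have h3 := mul_le_mul h2 (rec_ph_sq s y) (by positivity) (by positivity)
  have h4 := mul_le_mul_of_nonneg_left h3 (Real.exp_pos (x * s)).le
  refine h4.trans (le_of_eq ?_)
  ring

theorem rec_tend (s x : ℝ) (n : ℕ) (hn : 1 ≤ n) (l : Filter ℝ)
    (hl : Tendsto (fun y : ℝ => |y|) l atTop) :
    Tendsto (fun y : ℝ => recL s y * cexp (x * recL s y) * ph (recL s y) ^ (n + 1)) l (𝓝 0) := by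
  have h0 : Tendsto (fun y : ℝ => Real.exp (x * s) * (1 + Real.exp (-s)) *
      Real.exp |s| ^ (n - 1) * ((1 + Real.exp (-s)) * |y|⁻¹)) l (𝓝 0) := by
    have h1 := (tendsto_inv_atTop_zero.comp hl)
    have h2 := (h1.const_mul (1 + Real.exp (-s))).const_mul
      (Real.exp (x * s) * (1 + Real.exp (-s)) * Real.exp |s| ^ (n - 1))
    simpa using h2
  refine squeeze_zero_norm' ?_ h0
  filter_upwards [hl.eventually_gt_atTop 0] with y hy
  have hE : 0 < Real.exp (-s) := Real.exp_pos _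
  have h1 : ‖recL s y * cexp (x * recL s y) * ph (recL s y) ^ (n + 1)‖ =
      Real.exp (x * s) * (‖recL s y‖ * ‖ph (recL s y)‖) * ‖ph (recL s y)‖ ^ (n - 1) *
        ‖ph (recL s y)‖ := by
    rw [norm_mul, norm_mul, rec_exp_norm, norm_pow]
    have : n + 1 = (n - 1) + 1 + 1 := by omega
    rw [this, pow_succ, pow_succ]
    ring
  rw [h1]
  have h2 : ‖ph (recL s y)‖ ≤ (1 + Real.exp (-s)) * |y|⁻¹ := by
    rw [← div_eq_mul_inv, le_div_iff₀ hy, mul_comm]
    exact (mul_le_mul_of_nonneg_right (recL_abs s y) (norm_nonneg _)).trans (rec_num_le s y)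
  have h3 : ‖ph (recL s y)‖ ^ (n - 1) ≤ Real.exp |s| ^ (n - 1) :=
    pow_le_pow_left₀ (norm_nonneg _) (rec_ph_bdd s y) _
  refine mul_le_mul (mul_le_mul (mul_le_mul_of_nonneg_left (rec_num_le s y) (Real.exp_pos _).le)
    h3 (by positivity) (by positivity)) h2 (norm_nonneg _) (by positivity)

theorem recs : RecSt := by
  intro s n x hn
  have hph : ∀ t : ℂ, HasDerivAt ph (deriv ph t) t := fun t => (rec_ph_diff t).hasDerivAt
  set f' : ℝ → ℂ := fun y => I * ((x : ℂ) * (cexp (x * recL s y) * ph (recL s y) ^ n) +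
    ((n : ℂ) + 1 - x) * (cexp ((x - 1 : ℝ) * recL s y) * ph (recL s y) ^ n) -
    (n : ℂ) * (cexp (x * recL s y) * ph (recL s y) ^ (n + 1))) with hf'
  have i1 := rec_int s x n hn
  have i2 := rec_int s (x - 1) n hn
  have i3 := rec_int s x (n + 1) (by omega)
  have hint : Integrable f' :=
    (((i1.const_mul (x : ℂ)).add (i2.const_mul ((n : ℂ) + 1 - x))).sub
      (i3.const_mul (n : ℂ))).const_mul I
  have hder : ∀ y, HasDerivAt
      (fun y : ℝ => recL s y * cexp (x * recL s y) * ph (recL s y) ^ (n + 1)) (f' y) y := by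
    intro y
    set t := recL s y with ht
    have hG : HasDerivAt (fun t : ℂ => t * cexp (x * t) * ph t ^ (n + 1))
        ((1 * cexp (x * t) + t * (cexp (x * t) * (x * 1))) * ph t ^ (n + 1) +
          (t * cexp (x * t)) * (((n + 1 : ℕ) : ℂ) * ph t ^ n * deriv ph t)) t := by
      have h1 : HasDerivAt (fun t : ℂ => cexp ((x : ℂ) * t)) (cexp (x * t) * (x * 1)) t :=
        ((hasDerivAt_id t).const_mul (x : ℂ)).cexp
      have h2 := (hasDerivAt_id t).mul h1
      have h3 := (hph t).pow (n + 1)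
      simp only [Nat.add_sub_cancel] at h3
      exact h2.mul h3
    have h4 := hG.comp_of_eq y (recL_deriv s y) rfl
    refine h4.congr_deriv ?_
    have e1 := rec_mul_ph t
    have e2 := rec_mul_deriv t
    have e3 : cexp ((x - 1 : ℝ) * t) = cexp (x * t) * cexp (-t) := by
      rw [← Complex.exp_add]
      congr 1
      push_cast
      ring
    show _ = I * ((x : ℂ) * (cexp (x * t) * ph t ^ n) +
      ((n : ℂ) + 1 - x) * (cexp ((x - 1 : ℝ) * t) * ph t ^ n) -
      (n : ℂ) * (cexp (x * t) * ph t ^ (n + 1)))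
    rw [e3]
    push_cast
    linear_combination (I * x * cexp (x * t) * ph t ^ n) * e1 +
      (I * (n + 1) * cexp (x * t) * ph t ^ n) * e2
  have hbot := rec_tend s x n (by omega) atBot tendsto_abs_atBot_atTop
  have htop := rec_tend s x n (by omega) atTop tendsto_abs_atTop_atTop
  have key := integral_of_hasDerivAt_of_tendsto hder hint hbot htop
  rw [sub_zero] at key
  have h5 : ∫ y, f' y = I * ((x : ℂ) * (∫ y, cexp (x * recL s y) * ph (recL s y) ^ n) +
    ((n : ℂ) + 1 - x) * (∫ y, cexp ((x - 1 : ℝ) * recL s y) * ph (recL s y) ^ n) -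
    (n : ℂ) * ∫ y, cexp (x * recL s y) * ph (recL s y) ^ (n + 1)) := by
    rw [hf', integral_const_mul, integral_sub, integral_add, integral_const_mul,
      integral_const_mul, integral_const_mul]
    · exact i1.const_mul _
    · exact i2.const_mul _
    · exact (i1.const_mul _).add (i2.const_mul _)
    · exact i3.const_mul _
  rw [h5] at key
  have h6 : (x : ℂ) * (∫ y, cexp (x * recL s y) * ph (recL s y) ^ n) +
    ((n : ℂ) + 1 - x) * (∫ y, cexp ((x - 1 : ℝ) * recL s y) * ph (recL s y) ^ n) -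
    (n : ℂ) * ∫ y, cexp (x * recL s y) * ph (recL s y) ^ (n + 1) = 0 :=
    (mul_eq_zero.1 key).resolve_left I_ne_zero
  have hJ : ∀ (M : ℕ) (x : ℝ), J s M x = (1 / (2 * π) : ℝ) *
      ∫ y : ℝ, cexp (x * recL s y) * ph (recL s y) ^ M := fun M x => rfl
  rw [hJ, hJ, hJ]
  linear_combination (-((1 / (2 * π) : ℝ) : ℂ)) * h6

end Pool.Agent.H53.ATP
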