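import Pool.Agent.H53.ATP.Spec

/-!
# Asymptotic total positivity of Euler's triangle: the integral representation
-/

set_option autoImplicit false

open MeasureTheory Filter Complex
open scoped Topology Real

namespace Pool.Agent.H53.ATP

theorem rep_zero (h1 : RecSt) (h2 : BaseSt) (s : ℝ) :
    ∀ n : ℕ, ∀ x : ℤ, x ≤ 0 → J s (n + 2) x = 0 := by
  intro n
  induction n with
  | zero =>
    intro x hx
    have h := h2 s x
    rw [if_neg (by omega)] at h
    exact h
  | succ n ih =>
    intro x hx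
    have h := h1 s (n + 2) x (by omega)
    have e : ((x : ℝ) - 1) = ((x - 1 : ℤ) : ℝ) := by push_cast; ring
    rw [ih x hx, e, ih (x - 1) (by omega), mul_zero, mul_zero, add_zero] at h
    have h3 : ((n + 2 : ℕ) : ℂ) ≠ 0 := by exact_mod_cast (by omega : n + 2 ≠ 0)
    exact (mul_eq_zero.1 h).resolve_left h3

theorem rep_eu_one (k : ℕ) : eu 1 k = if k = 0 then 1 else 0 := by
  cases k with
  | zero => rfl
  | succ k =>
    have h : eu 1 (k + 1) = ((k : ℤ) + 2) * eu 0 (k + 1) + (((0 : ℕ) : ℤ) - (k : ℤ)) * eu 0 k := rfl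
    have h0 : eu 0 (k + 1) = 0 := rfl
    rw [h, h0]
    cases k with
    | zero => simp
    | succ k =>
      have h1 : eu 0 (k + 1) = 0 := rfl
      rw [h1]
      simp

theorem rep : RecSt → BaseSt → RepSt := by
  intro h1 h2 s n k hn
  obtain ⟨n, rfl⟩ : ∃ l, n = l + 1 := ⟨n - 1, by omega⟩
  clear hn
  induction n generalizing k with
  | zero =>
    have h := h2 s ((k : ℤ) + 1)
    have e : ((((k : ℤ) + 1 : ℤ)) : ℝ) = (k : ℝ) + 1 := by push_cast; ring
    rw [e] at h
    have e2 : (1 : ℕ) + 1 = 2 := rfl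
    rw [zero_add, e2, h, rep_eu_one]
    by_cases hk : k = 0
    · subst hk
      simp
    · rw [if_neg hk, if_neg (by omega)]
      simp
  | succ n ih =>
    have hf : (((n + 1 + 1).factorial : ℕ) : ℂ) =
        ((n + 2 : ℕ) : ℂ) * (((n + 1).factorial : ℕ) : ℂ) := by
      rw [Nat.factorial_succ (n + 1)]
      push_cast
      ring
    cases k with
    | zero =>
      have h := h1 s (n + 2) 1 (by omega)
      have e0 : (1 : ℝ) - 1 = ((0 : ℤ) : ℝ) := by norm_num
      rw [e0, rep_zero h1 h2 s n 0 le_rfl, mul_zero, add_zero] at h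
      have i0 := ih 0
      have e1 : ((0 : ℕ) : ℝ) + 1 = 1 := by norm_num
      rw [e1] at i0 ⊢
      have e2 : eu (n + 1 + 1) 0 = eu (n + 1) 0 := rfl
      rw [e2, i0, hf]
      have e3 : n + 1 + 1 = n + 2 := rfl
      rw [e3]
      calc (((n + 1).factorial : ℕ) : ℂ) * J s (n + 2) 1 =
          (((n + 1).factorial : ℕ) : ℂ) * (((1 : ℝ) : ℂ) * J s (n + 2) 1) := by
            push_cast; ring
        _ = (((n + 1).factorial : ℕ) : ℂ) * (((n + 2 : ℕ) : ℂ) * J s (n + 2 + 1) 1) := by rw [h]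
        _ = _ := by ring
    | succ k =>
      have h := h1 s (n + 2) ((k : ℝ) + 2) (by omega)
      have e0 : (k : ℝ) + 2 - 1 = (k : ℝ) + 1 := by ring
      rw [e0] at h
      have i0 := ih k
      have i1 := ih (k + 1)
      have e1 : ((k + 1 : ℕ) : ℝ) + 1 = (k : ℝ) + 2 := by push_cast; ring
      rw [e1] at i1 ⊢
      have e2 : eu (n + 1 + 1) (k + 1) = ((k : ℤ) + 2) * eu (n + 1) (k + 1) +
        (((n + 1 : ℕ) : ℤ) - (k : ℤ)) * eu (n + 1) k := rfl
      rw [e2, hf]
      push_cast at i0 i1 h ⊢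
      rw [i0, i1]
      have e3 : n + 1 + 1 = n + 2 := rfl
      rw [e3]
      have h5 := congrArg (fun z => (((n + 1).factorial : ℕ) : ℂ) * z) h
      linear_combination -h5

end Pool.Agent.H53.ATP
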