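import Pool.Agent.H53.ATP.Spec

/-!
# RIGHT: solid minors of Euler's triangle near the right border
-/

set_option autoImplicit false

open Filter Topology

namespace Pool.Agent.H53.ATP

private lemma right_key {u M : ℝ} (h1 : -1 ≤ u) (h2 : u ≤ M) (hM : 0 ≤ M) :
    (1 + u) * Real.exp (-u) ≤ Real.exp (-(u ^ 2 / (4 * (1 + M) ^ 2))) := by
  have h3 : 0 < 1 + u / 2 := by linarith
  have e1 : 1 + u / 2 ≤ Real.exp (u / 2) := by
    have := Real.add_one_le_exp (u / 2)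
    linarith
  have e2 : Real.exp (-u) ≤ 1 / (1 + u / 2) ^ 2 := by
    rw [Real.exp_neg, ← one_div]
    apply one_div_le_one_div_of_le (by positivity)
    calc (1 + u / 2) ^ 2 ≤ (Real.exp (u / 2)) ^ 2 := by gcongr
      _ = Real.exp u := by
        rw [← Real.exp_nat_mul]
        congr 1
        push_cast
        ring
  have e3 : (1 + u / 2) ^ 2 ≤ (1 + M) ^ 2 := by
    apply pow_le_pow_left₀ h3.le
    linarith
  calc (1 + u) * Real.exp (-u) ≤ (1 + u) * (1 / (1 + u / 2) ^ 2) :=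
        mul_le_mul_of_nonneg_left e2 (by linarith)
    _ = 1 - u ^ 2 / (4 * (1 + u / 2) ^ 2) := by
        obtain ⟨w, hw⟩ : ∃ w, w = 1 + u / 2 := ⟨_, rfl⟩
        have hu : u = 2 * w - 2 := by rw [hw]; ring
        rw [← hw] at h3 ⊢
        rw [hu]
        have hw0 : w ≠ 0 := h3.ne'
        field_simp
        ring
    _ ≤ 1 - u ^ 2 / (4 * (1 + M) ^ 2) := by
        have : u ^ 2 / (4 * (1 + M) ^ 2) ≤ u ^ 2 / (4 * (1 + u / 2) ^ 2) := by
          gcongr
        linarith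
    _ ≤ Real.exp (-(u ^ 2 / (4 * (1 + M) ^ 2))) := by
        have := Real.add_one_le_exp (-(u ^ 2 / (4 * (1 + M) ^ 2)))
        linarith

/-- the ratio of an Eulerian number and its main term -/
private lemma right_ratio {B : ℝ} (hB : 0 < B) (P e : ℕ → ℕ) (a : ℕ → ℝ)
    (hP : Tendsto P atTop atTop)
    (he : ∀ᶠ l in atTop, 1 ≤ e l) (heB : ∀ᶠ l in atTop, (e l : ℝ) ≤ B * √(P l : ℝ))
    (hup : ∀ᶠ l in atTop, a l ≤ (e l : ℝ) ^ P l)
    (hlo : ∀ᶠ l in atTop, (e l : ℝ) ^ P l - ((P l : ℝ) + 1) * ((e l : ℝ) - 1) ^ P l ≤ a l) :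
    Tendsto (fun l => a l / (e l : ℝ) ^ P l) atTop (𝓝 1) := by
  have hPr : Tendsto (fun l => √(P l : ℝ)) atTop atTop :=
    Real.tendsto_sqrt_atTop.comp (tendsto_natCast_atTop_atTop.comp hP)
  have hb : 0 < 1 / B := by positivity
  have t1 := tendsto_rpow_mul_exp_neg_mul_atTop_nhds_zero 2 (1 / B) hb
  have t2 := tendsto_rpow_mul_exp_neg_mul_atTop_nhds_zero 0 (1 / B) hb
  have t3 : Tendsto (fun y : ℝ => 1 - (y ^ 2 + 1) * Real.exp (-(1 / B) * y)) atTop (𝓝 1) := by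
    have := (tendsto_const_nhds (x := (1 : ℝ))).sub (t1.add t2)
    rw [add_zero, sub_zero] at this
    refine this.congr (fun y => ?_)
    rw [Real.rpow_zero, Real.rpow_two]
    ring
  have t4 := t3.comp hPr
  refine tendsto_of_tendsto_of_tendsto_of_le_of_le' t4 (tendsto_const_nhds (x := (1 : ℝ))) ?_ ?_
  · filter_upwards [he, heB, hlo, hP.eventually_ge_atTop 1] with l h1 h2 h3 h4
    have h1' : (1 : ℝ) ≤ (e l : ℝ) := by exact_mod_cast h1
    have h0 : (0 : ℝ) < (e l : ℝ) := by linarith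
    have h5 : (0 : ℝ) < (e l : ℝ) ^ P l := by positivity
    have hPp : (0 : ℝ) < (P l : ℝ) := by exact_mod_cast h4
    simp only [Function.comp]
    rw [Real.sq_sqrt hPp.le, le_div_iff₀ h5]
    have h6 : ((e l : ℝ) - 1) ^ P l ≤ Real.exp (-(1 / B) * √(P l : ℝ)) * (e l : ℝ) ^ P l := by
      have h7 : (e l : ℝ) - 1 ≤ Real.exp (-(1 / (e l : ℝ))) * (e l : ℝ) := by
        have := Real.one_sub_le_exp_neg (1 / (e l : ℝ))
        calc (e l : ℝ) - 1 = (1 - 1 / (e l : ℝ)) * (e l : ℝ) := by field_simp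
          _ ≤ _ := mul_le_mul_of_nonneg_right this h0.le
      calc ((e l : ℝ) - 1) ^ P l ≤ (Real.exp (-(1 / (e l : ℝ))) * (e l : ℝ)) ^ P l :=
            pow_le_pow_left₀ (by linarith) h7 _
        _ = Real.exp ((P l : ℝ) * (-(1 / (e l : ℝ)))) * (e l : ℝ) ^ P l := by
            rw [mul_pow, ← Real.exp_nat_mul]
        _ ≤ _ := by
            apply mul_le_mul_of_nonneg_right _ h5.le
            apply Real.exp_le_exp.2
            have h8 : (1 / B) * √(P l : ℝ) ≤ (P l : ℝ) * (1 / (e l : ℝ)) := by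
              rw [one_div_mul_eq_div, mul_one_div, div_le_div_iff₀ hB h0]
              calc √(P l : ℝ) * (e l : ℝ) ≤ √(P l : ℝ) * (B * √(P l : ℝ)) :=
                    mul_le_mul_of_nonneg_left h2 (Real.sqrt_nonneg _)
                _ = (√(P l : ℝ) * √(P l : ℝ)) * B := by ring
                _ = (P l : ℝ) * B := by rw [Real.mul_self_sqrt hPp.le]
            linarith
    calc (1 - ((P l : ℝ) + 1) * Real.exp (-(1 / B) * √(P l : ℝ))) * (e l : ℝ) ^ P l
        = (e l : ℝ) ^ P l - ((P l : ℝ) + 1) *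
            (Real.exp (-(1 / B) * √(P l : ℝ)) * (e l : ℝ) ^ P l) := by ring
      _ ≤ (e l : ℝ) ^ P l - ((P l : ℝ) + 1) * ((e l : ℝ) - 1) ^ P l := by
          have := mul_le_mul_of_nonneg_left h6 (by positivity : (0 : ℝ) ≤ (P l : ℝ) + 1)
          linarith
      _ ≤ a l := h3
  · filter_upwards [he, hup] with l h1 h2
    have h1' : (1 : ℝ) ≤ (e l : ℝ) := by exact_mod_cast h1
    have h5 : (0 : ℝ) < (e l : ℝ) ^ P l := by positivity
    rw [div_le_one h5]
    exact h2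

/-- the limit of the main terms for `c ~ κ √p` -/
private lemma right_main {θ d : ℝ} (i : ℕ) (p : ℕ → ℕ) (c : ℕ → ℝ)
    (hc : Tendsto c atTop atTop)
    (hθ : Tendsto (fun l => (p l : ℝ) / c l ^ 2) atTop (𝓝 θ)) :
    Tendsto (fun l => (1 + d / c l) ^ (p l + i) * Real.exp (-(d / c l) * (p l : ℝ))) atTop
      (𝓝 (Real.exp (-(d ^ 2 * θ / 2)))) := by
  have ht : Tendsto (fun l => d / c l) atTop (𝓝 0) := hc.const_div_atTop d
  have hta : Tendsto (fun l => |d / c l|) atTop (𝓝 0) := by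
    have := ht.abs
    rwa [abs_zero] at this
  have hpt : Tendsto (fun l => (p l : ℝ) * (d / c l) ^ 2) atTop (𝓝 (d ^ 2 * θ)) := by
    have := hθ.const_mul (d ^ 2)
    refine this.congr (fun l => ?_)
    rw [div_pow]
    ring
  have hev : ∀ᶠ l in atTop, |d / c l| < 1 / 2 := hta.eventually_lt_const (by norm_num)
  -- the remainder
  have hrem : Tendsto (fun l => (p l : ℝ) *
      (Real.log (1 + d / c l) - d / c l + (d / c l) ^ 2 / 2)) atTop (𝓝 0) := by
    have hb : Tendsto (fun l => ((p l : ℝ) * (d / c l) ^ 2) * (|d / c l| / (1 - |d / c l|))) atTop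
        (𝓝 0) := by
      have h1 : Tendsto (fun l => |d / c l| / (1 - |d / c l|)) atTop (𝓝 (0 / (1 - 0))) :=
        hta.div (tendsto_const_nhds.sub hta) (by norm_num)
      have h2 := hpt.mul h1
      simpa using h2
    refine squeeze_zero_norm' ?_ hb
    filter_upwards [hev] with l hl
    have h3 := Real.abs_log_sub_add_sum_range_le (x := -(d / c l)) (by rw [abs_neg]; linarith) 2
    rw [Real.norm_eq_abs, abs_mul, abs_of_nonneg (Nat.cast_nonneg _), mul_assoc]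
    apply mul_le_mul_of_nonneg_left _ (Nat.cast_nonneg _)
    have h4 : (∑ j ∈ Finset.range 2, (-(d / c l)) ^ (j + 1) / ((j : ℝ) + 1)) +
        Real.log (1 - -(d / c l)) = Real.log (1 + d / c l) - d / c l + (d / c l) ^ 2 / 2 := by
      rw [sub_neg_eq_add]
      simp only [Finset.sum_range_succ, Finset.sum_range_zero]
      push_cast
      ring
    rw [h4] at h3
    refine h3.trans (le_of_eq ?_)
    rw [abs_neg]
    have : |d / c l| ^ (2 + 1) = (d / c l) ^ 2 * |d / c l| := by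
      rw [pow_succ, sq_abs]
    rw [this, mul_div_assoc]
  have hlog : Tendsto (fun l => Real.log (1 + d / c l)) atTop (𝓝 0) := by
    have h1 : Tendsto (fun l => 1 + d / c l) atTop (𝓝 (1 + 0)) := tendsto_const_nhds.add ht
    have h2 := (Real.continuousAt_log (x := 1 + 0) (by norm_num)).tendsto.comp h1
    simpa [Function.comp_def] using h2
  have hexp : Tendsto (fun l => (p l : ℝ) *
      (Real.log (1 + d / c l) - d / c l + (d / c l) ^ 2 / 2) - (p l : ℝ) * (d / c l) ^ 2 / 2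
      + (i : ℝ) * Real.log (1 + d / c l)) atTop (𝓝 (0 - d ^ 2 * θ / 2 + (i : ℝ) * 0)) :=
    (hrem.sub (hpt.div_const 2)).add (hlog.const_mul (i : ℝ))
  have hfin := (Real.continuous_exp.tendsto _).comp hexp
  have e0 : (0 - d ^ 2 * θ / 2 + (i : ℝ) * 0) = -(d ^ 2 * θ / 2) := by ring
  rw [e0] at hfin
  refine hfin.congr' ?_
  filter_upwards [hev] with l hl
  have hpos : 0 < 1 + d / c l := by
    have := (abs_lt.1 hl).1
    linarith
  simp only [Function.comp]
  rw [← Real.exp_log (pow_pos hpos (p l + i)), ← Real.exp_add, Real.log_pow]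
  congr 1
  push_cast
  ring

/-- determinant of the Gaussian matrix -/
private lemma right_gauss (m : ℕ) {θ : ℝ} (hθ : 0 < θ) :
    0 < Matrix.det (Matrix.of fun i j : Fin m =>
      Real.exp (-((((i : ℕ) : ℝ) - ((j : ℕ) : ℝ)) ^ 2 * θ / 2))) := by
  have h1 : (Matrix.of fun i j : Fin m =>
      Real.exp (-((((i : ℕ) : ℝ) - ((j : ℕ) : ℝ)) ^ 2 * θ / 2))) =
      Matrix.of fun i j : Fin m => Real.exp (-(((i : ℕ) : ℝ) ^ 2 * θ / 2)) *
        (Matrix.of fun i j : Fin m => Real.exp (-(((j : ℕ) : ℝ) ^ 2 * θ / 2)) *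
          Matrix.vandermonde (fun i : Fin m => Real.exp (((i : ℕ) : ℝ) * θ)) i j) i j := by
    ext i j
    simp only [Matrix.of_apply, Matrix.vandermonde_apply]
    rw [← Real.exp_nat_mul, ← Real.exp_add, ← Real.exp_add]
    congr 1
    ring
  rw [h1, Matrix.det_mul_column, Matrix.det_mul_row, Matrix.det_vandermonde]
  refine mul_pos (Finset.prod_pos fun i _ => Real.exp_pos _)
    (mul_pos (Finset.prod_pos fun i _ => Real.exp_pos _) ?_)
  refine Finset.prod_pos fun i _ => Finset.prod_pos fun j hj => ?_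
  rw [Finset.mem_Ioi] at hj
  rw [sub_pos]
  apply Real.exp_lt_exp.2
  apply mul_lt_mul_of_pos_right _ hθ
  exact_mod_cast hj

/-- the entries near the right border -/
private lemma right_entry (hW : WorSt) {n k c : ℕ} (hk : k + c = n + 1) (i j : ℕ) :
    (c + i - j = 0 → eu (n + i + 1) (k + j) = 0) ∧ 0 ≤ eu (n + i + 1) (k + j) ∧
    (1 ≤ c + i - j →
      ((eu (n + i + 1) (k + j) : ℤ) : ℝ) ≤ ((c + i - j : ℕ) : ℝ) ^ (n + 1 + i) ∧
      ((c + i - j : ℕ) : ℝ) ^ (n + 1 + i) -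
        (((n + 1 + i : ℕ) : ℝ) + 1) * (((c + i - j : ℕ) : ℝ) - 1) ^ (n + 1 + i) ≤
        ((eu (n + i + 1) (k + j) : ℤ) : ℝ)) := by
  obtain ⟨h0, hz, -, hsym, hup, hlo⟩ := hW
  refine ⟨fun h => hz _ _ (by omega) (by omega), h0 _ _, fun h => ?_⟩
  have e1 : eu (n + i + 1) (k + j) = eu (n + i + 1) (c + i - j - 1) := by
    rw [hsym (n + i + 1) (k + j) (by omega)]
    congr 1
    omega
  rw [e1]
  have e2 : n + i + 1 = n + 1 + i := by ring
  have e3 : (((c + i - j - 1 : ℕ) : ℝ)) = ((c + i - j : ℕ) : ℝ) - 1 := by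
    rw [Nat.cast_sub h]
    simp
  have h3 := hup (n + i + 1) (c + i - j - 1)
  have h4 := hlo (n + i + 1) (c + i - j - 1)
  rw [e3, e2] at h3 h4
  rw [sub_add_cancel] at h3 h4
  rw [e2]
  exact ⟨h3, h4⟩

/-- the scaled entry as a product -/
private lemma right_split {c e P p : ℕ} {i j E : ℝ} (hc : 1 ≤ c) (he : 1 ≤ e) :
    ((c : ℝ) ^ P)⁻¹ * Real.exp (-i / (c : ℝ) * (p : ℝ)) *
      (Real.exp (j / (c : ℝ) * (p : ℝ)) * E) =
    (E / (e : ℝ) ^ P) * (((e : ℝ) / (c : ℝ)) ^ P * Real.exp (-((i - j) / (c : ℝ)) * (p : ℝ))) := by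
  have hc' : (0 : ℝ) < (c : ℝ) := by exact_mod_cast hc
  have he' : (0 : ℝ) < (e : ℝ) := by exact_mod_cast he
  have h1 : Real.exp (-((i - j) / (c : ℝ)) * (p : ℝ)) =
      Real.exp (-i / (c : ℝ) * (p : ℝ)) * Real.exp (j / (c : ℝ) * (p : ℝ)) := by
    rw [← Real.exp_add]
    congr 1
    ring
  rw [h1, div_pow]
  have h2 : (c : ℝ) ^ P ≠ 0 := (pow_pos hc' P).ne'
  have h3 : (e : ℝ) ^ P ≠ 0 := (pow_pos he' P).ne'
  field_simp

/-- the bound for the entries off the diagonal -/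
private lemma right_upper (hW : WorSt) {n k c m i j : ℕ} (hc1 : 1 ≤ c) (hk : k + c = n + 1)
    (hi : i < m) (hij : i ≠ j) :
    0 ≤ ((c : ℝ) ^ (n + 1 + i))⁻¹ * Real.exp (-(i : ℝ) / (c : ℝ) * ((n + 1 : ℕ) : ℝ)) *
      (Real.exp ((j : ℝ) / (c : ℝ) * ((n + 1 : ℕ) : ℝ)) * ((eu (n + i + 1) (k + j) : ℤ) : ℝ)) ∧
    ((c : ℝ) ^ (n + 1 + i))⁻¹ * Real.exp (-(i : ℝ) / (c : ℝ) * ((n + 1 : ℕ) : ℝ)) *
      (Real.exp ((j : ℝ) / (c : ℝ) * ((n + 1 : ℕ) : ℝ)) * ((eu (n + i + 1) (k + j) : ℤ) : ℝ)) ≤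
      (1 + (m : ℝ)) ^ m * Real.exp (-(1 / (4 * (1 + (m : ℝ)) ^ 2)) *
        (((n + 1 : ℕ) : ℝ) / (c : ℝ) ^ 2)) := by
  obtain ⟨h0, h1, h2⟩ := right_entry hW hk i j
  have hc' : (1 : ℝ) ≤ (c : ℝ) := by exact_mod_cast hc1
  have hc0 : (0 : ℝ) < (c : ℝ) := by linarith
  have h1' : (0 : ℝ) ≤ ((eu (n + i + 1) (k + j) : ℤ) : ℝ) := by exact_mod_cast h1
  refine ⟨by positivity, ?_⟩
  rcases Nat.eq_zero_or_pos (c + i - j) with h | h
  · rw [h0 h]
    simp only [Int.cast_zero, mul_zero]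
    positivity
  · rw [right_split hc1 h]
    obtain ⟨h3, -⟩ := h2 h
    have he' : (0 : ℝ) < ((c + i - j : ℕ) : ℝ) := by exact_mod_cast h
    have h4 : ((eu (n + i + 1) (k + j) : ℤ) : ℝ) / ((c + i - j : ℕ) : ℝ) ^ (n + 1 + i) ≤ 1 := by
      rw [div_le_one (pow_pos he' _)]
      exact h3
    obtain ⟨u, hu⟩ : ∃ u, u = ((i : ℝ) - (j : ℝ)) / (c : ℝ) := ⟨_, rfl⟩
    have hu1 : ((c + i - j : ℕ) : ℝ) / (c : ℝ) = 1 + u := by
      rw [hu, Nat.cast_sub (by omega)]
      push_cast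
      field_simp
      ring
    have hu2 : 0 < 1 + u := by
      rw [← hu1]
      positivity
    have him : (i : ℝ) ≤ (m : ℝ) := by exact_mod_cast hi.le
    have hu3 : u ≤ (m : ℝ) := by
      rw [hu, div_le_iff₀ hc0]
      have : (0 : ℝ) ≤ (j : ℝ) := Nat.cast_nonneg _
      nlinarith [Nat.cast_nonneg (α := ℝ) m]
    have hm0 : (0 : ℝ) ≤ (m : ℝ) := Nat.cast_nonneg _
    have hu4 : 1 / (c : ℝ) ^ 2 ≤ u ^ 2 := by
      rw [hu, div_pow]
      apply div_le_div_of_nonneg_right _ (by positivity)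
      have h5 : (1 : ℤ) ≤ ((i : ℤ) - (j : ℤ)) ^ 2 := by
        have : ((i : ℤ) - (j : ℤ)) ≠ 0 := by omega
        have := pow_pos (abs_pos.2 this) 2
        rw [sq_abs] at this
        omega
      exact_mod_cast h5
    have hkey := right_key (u := u) (M := (m : ℝ)) (by linarith) hu3 hm0
    rw [hu1, ← hu]
    have h6 : (1 + u) ^ (n + 1 + i) * Real.exp (-u * ((n + 1 : ℕ) : ℝ)) =
        ((1 + u) * Real.exp (-u)) ^ (n + 1) * (1 + u) ^ i := by
      rw [mul_pow, ← Real.exp_nat_mul, pow_add, mul_comm (-u)]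
      ring
    rw [h6]
    have h7 : ((1 + u) * Real.exp (-u)) ^ (n + 1) ≤
        Real.exp (-(1 / (4 * (1 + (m : ℝ)) ^ 2)) * (((n + 1 : ℕ) : ℝ) / (c : ℝ) ^ 2)) := by
      calc ((1 + u) * Real.exp (-u)) ^ (n + 1)
          ≤ (Real.exp (-(u ^ 2 / (4 * (1 + (m : ℝ)) ^ 2)))) ^ (n + 1) :=
            pow_le_pow_left₀ (by positivity) hkey _
        _ = Real.exp (((n + 1 : ℕ) : ℝ) * (-(u ^ 2 / (4 * (1 + (m : ℝ)) ^ 2)))) := by
            rw [← Real.exp_nat_mul]
        _ ≤ _ := by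
            apply Real.exp_le_exp.2
            have h8 : (1 / (4 * (1 + (m : ℝ)) ^ 2)) * (((n + 1 : ℕ) : ℝ) / (c : ℝ) ^ 2) ≤
                ((n + 1 : ℕ) : ℝ) * (u ^ 2 / (4 * (1 + (m : ℝ)) ^ 2)) := by
              have h9 : (1 / (4 * (1 + (m : ℝ)) ^ 2)) * (((n + 1 : ℕ) : ℝ) / (c : ℝ) ^ 2) =
                  ((n + 1 : ℕ) : ℝ) * ((1 / (c : ℝ) ^ 2) / (4 * (1 + (m : ℝ)) ^ 2)) := by ring
              rw [h9]
              gcongr
            linarith
    have h10 : (1 + u) ^ i ≤ (1 + (m : ℝ)) ^ m :=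
      (pow_le_pow_left₀ hu2.le (by linarith) i).trans (pow_le_pow_right₀ (by linarith) hi.le)
    calc _ ≤ 1 * (((1 + u) * Real.exp (-u)) ^ (n + 1) * (1 + u) ^ i) := by
          apply mul_le_mul_of_nonneg_right h4 (by positivity)
      _ = (1 + u) ^ i * ((1 + u) * Real.exp (-u)) ^ (n + 1) := by ring
      _ ≤ _ := mul_le_mul h10 h7 (by positivity) (by positivity)

/-- positivity of the determinant in the limit -/
private lemma right_limit (m : ℕ) (n k : ℕ → ℕ) (G : Matrix (Fin m) (Fin m) ℝ) (hG : 0 < G.det)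
    (r s : ℕ → Fin m → ℝ) (hr : ∀ l i, 0 < r l i) (hs : ∀ l j, 0 < s l j)
    (h : ∀ i j : Fin m, Tendsto (fun l => r l i * (s l j *
      ((eu (n l + i + 1) (k l + j) : ℤ) : ℝ))) atTop (𝓝 (G i j))) :
    ∀ᶠ l in atTop, 0 < sol m (n l) (k l) := by
  have h1 : Tendsto (fun l => Matrix.det (Matrix.of fun i j : Fin m => r l i *
      (Matrix.of (fun i j : Fin m => s l j *
        (Matrix.of fun i j : Fin m => ((eu (n l + i + 1) (k l + j) : ℤ) : ℝ)) i j) i j))) atTop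
      (𝓝 G.det) := by
    have hcont : Continuous fun M : Matrix (Fin m) (Fin m) ℝ => M.det := continuous_id.matrix_det
    refine (hcont.tendsto G).comp (tendsto_pi_nhds.2 fun i => tendsto_pi_nhds.2 fun j => ?_)
    exact h i j
  filter_upwards [h1.eventually_const_lt hG] with l hl
  rw [Matrix.det_mul_column, Matrix.det_mul_row, ← mul_assoc] at hl
  have h2 : 0 < (∏ i, r l i) * ∏ j, s l j :=
    mul_pos (Finset.prod_pos fun i _ => hr l i) (Finset.prod_pos fun j _ => hs l j)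
  exact (mul_pos_iff_of_pos_left h2).1 hl

/-- RIGHT. -/
theorem right (hW : WorSt) : RightSt := by
  intro m A
  by_contra hcon
  push Not at hcon
  choose n hn k hk hc hs using hcon
  obtain ⟨c, hcdef⟩ : ∃ c : ℕ → ℕ, ∀ l, c l = n l + 1 - k l := ⟨_, fun l => rfl⟩
  have hc1 : ∀ l, 1 ≤ c l := fun l => by
    have := hk l
    rw [hcdef]
    omega
  have hkc : ∀ l, k l + c l = n l + 1 := fun l => by
    have := hk l
    rw [hcdef]
    omega
  have hcA : ∀ l, (c l : ℝ) ≤ A * √(n l : ℝ) := fun l => by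
    rw [hcdef]
    exact hc l
  have hA : 0 < A := by
    by_contra hA
    have h1 : (1 : ℝ) ≤ (c 0 : ℝ) := by exact_mod_cast hc1 0
    have h2 := hcA 0
    have h3 : A * √(n 0 : ℝ) ≤ 0 := mul_nonpos_of_nonpos_of_nonneg (not_lt.1 hA) (Real.sqrt_nonneg _)
    linarith
  have hppos : ∀ l, (0 : ℝ) < ((n l + 1 : ℕ) : ℝ) := fun l => by positivity
  have hspos : ∀ l, 0 < √((n l + 1 : ℕ) : ℝ) := fun l => Real.sqrt_pos.2 (hppos l)
  have hcp : ∀ l, (c l : ℝ) ≤ A * √((n l + 1 : ℕ) : ℝ) := fun l => by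
    refine (hcA l).trans (mul_le_mul_of_nonneg_left (Real.sqrt_le_sqrt ?_) hA.le)
    push_cast
    linarith
  have hnt : Tendsto n atTop atTop := tendsto_atTop_mono hn tendsto_id
  obtain ⟨κ, hκ, φ, hφ, hlim⟩ := (isCompact_Icc (a := (0 : ℝ)) (b := A)).tendsto_subseq
    (x := fun l => (c l : ℝ) / √((n l + 1 : ℕ) : ℝ)) (fun l =>
      ⟨div_nonneg (Nat.cast_nonneg _) (Real.sqrt_nonneg _), by
        rw [div_le_iff₀ (hspos l)]; exact hcp l⟩)
  have hφt : Tendsto φ atTop atTop := hφ.tendsto_atTop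
  have hnφ : Tendsto (fun l => n (φ l)) atTop atTop := hnt.comp hφt
  -- it suffices to find the limit of the scaled entries
  suffices H : ∃ G : Matrix (Fin m) (Fin m) ℝ, 0 < G.det ∧ ∀ i j : Fin m,
      Tendsto (fun l => (((c (φ l) : ℝ) ^ (n (φ l) + 1 + (i : ℕ)))⁻¹ *
        Real.exp (-((i : ℕ) : ℝ) / (c (φ l) : ℝ) * ((n (φ l) + 1 : ℕ) : ℝ))) *
        (Real.exp (((j : ℕ) : ℝ) / (c (φ l) : ℝ) * ((n (φ l) + 1 : ℕ) : ℝ)) *
        ((eu (n (φ l) + i + 1) (k (φ l) + j) : ℤ) : ℝ))) atTop (𝓝 (G i j)) by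
    obtain ⟨G, hG, hlim'⟩ := H
    have h1 := right_limit m (fun l => n (φ l)) (fun l => k (φ l)) G hG
      (fun l i => ((c (φ l) : ℝ) ^ (n (φ l) + 1 + (i : ℕ)))⁻¹ *
        Real.exp (-((i : ℕ) : ℝ) / (c (φ l) : ℝ) * ((n (φ l) + 1 : ℕ) : ℝ)))
      (fun l j => Real.exp (((j : ℕ) : ℝ) / (c (φ l) : ℝ) * ((n (φ l) + 1 : ℕ) : ℝ)))
      (fun l i => by
        have : (0 : ℝ) < (c (φ l) : ℝ) := by exact_mod_cast hc1 (φ l)
        positivity) (fun l j => Real.exp_pos _) hlim'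
    obtain ⟨l, hl⟩ := h1.exists
    exact absurd (hs (φ l)) (not_le.2 hl)
  have hc0 : ∀ l, (0 : ℝ) < (c (φ l) : ℝ) := fun l => by exact_mod_cast hc1 (φ l)
  have hratio : Tendsto (fun l => (c (φ l) : ℝ) / √((n (φ l) + 1 : ℕ) : ℝ)) atTop (𝓝 κ) := hlim
  have hsqt : Tendsto (fun l => √((n (φ l) + 1 : ℕ) : ℝ)) atTop atTop :=
    Real.tendsto_sqrt_atTop.comp
      (tendsto_natCast_atTop_atTop.comp (tendsto_atTop_mono (fun l => Nat.le_succ _) hnφ))
  -- the ratio of the entry and its main term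
  have hR : ∀ i j : Fin m, (∀ᶠ l in atTop, 1 ≤ c (φ l) + i - j) →
      Tendsto (fun l => ((eu (n (φ l) + i + 1) (k (φ l) + j) : ℤ) : ℝ) /
        ((c (φ l) + i - j : ℕ) : ℝ) ^ (n (φ l) + 1 + (i : ℕ))) atTop (𝓝 1) := by
    intro i j he
    refine right_ratio (B := A + m) (by positivity) (fun l => n (φ l) + 1 + (i : ℕ))
      (fun l => c (φ l) + i - j) _ ?_ he ?_ ?_ ?_
    · exact tendsto_atTop_mono (fun l => by omega) hnφ
    · refine Eventually.of_forall fun l => ?_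
      have h1 : ((c (φ l) + i - j : ℕ) : ℝ) ≤ (c (φ l) : ℝ) + (m : ℝ) := by
        have h2 : c (φ l) + (i : ℕ) - (j : ℕ) ≤ c (φ l) + m := by
          have := i.2
          omega
        exact_mod_cast h2
      have h3 : √((n (φ l) + 1 : ℕ) : ℝ) ≤ √((n (φ l) + 1 + (i : ℕ) : ℕ) : ℝ) := by
        apply Real.sqrt_le_sqrt
        push_cast
        linarith [Nat.cast_nonneg (α := ℝ) (i : ℕ)]
      have h4 : 1 ≤ √((n (φ l) + 1 + (i : ℕ) : ℕ) : ℝ) := by
        rw [Real.one_le_sqrt]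
        push_cast
        linarith [Nat.cast_nonneg (α := ℝ) (i : ℕ), Nat.cast_nonneg (α := ℝ) (n (φ l))]
      calc ((c (φ l) + i - j : ℕ) : ℝ) ≤ (c (φ l) : ℝ) + (m : ℝ) := h1
        _ ≤ A * √((n (φ l) + 1 + (i : ℕ) : ℕ) : ℝ) + (m : ℝ) * √((n (φ l) + 1 + (i : ℕ) : ℕ) : ℝ) := by
            have h5 := hcp (φ l)
            have h6 := mul_le_mul_of_nonneg_left h3 hA.le
            have h7 := mul_le_mul_of_nonneg_left h4 (Nat.cast_nonneg (α := ℝ) m)
            linarith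
        _ = _ := by ring
    · filter_upwards [he] with l hl
      exact ((right_entry hW (hkc (φ l)) i j).2.2 hl).1
    · filter_upwards [he] with l hl
      exact ((right_entry hW (hkc (φ l)) i j).2.2 hl).2
  rcases hκ.1.eq_or_lt with h0 | hpos
  · -- `κ = 0`: the limit is the identity matrix
    subst h0
    have hcc : Tendsto (fun l => ((n (φ l) + 1 : ℕ) : ℝ) / (c (φ l) : ℝ) ^ 2) atTop atTop := by
      have h1 : Tendsto (fun l => (c (φ l) : ℝ) / √((n (φ l) + 1 : ℕ) : ℝ)) atTop (𝓝[>] 0) := by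
        refine tendsto_nhdsWithin_iff.2 ⟨hratio, Eventually.of_forall fun l => ?_⟩
        exact div_pos (hc0 l) (hspos (φ l))
      have h2 := h1.inv_tendsto_nhdsGT_zero
      have h3 := (tendsto_pow_atTop (α := ℝ) (two_ne_zero)).comp h2
      refine h3.congr (fun l => ?_)
      simp only [Function.comp, Pi.inv_apply]
      rw [inv_div, div_pow, Real.sq_sqrt (hppos (φ l)).le]
    refine ⟨1, by simp, fun i j => ?_⟩
    by_cases hij : i = j
    · subst hij
      rw [Matrix.one_apply_eq]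
      have h1 := hR i i (Eventually.of_forall fun l => by
        have := hc1 (φ l)
        omega)
      refine h1.congr (fun l => ?_)
      rw [right_split (e := c (φ l) + i - i) (hc1 (φ l)) (by have := hc1 (φ l); omega)]
      rw [Nat.add_sub_cancel, div_self (hc0 l).ne', sub_self, zero_div, neg_zero, zero_mul,
        Real.exp_zero, one_pow, mul_one, mul_one]
    · rw [Matrix.one_apply_ne hij]
      have hij' : (i : ℕ) ≠ (j : ℕ) := fun h => hij (Fin.ext h)
      have hb : Tendsto (fun l => (1 + (m : ℝ)) ^ m * Real.exp (-(1 / (4 * (1 + (m : ℝ)) ^ 2)) *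
          (((n (φ l) + 1 : ℕ) : ℝ) / (c (φ l) : ℝ) ^ 2))) atTop (𝓝 0) := by
        have h1 : Tendsto (fun l => -(1 / (4 * (1 + (m : ℝ)) ^ 2)) *
            (((n (φ l) + 1 : ℕ) : ℝ) / (c (φ l) : ℝ) ^ 2)) atTop atBot := by
          apply hcc.const_mul_atTop_of_neg
          have : (0 : ℝ) < 1 / (4 * (1 + (m : ℝ)) ^ 2) := by positivity
          linarith
        have h2 := (Real.tendsto_exp_atBot.comp h1).const_mul ((1 + (m : ℝ)) ^ m)
        simpa using h2
      exact tendsto_of_tendsto_of_tendsto_of_le_of_le tendsto_const_nhds hb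
        (fun l => (right_upper hW (hc1 (φ l)) (hkc (φ l)) i.2 hij').1)
        (fun l => (right_upper hW (hc1 (φ l)) (hkc (φ l)) i.2 hij').2)
  · -- `κ > 0`: the limit is the Gaussian matrix
    have hct : Tendsto (fun l => (c (φ l) : ℝ)) atTop atTop := by
      have h1 := hratio.pos_mul_atTop hpos hsqt
      refine h1.congr (fun l => ?_)
      rw [div_mul_cancel₀ _ (hspos (φ l)).ne']
    have hθ : Tendsto (fun l => ((n (φ l) + 1 : ℕ) : ℝ) / (c (φ l) : ℝ) ^ 2) atTop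
        (𝓝 ((κ ^ 2)⁻¹)) := by
      have h1 := (hratio.pow 2).inv₀ (pow_pos hpos 2).ne'
      refine h1.congr (fun l => ?_)
      rw [div_pow, inv_div, Real.sq_sqrt (hppos (φ l)).le]
    have hctn : Tendsto (fun l => c (φ l)) atTop atTop := tendsto_natCast_atTop_iff.1 hct
    refine ⟨_, right_gauss m (θ := (κ ^ 2)⁻¹) (by positivity), fun i j => ?_⟩
    have he : ∀ᶠ l in atTop, 1 ≤ c (φ l) + i - j := by
      filter_upwards [hctn.eventually_ge_atTop m] with l hl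
      have := i.2
      have := j.2
      omega
    have h1 := (hR i j he).mul (right_main (d := ((i : ℕ) : ℝ) - ((j : ℕ) : ℝ)) (i : ℕ)
      (fun l => n (φ l) + 1) (fun l => (c (φ l) : ℝ)) hct hθ)
    rw [one_mul] at h1
    rw [Matrix.of_apply]
    refine h1.congr' ?_
    filter_upwards [he] with l hl
    rw [right_split (e := c (φ l) + i - j) (hc1 (φ l)) hl]
    have h2 : ((c (φ l) + i - j : ℕ) : ℝ) / (c (φ l) : ℝ) =
        1 + (((i : ℕ) : ℝ) - ((j : ℕ) : ℝ)) / (c (φ l) : ℝ) := by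
      have := (hc0 l).ne'
      rw [Nat.cast_sub (by omega)]
      push_cast
      field_simp
      ring
    rw [h2]

end Pool.Agent.H53.ATP
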