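import Pool.Agent.H53.ATP.Spec

/-!
# RIGHT, helper file: the Gaussian limit matrix
-/

set_option autoImplicit false

open Filter
open scoped Topology

namespace Pool.Agent.H53.ATP

/-- The limit matrix is positive (row and column factors times a Vandermonde matrix). -/
theorem rg_det_pos (m : ℕ) (κ : ℝ) (hκ : 0 < κ) :
    0 < Matrix.det (Matrix.of fun i j : Fin m =>
      Real.exp (-(((i : ℕ) : ℝ) - ((j : ℕ) : ℝ)) ^ 2 / (2 * κ ^ 2))) := by
  have h1 : (Matrix.of fun i j : Fin m =>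
      Real.exp (-(((i : ℕ) : ℝ) - ((j : ℕ) : ℝ)) ^ 2 / (2 * κ ^ 2))) =
      Matrix.of (fun i j : Fin m => Real.exp (-((i : ℕ) : ℝ) ^ 2 / (2 * κ ^ 2)) *
        (Matrix.of (fun i j : Fin m => Real.exp (-((j : ℕ) : ℝ) ^ 2 / (2 * κ ^ 2)) *
          (Matrix.vandermonde (fun i : Fin m => Real.exp (((i : ℕ) : ℝ) / κ ^ 2))).transpose
            i j)) i j) := by
    ext i j
    simp only [Matrix.of_apply, Matrix.transpose_apply, Matrix.vandermonde_apply]
    rw [← Real.exp_nat_mul, ← Real.exp_add, ← Real.exp_add]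
    congr 1
    have : κ ≠ 0 := hκ.ne'
    field_simp
    ring
  rw [h1, Matrix.det_mul_column, Matrix.det_mul_row, Matrix.det_transpose,
    Matrix.det_vandermonde]
  have h2 : 0 < ∏ i : Fin m, Real.exp (-((i : ℕ) : ℝ) ^ 2 / (2 * κ ^ 2)) :=
    Finset.prod_pos fun i _ => Real.exp_pos _
  refine mul_pos h2 (mul_pos h2 ?_)
  refine Finset.prod_pos fun i _ => Finset.prod_pos fun j hj => ?_
  rw [Finset.mem_Ioi] at hj
  rw [sub_pos, Real.exp_lt_exp]
  have hk2 : 0 < κ ^ 2 := by positivity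
  apply div_lt_div_of_pos_right _ hk2
  exact_mod_cast hj

/-- Second order Taylor bound of the logarithm. -/
theorem rg_log (x : ℝ) (hx : |x| ≤ 1 / 2) :
    |Real.log (1 + x) - x + x ^ 2 / 2| ≤ 2 * |x| ^ 3 := by
  have h1 : |(-x)| < 1 := by rw [abs_neg]; linarith
  have h2 := Real.abs_log_sub_add_sum_range_le h1 2
  rw [abs_neg] at h2
  have h3 : (∑ i ∈ Finset.range 2, (-x) ^ (i + 1) / ((i : ℝ) + 1)) + Real.log (1 - -x) =
      Real.log (1 + x) - x + x ^ 2 / 2 := by
    simp only [Finset.sum_range_succ, Finset.sum_range_zero]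
    rw [sub_neg_eq_add]
    push_cast
    ring
  rw [h3] at h2
  refine h2.trans ?_
  rw [div_le_iff₀ (by linarith)]
  have h4 : 0 ≤ |x| := abs_nonneg x
  have h5 : 0 ≤ |x| ^ 3 := by positivity
  have h6 : |x| ^ (2 + 1) = |x| ^ 3 := rfl
  rw [h6]
  nlinarith

/-- The entry limit for `κ > 0`. -/
theorem rg_entry (κ : ℝ) (hκ : 0 < κ) (n c : ℕ → ℕ) (hn : Tendsto n atTop atTop)
    (hc : Tendsto (fun l => (c l : ℝ) / √(n l : ℝ)) atTop (𝓝 κ)) (d : ℝ) (i : ℕ) :
    Tendsto (fun l => (((c l : ℝ) + d) / c l) ^ (n l + 1 + i) *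
      Real.exp (-(d * ((n l : ℝ) + 1) / c l))) atTop (𝓝 (Real.exp (-d ^ 2 / (2 * κ ^ 2)))) := by
  have hn' : Tendsto (fun l => (n l : ℝ)) atTop atTop := tendsto_natCast_atTop_atTop.comp hn
  have hsq : Tendsto (fun l => √(n l : ℝ)) atTop atTop := Real.tendsto_sqrt_atTop.comp hn'
  have hpos : ∀ᶠ l in atTop, 0 < √(n l : ℝ) := hsq.eventually_gt_atTop 0
  -- `c → ∞`
  have hcinf : Tendsto (fun l => (c l : ℝ)) atTop atTop := by
    have h1 := hc.pos_mul_atTop hκ hsq
    refine h1.congr' ?_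
    filter_upwards [hpos] with l hl
    field_simp
  -- `(n+1)/c² → 1/κ²`
  have hq : Tendsto (fun l => ((n l : ℝ) + 1) / (c l : ℝ) ^ 2) atTop (𝓝 (1 / κ ^ 2)) := by
    have h1 : Tendsto (fun l => (((c l : ℝ) / √(n l : ℝ)) ^ 2)⁻¹) atTop (𝓝 ((κ ^ 2)⁻¹)) :=
      (hc.pow 2).inv₀ (by positivity)
    have h2 : Tendsto (fun l => 1 + ((n l : ℝ))⁻¹) atTop (𝓝 (1 + 0)) :=
      tendsto_const_nhds.add (tendsto_inv_atTop_zero.comp hn')
    have h3 := h1.mul h2
    rw [add_zero, mul_one, ← one_div] at h3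
    refine h3.congr' ?_
    filter_upwards [hn'.eventually_gt_atTop 0, hcinf.eventually_gt_atTop 0] with l hl hl2
    have h4 : √(n l : ℝ) ^ 2 = n l := Real.sq_sqrt hl.le
    rw [div_pow, h4]
    field_simp
  have hx0 : Tendsto (fun l => d / (c l : ℝ)) atTop (𝓝 0) := hcinf.const_div_atTop d
  -- the logarithm
  have hlog : Tendsto (fun l => (n l + 1 + i : ℝ) * Real.log (1 + d / (c l : ℝ)) -
      d * ((n l : ℝ) + 1) / c l) atTop (𝓝 (-d ^ 2 / (2 * κ ^ 2))) := by
    have e1 : Tendsto (fun l => (((n l : ℝ) + 1) *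
        (Real.log (1 + d / (c l : ℝ)) - d / (c l : ℝ) + (d / (c l : ℝ)) ^ 2 / 2))) atTop
        (𝓝 0) := by
      apply squeeze_zero_norm' (a := fun l => 2 * |d| ^ 2 * (((n l : ℝ) + 1) / (c l : ℝ) ^ 2) *
        |d / (c l : ℝ)|)
      · have h1 : ∀ᶠ l in atTop, |d / (c l : ℝ)| ≤ 1 / 2 := by
          have := hx0.abs
          rw [abs_zero] at this
          exact this.eventually_le_const (by norm_num)
        filter_upwards [h1, hcinf.eventually_gt_atTop 0] with l hl hl2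
        have h2 := rg_log _ hl
        rw [Real.norm_eq_abs, abs_mul]
        have h3 : |((n l : ℝ) + 1)| = (n l : ℝ) + 1 := abs_of_pos (by positivity)
        rw [h3]
        refine (mul_le_mul_of_nonneg_left h2 (by positivity)).trans (le_of_eq ?_)
        rw [abs_div, abs_of_pos hl2]
        field_simp
      · have h1 := (hq.const_mul (2 * |d| ^ 2)).mul hx0.abs
        simpa using h1
    have e2 : Tendsto (fun l => -(d ^ 2 / 2) * (((n l : ℝ) + 1) / (c l : ℝ) ^ 2)) atTop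
        (𝓝 (-(d ^ 2 / 2) * (1 / κ ^ 2))) := hq.const_mul _
    have e3 : Tendsto (fun l => (i : ℝ) * Real.log (1 + d / (c l : ℝ))) atTop
        (𝓝 ((i : ℝ) * Real.log (1 + 0))) := by
      apply Tendsto.const_mul
      have h1 : Tendsto (fun l => 1 + d / (c l : ℝ)) atTop (𝓝 (1 + 0)) :=
        tendsto_const_nhds.add hx0
      exact (Real.continuousAt_log (by norm_num)).tendsto.comp h1
    have e4 := (e1.add e2).add e3
    rw [add_zero, Real.log_one, mul_zero, add_zero, zero_add] at e4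
    have e5 : -(d ^ 2 / 2) * (1 / κ ^ 2) = -d ^ 2 / (2 * κ ^ 2) := by
      field_simp
    rw [e5] at e4
    refine e4.congr' ?_
    filter_upwards [hcinf.eventually_gt_atTop 0] with l hl
    field_simp
    ring
  have hexp := (Real.continuous_exp.tendsto _).comp hlog
  refine hexp.congr' ?_
  have h1 : ∀ᶠ l in atTop, |d / (c l : ℝ)| ≤ 1 / 2 := by
    have := hx0.abs
    rw [abs_zero] at this
    exact this.eventually_le_const (by norm_num)
  filter_upwards [h1, hcinf.eventually_gt_atTop 0] with l hl hl2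
  have h2 : 0 < 1 + d / (c l : ℝ) := by
    have := (abs_le.1 hl).1
    linarith
  have h3 : ((c l : ℝ) + d) / c l = 1 + d / (c l : ℝ) := by field_simp
  simp only [Function.comp]
  rw [h3, sub_eq_add_neg, Real.exp_add]
  congr 1
  rw [← Real.exp_log (pow_pos h2 _), Real.log_pow]
  push_cast
  rfl

end Pool.Agent.H53.ATP
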