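import Pool.Agent.H53.ATP.Spec

/-!
# The two halves of LIM
-/

set_option autoImplicit false

open MeasureTheory Filter Complex
open scoped Topology Real

namespace Pool.Agent.H53.ATP

/-- The integrand of `H`. -/
noncomputable def Hi (s : ℝ) (M i j : ℕ) (y : ℝ) : ℂ :=
  (cexp (I * mu s * y) * psi s y) ^ M * (psi s y - 1) ^ i * (cexp (I * y) - 1) ^ j

/-- The normalising factor. -/
noncomputable def nf (s : ℝ) (M i j : ℕ) : ℝ := √((M : ℝ) * va s) ^ (i + j + 1) / mu s ^ i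

/-- LIM-main: the part `|y| ≤ |s| + 1` tends to the Gaussian moment. -/
def LimMainSt : Prop := ∀ (s : ℕ → ℝ) (M : ℕ → ℕ), Tendsto M atTop atTop →
  Tendsto (fun l => (M l : ℝ) * va (s l)) atTop atTop → ∀ i j : ℕ,
  Tendsto (fun l => (nf (s l) (M l) i j : ℂ)
      * ∫ y in {y : ℝ | |y| ≤ |s l| + 1}, Hi (s l) (M l) i j y) atTop
    (𝓝 ((-I) ^ i * I ^ j * (∫ v : ℝ, v ^ (i + j) * Real.exp (-(v ^ 2 / 2)) : ℝ)))

/-- LIM-tail: the part `|y| > |s| + 1` tends to `0`; and integrability of the whole. -/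
def LimTailSt : Prop :=
  (∀ (s : ℝ) (M i j : ℕ), 2 ≤ M → Integrable (Hi s M i j)) ∧
  ∀ (s : ℕ → ℝ) (M : ℕ → ℕ), Tendsto M atTop atTop →
  Tendsto (fun l => (M l : ℝ) * va (s l)) atTop atTop → ∀ i j : ℕ,
  Tendsto (fun l => (nf (s l) (M l) i j : ℂ)
      * ∫ y in {y : ℝ | |s l| + 1 < |y|}, Hi (s l) (M l) i j y) atTop (𝓝 0)

/-- LIM from its two halves. -/
theorem lim_of (hm : LimMainSt) (ht : LimTailSt) : LimSt := by
  intro s M hM hv i j
  have h1 := hm s M hM hv i j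
  have h2 := ht.2 s M hM hv i j
  have h3 := h1.add h2
  rw [add_zero] at h3
  refine h3.congr' ?_
  filter_upwards [hM.eventually_ge_atTop 2] with l hl
  have hint := ht.1 (s l) (M l) i j hl
  have hms : MeasurableSet {y : ℝ | |y| ≤ |s l| + 1} :=
    measurableSet_le continuous_abs.measurable measurable_const
  have hc : {y : ℝ | |s l| + 1 < |y|} = {y : ℝ | |y| ≤ |s l| + 1}ᶜ := by
    ext y; simp
  rw [hc, ← mul_add, integral_add_compl hms hint]
  rfl

end Pool.Agent.H53.ATP
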