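import Pool.Agent.H53.ATP.Spec

/-!
# TILT: mean and variance of the exponentially tilted uniform law on `[0,1]`
-/

set_option autoImplicit false

open MeasureTheory Filter
open scoped Topology Real

namespace Pool.Agent.H53.ATP

private lemma tl_ii (s : ℝ) (f : ℝ → ℝ) (hf : Continuous f) :
    IntervalIntegrable (fun u => f u * Real.exp (-(s * u))) volume 0 1 := by
  apply Continuous.intervalIntegrable
  fun_prop

private lemma tl_Zpos (s : ℝ) : 0 < Z s := by
  unfold Z
  apply intervalIntegral.intervalIntegral_pos_of_pos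
  · apply Continuous.intervalIntegrable
    fun_prop
  · intro x
    exact Real.exp_pos _
  · norm_num

/-- first moment -/
private noncomputable def tA (s : ℝ) : ℝ := ∫ u in (0 : ℝ)..1, u * Real.exp (-(s * u))

/-- second moment -/
private noncomputable def tB (s : ℝ) : ℝ := ∫ u in (0 : ℝ)..1, u ^ 2 * Real.exp (-(s * u))

private lemma tl_mu (s : ℝ) : mu s = tA s / Z s := rfl

private lemma tl_muZ (s : ℝ) : mu s * Z s = tA s := by
  rw [tl_mu]
  field_simp [(tl_Zpos s).ne']

/-- integral of a quadratic polynomial -/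
private lemma tl_quad (s a b c : ℝ) :
    ∫ u in (0 : ℝ)..1, (a * u ^ 2 + b * u + c) * Real.exp (-(s * u))
      = a * tB s + b * tA s + c * Z s := by
  have h1 := tl_ii s (fun u => u ^ 2) (by fun_prop)
  have h2 := tl_ii s (fun u => u) (by fun_prop)
  have h3 := tl_ii s (fun _ => 1) (by fun_prop)
  have e : (fun u : ℝ => (a * u ^ 2 + b * u + c) * Real.exp (-(s * u)))
      = fun u => (a * (u ^ 2 * Real.exp (-(s * u))) + b * (u * Real.exp (-(s * u))))
        + c * (1 * Real.exp (-(s * u))) := by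
    funext u
    ring
  rw [e, intervalIntegral.integral_add ((h1.const_mul a).add (h2.const_mul b)) (h3.const_mul c),
    intervalIntegral.integral_add (h1.const_mul a) (h2.const_mul b),
    intervalIntegral.integral_const_mul, intervalIntegral.integral_const_mul,
    intervalIntegral.integral_const_mul]
  simp only [one_mul]
  rfl

private lemma tl_va (s : ℝ) : va s * Z s = tB s - mu s ^ 2 * Z s := by
  have h := tl_quad s 1 (-(2 * mu s)) (mu s ^ 2)
  have e : (fun u : ℝ => (1 * u ^ 2 + -(2 * mu s) * u + mu s ^ 2) * Real.exp (-(s * u)))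
      = fun u => (u - mu s) ^ 2 * Real.exp (-(s * u)) := by
    funext u
    ring
  rw [e] at h
  have hv : va s * Z s = ∫ u in (0 : ℝ)..1, (u - mu s) ^ 2 * Real.exp (-(s * u)) := by
    unfold va
    rw [div_mul_cancel₀ _ (tl_Zpos s).ne']
  rw [hv, h, ← tl_muZ]
  ring

/-- integral of `(Q exp(-s u))'` for `Q` with derivative `Q'` -/
private lemma tl_parts (s : ℝ) (Q Q' : ℝ → ℝ) (hQ : ∀ u, HasDerivAt Q (Q' u) u)
    (hQ' : Continuous Q') :
    ∫ u in (0 : ℝ)..1, (Q' u - s * Q u) * Real.exp (-(s * u))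
      = Q 1 * Real.exp (-s) - Q 0 := by
  have hc : Continuous Q := continuous_iff_continuousAt.2 fun u => (hQ u).continuousAt
  have hd : ∀ u : ℝ, HasDerivAt (fun u => Q u * Real.exp (-(s * u)))
      ((Q' u - s * Q u) * Real.exp (-(s * u))) u := by
    intro u
    have h1 : HasDerivAt (fun u : ℝ => -(s * u)) (-s) u := by
      have := ((hasDerivAt_id u).const_mul s).fun_neg
      simpa using this
    have h2 := (hQ u).fun_mul h1.exp
    refine h2.congr_deriv ?_
    ring
  have h := intervalIntegral.integral_eq_sub_of_hasDerivAt (a := 0) (b := 1)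
    (f := fun u => Q u * Real.exp (-(s * u))) (fun u _ => hd u)
    (by apply Continuous.intervalIntegrable; fun_prop)
  rw [h]
  simp

private lemma tl_i0 (s : ℝ) : s * Z s = 1 - Real.exp (-s) := by
  have h := tl_parts s (fun _ => 1) (fun _ => 0) (fun u => hasDerivAt_const u 1)
    continuous_const
  have e : (fun u : ℝ => ((0 : ℝ) - s * 1) * Real.exp (-(s * u)))
      = fun u => (0 * u ^ 2 + 0 * u + (-s)) * Real.exp (-(s * u)) := by
    funext u
    ring
  rw [e, tl_quad] at h
  linarith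

private lemma tl_i1 (s : ℝ) : s * tA s = Z s - Real.exp (-s) := by
  have h := tl_parts s (fun u => u) (fun _ => 1) (fun u => hasDerivAt_id u)
    continuous_const
  have e : (fun u : ℝ => ((1 : ℝ) - s * u) * Real.exp (-(s * u)))
      = fun u => (0 * u ^ 2 + (-s) * u + 1) * Real.exp (-(s * u)) := by
    funext u
    ring
  rw [e, tl_quad] at h
  linarith

private lemma tl_i2 (s : ℝ) : s * tB s = 2 * tA s - Real.exp (-s) := by
  have h := tl_parts s (fun u => u ^ 2) (fun u => 2 * u)
    (fun u => by simpa using hasDerivAt_pow 2 u) (by fun_prop)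
  have e : (fun u : ℝ => ((2 : ℝ) * u - s * u ^ 2) * Real.exp (-(s * u)))
      = fun u => ((-s) * u ^ 2 + 2 * u + 0) * Real.exp (-(s * u)) := by
    funext u
    ring
  rw [e, tl_quad] at h
  linarith

private lemma tl_pos (s : ℝ) (f : ℝ → ℝ) (hf : Continuous f)
    (h0 : ∀ u ∈ Set.Ioc (0 : ℝ) 1, 0 ≤ f u) (h1 : ∃ c ∈ Set.Icc (0 : ℝ) 1, 0 < f c) :
    0 < ∫ u in (0 : ℝ)..1, f u * Real.exp (-(s * u)) := by
  apply intervalIntegral.integral_pos one_pos
  · fun_prop
  · intro u hu
    exact mul_nonneg (h0 u hu) (Real.exp_pos _).le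
  · obtain ⟨c, hc, hfc⟩ := h1
    exact ⟨c, hc, mul_pos hfc (Real.exp_pos _)⟩

private lemma tl_nonneg (s : ℝ) (f : ℝ → ℝ) (h0 : ∀ u ∈ Set.Icc (0 : ℝ) 1, 0 ≤ f u) :
    0 ≤ ∫ u in (0 : ℝ)..1, f u * Real.exp (-(s * u)) := by
  apply intervalIntegral.integral_nonneg zero_le_one
  intro u hu
  exact mul_nonneg (h0 u hu) (Real.exp_pos _).le

private lemma tl_Apos (s : ℝ) : 0 < tA s :=
  tl_pos s (fun u => u) continuous_id (fun _ hu => hu.1.le) ⟨1, by simp, one_pos⟩

private lemma tl_Alt (s : ℝ) : tA s < Z s := by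
  have h := tl_pos s (fun u => 1 - u) (by fun_prop) (fun u hu => by linarith [hu.2])
    ⟨0, by simp, by norm_num⟩
  have e : (fun u : ℝ => (1 - u) * Real.exp (-(s * u)))
      = fun u => (0 * u ^ 2 + (-1) * u + 1) * Real.exp (-(s * u)) := by
    funext u
    ring
  rw [e, tl_quad] at h
  linarith

private lemma tl_BA (s : ℝ) : tB s ≤ tA s := by
  have h := tl_nonneg s (fun u => u - u ^ 2) (fun u hu => by nlinarith [hu.1, hu.2])
  have e : (fun u : ℝ => (u - u ^ 2) * Real.exp (-(s * u)))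
      = fun u => ((-1) * u ^ 2 + 1 * u + 0) * Real.exp (-(s * u)) := by
    funext u
    ring
  rw [e, tl_quad] at h
  linarith

private lemma tl_mu0 (s : ℝ) : 0 < mu s := div_pos (tl_Apos s) (tl_Zpos s)

private lemma tl_mu1 (s : ℝ) : mu s < 1 := (div_lt_one (tl_Zpos s)).2 (tl_Alt s)

private lemma tl_va0 (s : ℝ) : 0 < va s := by
  have h := tl_pos s (fun u => (u - mu s) ^ 2) (by fun_prop) (fun u _ => sq_nonneg _)
    ⟨0, by simp, by have := tl_mu0 s; rw [zero_sub, neg_sq]; positivity⟩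
  exact div_pos h (tl_Zpos s)

private lemma tl_va4 (s : ℝ) : va s ≤ 1 / 4 := by
  have h1 := tl_va s
  have h2 := tl_BA s
  have h3 := tl_muZ s
  have hZ := tl_Zpos s
  have h4 : va s * Z s ≤ 1 / 4 * Z s := by
    nlinarith [sq_nonneg (mu s - 1 / 2), mul_nonneg hZ.le (sq_nonneg (mu s - 1 / 2))]
  exact le_of_mul_le_mul_right h4 hZ

private lemma tl_s2va (s : ℝ) : s ^ 2 * va s ≤ 1 := by
  have hZ := tl_Zpos s
  have h0 := tl_i0 s
  have h1 := tl_i1 s
  have h2 := tl_i2 s
  have hv := tl_va s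
  have hm := tl_muZ s
  have he := Real.exp_pos (-s)
  set e := Real.exp (-s) with hedef
  -- `s ^ 2 * va s * Z s ^ 2 = Z s ^ 2 - e`
  have key : s ^ 2 * va s * Z s ^ 2 = Z s ^ 2 - e := by
    have a1 : s ^ 2 * va s * Z s ^ 2 = s * Z s * (s * tB s) - (s * (mu s * Z s)) ^ 2 := by
      have : s ^ 2 * va s * Z s ^ 2 = s ^ 2 * Z s * (va s * Z s) := by ring
      rw [this, hv]
      ring
    rw [a1, hm, h1, h2, h0]
    have a2 : (1 - e) * (2 * tA s - e) = (1 - e) * (2 * tA s) - (1 - e) * e := by ring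
    have a3 : (1 - e) * (2 * tA s) = 2 * Z s * (s * tA s) := by
      rw [← h0]; ring
    rw [a2, a3, h1]
    ring
  have h5 : s ^ 2 * va s * Z s ^ 2 ≤ 1 * Z s ^ 2 := by rw [key]; linarith
  exact le_of_mul_le_mul_right h5 (by positivity)

private lemma tl_min (s : ℝ) : min (mu s) (1 - mu s) ^ 2 ≤ 3 * va s := by
  have hZ := tl_Zpos s
  have hv := tl_va s
  have hm := tl_muZ s
  have m0 := tl_mu0 s
  have m1 := tl_mu1 s
  have hmin0 : 0 ≤ min (mu s) (1 - mu s) := le_min m0.le (by linarith)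
  rcases le_total 0 s with hs | hs
  · have hp := tl_parts s (fun t => t * (t - 2 * mu s) ^ 2)
      (fun t => 3 * t ^ 2 + (-(8 * mu s)) * t + 4 * mu s ^ 2) (fun t => by
        have h1 : HasDerivAt (fun t : ℝ => t - 2 * mu s) 1 t := by
          simpa using (hasDerivAt_id t).sub_const (2 * mu s)
        have h2 := (hasDerivAt_id' t).fun_mul (h1.fun_pow 2)
        refine h2.congr_deriv ?_
        push_cast
        ring) (by fun_prop)
    have hn := tl_nonneg s (fun t => t * (t - 2 * mu s) ^ 2)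
      (fun t ht => mul_nonneg ht.1 (sq_nonneg _))
    have e : (∫ u in (0 : ℝ)..1, ((3 * u ^ 2 + (-(8 * mu s)) * u + 4 * mu s ^ 2)
        - s * (u * (u - 2 * mu s) ^ 2)) * Real.exp (-(s * u)))
        = (3 * tB s + (-(8 * mu s)) * tA s + 4 * mu s ^ 2 * Z s)
          - s * ∫ u in (0 : ℝ)..1, (u * (u - 2 * mu s) ^ 2) * Real.exp (-(s * u)) := by
      rw [← tl_quad, ← intervalIntegral.integral_const_mul,
        ← intervalIntegral.integral_sub (tl_ii s _ (by fun_prop))
          ((tl_ii s _ (by fun_prop)).const_mul s)]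
      congr 1
      funext u
      ring
    rw [e] at hp
    have hq : 0 ≤ (1 : ℝ) * (1 - 2 * mu s) ^ 2 * Real.exp (-s) := by positivity
    have h3 : 0 ≤ s * ∫ u in (0 : ℝ)..1, (u * (u - 2 * mu s) ^ 2) * Real.exp (-(s * u)) :=
      mul_nonneg hs hn
    have h4 : mu s ^ 2 * Z s ≤ 3 * va s * Z s := by
      have : 0 ≤ 3 * tB s + (-(8 * mu s)) * tA s + 4 * mu s ^ 2 * Z s := by
        simp only [zero_mul, sub_zero] at hp
        linarith
      rw [← hm] at this
      nlinarith
    have h5 : mu s ^ 2 ≤ 3 * va s := le_of_mul_le_mul_right h4 hZ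
    calc min (mu s) (1 - mu s) ^ 2 ≤ mu s ^ 2 := by
          exact pow_le_pow_left₀ hmin0 (min_le_left _ _) 2
      _ ≤ _ := h5
  · have hp := tl_parts s (fun t => -((1 - t) * (1 - t - 2 * (1 - mu s)) ^ 2))
      (fun t => 3 * t ^ 2 + (8 * (1 - mu s) - 6) * t
        + (3 - 8 * (1 - mu s) + 4 * (1 - mu s) ^ 2)) (fun t => by
        have h0 : HasDerivAt (fun t : ℝ => 1 - t) (-1) t := by
          simpa using (hasDerivAt_id t).const_sub 1
        have h1 : HasDerivAt (fun t : ℝ => 1 - t - 2 * (1 - mu s)) (-1) t := by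
          simpa using h0.sub_const (2 * (1 - mu s))
        have h2 := (h0.fun_mul (h1.fun_pow 2)).fun_neg
        refine h2.congr_deriv ?_
        push_cast
        ring) (by fun_prop)
    have hn := tl_nonneg s (fun t => (1 - t) * (1 - t - 2 * (1 - mu s)) ^ 2)
      (fun t ht => mul_nonneg (by linarith [ht.2]) (sq_nonneg _))
    have e : (∫ u in (0 : ℝ)..1, ((3 * u ^ 2 + (8 * (1 - mu s) - 6) * u
          + (3 - 8 * (1 - mu s) + 4 * (1 - mu s) ^ 2))
        - s * (-((1 - u) * (1 - u - 2 * (1 - mu s)) ^ 2))) * Real.exp (-(s * u)))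
        = (3 * tB s + (8 * (1 - mu s) - 6) * tA s
            + (3 - 8 * (1 - mu s) + 4 * (1 - mu s) ^ 2) * Z s)
          + s * ∫ u in (0 : ℝ)..1, ((1 - u) * (1 - u - 2 * (1 - mu s)) ^ 2)
            * Real.exp (-(s * u)) := by
      rw [← tl_quad, ← intervalIntegral.integral_const_mul,
        ← intervalIntegral.integral_add (tl_ii s _ (by fun_prop))
          ((tl_ii s _ (by fun_prop)).const_mul s)]
      congr 1
      funext u
      ring
    rw [e] at hp
    have h3 : s * ∫ u in (0 : ℝ)..1, ((1 - u) * (1 - u - 2 * (1 - mu s)) ^ 2)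
            * Real.exp (-(s * u)) ≤ 0 := mul_nonpos_of_nonpos_of_nonneg hs hn
    have hq : 0 ≤ (1 - 0 - 2 * (1 - mu s)) ^ 2 := sq_nonneg _
    have h4 : (1 - mu s) ^ 2 * Z s ≤ 3 * va s * Z s := by
      have : 0 ≤ 3 * tB s + (8 * (1 - mu s) - 6) * tA s
            + (3 - 8 * (1 - mu s) + 4 * (1 - mu s) ^ 2) * Z s := by
        simp only [sub_self, zero_mul, neg_zero, zero_sub, sub_zero, one_mul, neg_neg] at hp hq
        linarith
      rw [← hm] at this
      nlinarith
    have h5 : (1 - mu s) ^ 2 ≤ 3 * va s := le_of_mul_le_mul_right h4 hZ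
    calc min (mu s) (1 - mu s) ^ 2 ≤ (1 - mu s) ^ 2 := by
          exact pow_le_pow_left₀ hmin0 (min_le_right _ _) 2
      _ ≤ _ := h5

private lemma tl_cont : Continuous mu := by
  have h1 : Continuous fun s : ℝ => ∫ u in (0 : ℝ)..1, u * Real.exp (-(s * u)) := by
    apply intervalIntegral.continuous_parametric_intervalIntegral_of_continuous'
    unfold Function.uncurry
    fun_prop
  have h2 : Continuous fun s : ℝ => Z s := by
    unfold Z
    apply intervalIntegral.continuous_parametric_intervalIntegral_of_continuous'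
    unfold Function.uncurry
    fun_prop
  exact h1.div h2 fun s => (tl_Zpos s).ne'

theorem tilt : TiltSt := by
  refine ⟨?_, fun s => ⟨tl_mu0 s, tl_mu1 s, tl_va0 s, tl_va4 s⟩, tl_min, ?_⟩
  · intro p hp0 hp1
    have hs1 : mu (1 / p) ≤ p := by
      have h1 := tl_i1 (1 / p)
      have he := Real.exp_pos (-(1 / p))
      have hZ := tl_Zpos (1 / p)
      rw [tl_mu, div_le_iff₀ hZ]
      have h2 : 1 / p * tA (1 / p) ≤ Z (1 / p) := by linarith
      have h3 : p * (1 / p * tA (1 / p)) ≤ p * Z (1 / p) :=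
        mul_le_mul_of_nonneg_left h2 hp0.le
      have h4 : p * (1 / p * tA (1 / p)) = tA (1 / p) := by field_simp
      linarith
    have hq : 0 < 1 - p := by linarith
    have hs2 : p ≤ mu (-(1 / (1 - p))) := by
      set s := -(1 / (1 - p)) with hsdef
      have h0 := tl_i0 s
      have h1 := tl_i1 s
      have hZ := tl_Zpos s
      rw [tl_mu, le_div_iff₀ hZ]
      -- `(1 - p) * (-s) = 1`
      have h2 : (1 - p) * s = -1 := by
        rw [hsdef]; field_simp
      have h3 : s * (Z s - tA s) = 1 - Z s := by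
        rw [mul_sub, h0, h1]; ring
      have h4 : (1 - p) * (s * (Z s - tA s)) = (1 - p) * (1 - Z s) := by rw [h3]
      have h5 : (1 - p) * (s * (Z s - tA s)) = -(Z s - tA s) := by
        rw [← mul_assoc, h2]; ring
      nlinarith
    obtain ⟨s, hs⟩ := intermediate_value_univ (1 / p) (-(1 / (1 - p))) tl_cont ⟨hs1, hs2⟩
    exact ⟨s, hs⟩
  · intro s
    have h1 := tl_va4 s
    have h2 := tl_s2va s
    nlinarith

end Pool.Agent.H53.ATP
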