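import Pool.Agent.H53.ATP.Spec

/-!
# Elementary facts on Eulerian numbers (Worpitzky's identity)
-/

set_option autoImplicit false

namespace Pool.Agent.H53.ATP

private theorem wor_zero_left (k : ℕ) (hk : 1 ≤ k) : eu 0 k = 0 := by
  obtain ⟨j, rfl⟩ : ∃ j, k = j + 1 := ⟨k - 1, by omega⟩
  rfl

private theorem wor_zero_right (n : ℕ) : eu n 0 = 1 := by
  induction n with
  | zero => rfl
  | succ n ih => rw [eu, ih]

private theorem wor_succ (n k : ℕ) :
    eu (n + 1) (k + 1) = ((k : ℤ) + 2) * eu n (k + 1) + ((n : ℤ) - (k : ℤ)) * eu n k := rfl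

private theorem wor_vanish (n k : ℕ) (hn : 1 ≤ n) (hk : n ≤ k) : eu n k = 0 := by
  induction n generalizing k with
  | zero => omega
  | succ n ih =>
    obtain ⟨j, rfl⟩ : ∃ j, k = j + 1 := ⟨k - 1, by omega⟩
    rw [wor_succ]
    rcases Nat.eq_zero_or_pos n with rfl | hn'
    · rw [wor_zero_left (j + 1) (by omega)]
      rcases Nat.eq_zero_or_pos j with rfl | hj
      · simp
      · rw [wor_zero_left j hj]
        simp
    · rw [ih (j + 1) hn' (by omega), ih j hn' (by omega)]
      simp

private theorem wor_nonneg (n k : ℕ) : 0 ≤ eu n k := by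
  induction n generalizing k with
  | zero =>
    rcases Nat.eq_zero_or_pos k with rfl | hk
    · rw [wor_zero_right]
      norm_num
    · rw [wor_zero_left k hk]
  | succ n ih =>
    rcases Nat.eq_zero_or_pos k with rfl | hk
    · rw [wor_zero_right]
      norm_num
    · obtain ⟨j, rfl⟩ : ∃ j, k = j + 1 := ⟨k - 1, by omega⟩
      rw [wor_succ]
      have h1 := ih (j + 1)
      have h2 := ih j
      rcases le_or_gt j n with h | h
      · have h3 : (0 : ℤ) ≤ (n : ℤ) - (j : ℤ) := by
          have : (j : ℤ) ≤ n := by exact_mod_cast h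
          linarith
        positivity
      · rcases Nat.eq_zero_or_pos n with rfl | hn
        · rw [wor_zero_left j (by omega), mul_zero, add_zero]
          positivity
        · rw [wor_vanish n j hn (by omega), mul_zero, add_zero]
          positivity

private theorem wor_pos (n k : ℕ) (hk : k < n) : 1 ≤ eu n k := by
  induction n generalizing k with
  | zero => omega
  | succ n ih =>
    rcases Nat.eq_zero_or_pos k with rfl | hk'
    · rw [wor_zero_right]
    · obtain ⟨j, rfl⟩ : ∃ j, k = j + 1 := ⟨k - 1, by omega⟩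
      rw [wor_succ]
      have h1 := wor_nonneg n (j + 1)
      have h2 := ih j (by omega)
      have h3 : (1 : ℤ) ≤ (n : ℤ) - (j : ℤ) := by
        have : (j : ℤ) + 1 ≤ n := by exact_mod_cast (by omega : j + 1 ≤ n)
        linarith
      have h4 : 0 ≤ ((j : ℤ) + 2) * eu n (j + 1) := by positivity
      nlinarith

private theorem wor_last (n : ℕ) : eu (n + 1) n = 1 := by
  induction n with
  | zero => rfl
  | succ n ih =>
    rw [wor_succ, ih, wor_vanish (n + 1) (n + 1) (by omega) le_rfl]
    push_cast
    ring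

private theorem wor_symm (n k : ℕ) (hk : k < n) : eu n k = eu n (n - 1 - k) := by
  induction n generalizing k with
  | zero => omega
  | succ n ih =>
    rcases Nat.eq_zero_or_pos k with rfl | hk'
    · rw [wor_zero_right]
      simp only [Nat.add_sub_cancel, Nat.sub_zero]
      rw [wor_last]
    · obtain ⟨j, rfl⟩ : ∃ j, k = j + 1 := ⟨k - 1, by omega⟩
      rcases Nat.lt_or_ge (j + 1) n with hj | hj
      · have e1 : n + 1 - 1 - (j + 1) = (n - 2 - j) + 1 := by omega
        rw [e1, wor_succ, wor_succ, ih j (by omega), ih (j + 1) hj]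
        have e2 : n - 1 - j = n - 2 - j + 1 := by omega
        have e3 : n - 1 - (j + 1) = n - 2 - j := by omega
        rw [e2, e3]
        have e4 : ((n - 2 - j : ℕ) : ℤ) = (n : ℤ) - 2 - j := by omega
        rw [e4]
        ring
      · have e1 : j + 1 = n := by omega
        rw [e1]
        have e2 : n + 1 - 1 - n = 0 := by omega
        rw [e2, wor_zero_right, wor_last]

private theorem wor_choose (n p : ℕ) (j : ℤ) :
    (j + 1) * ((n + 1 + p).choose (n + 1) : ℤ) + ((n : ℤ) - j) * ((n + p).choose (n + 1) : ℤ) =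
      (j + 1 + p) * ((n + p).choose n : ℤ) := by
  have h1 : (n + 1 + p) * (n + p).choose n = (n + 1 + p).choose (n + 1) * (n + 1) := by
    have := Nat.add_one_mul_choose_eq (n + p) n
    rw [show n + 1 + p = n + p + 1 by ring]
    exact this
  have h2 : (n + p).choose (n + 1) * (n + 1) = (n + p).choose n * p := by
    have := Nat.choose_succ_right_eq (n + p) n
    rw [this]
    congr 1
    omega
  have h1' : ((n : ℤ) + 1 + p) * ((n + p).choose n : ℤ) =
      ((n + 1 + p).choose (n + 1) : ℤ) * (n + 1) := by exact_mod_cast h1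
  have h2' : ((n + p).choose (n + 1) : ℤ) * (n + 1) = ((n + p).choose n : ℤ) * p := by
    exact_mod_cast h2
  have hn : ((n : ℤ) + 1) ≠ 0 := by positivity
  apply mul_right_cancel₀ hn
  linear_combination (-(j + 1)) * h1' + ((n : ℤ) - j) * h2'

private theorem wor_worpitzky (n k : ℕ) :
    ∑ j ∈ Finset.range (k + 1), ((n + (k - j)).choose n : ℤ) * eu n j = ((k : ℤ) + 1) ^ n := by
  induction n with
  | zero =>
    rw [Finset.sum_range_succ']
    have : ∀ j ∈ Finset.range k, ((0 + (k - (j + 1))).choose 0 : ℤ) * eu 0 (j + 1) = 0 := by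
      intro j _
      rw [wor_zero_left (j + 1) (by omega), mul_zero]
    rw [Finset.sum_eq_zero this]
    simp [wor_zero_right]
  | succ n ih =>
    rw [pow_succ, ← ih, Finset.sum_mul]
    have hR : ∀ j ∈ Finset.range (k + 1),
        ((n + (k - j)).choose n : ℤ) * eu n j * ((k : ℤ) + 1) =
          ((n + 1 + (k - j)).choose (n + 1) : ℤ) * (((j : ℤ) + 1) * eu n j) +
            ((n + (k - j)).choose (n + 1) : ℤ) * (((n : ℤ) - j) * eu n j) := by
      intro j hj
      have hj' : j ≤ k := by
        have := Finset.mem_range.1 hj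
        omega
      have h1 := wor_choose n (k - j) (j : ℤ)
      have h2 : ((j : ℤ) + 1 + ((k - j : ℕ) : ℤ)) = (k : ℤ) + 1 := by
        have : ((k - j : ℕ) : ℤ) = (k : ℤ) - j := by omega
        rw [this]
        ring
      rw [h2] at h1
      linear_combination (-(eu n j)) * h1
    rw [Finset.sum_congr rfl hR, Finset.sum_add_distrib, Finset.sum_range_succ',
      Finset.sum_range_succ' (fun j => ((n + 1 + (k - j)).choose (n + 1) : ℤ) *
        (((j : ℤ) + 1) * eu n j)),
      Finset.sum_range_succ (fun j => ((n + (k - j)).choose (n + 1) : ℤ) *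
        (((n : ℤ) - j) * eu n j))]
    have h0 : ((n + (k - k)).choose (n + 1) : ℤ) = 0 := by
      rw [Nat.sub_self, Nat.add_zero, Nat.choose_succ_self]
      rfl
    rw [h0, zero_mul, add_zero, wor_zero_right, wor_zero_right]
    have hL : ∀ j ∈ Finset.range k,
        ((n + 1 + (k - (j + 1))).choose (n + 1) : ℤ) * eu (n + 1) (j + 1) =
          ((n + 1 + (k - (j + 1))).choose (n + 1) : ℤ) * ((((j + 1 : ℕ) : ℤ) + 1) * eu n (j + 1)) +
            ((n + (k - j)).choose (n + 1) : ℤ) * (((n : ℤ) - j) * eu n j) := by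
      intro j hj
      have hj' := Finset.mem_range.1 hj
      have e1 : n + (k - j) = n + 1 + (k - (j + 1)) := by omega
      rw [e1, wor_succ]
      push_cast
      ring
    rw [Finset.sum_congr rfl hL, Finset.sum_add_distrib]
    push_cast
    ring

private theorem wor_choose_le (n q : ℕ) :
    ((n + (q + 1)).choose n : ℤ) ≤ ((n : ℤ) + 1) * ((n + q).choose n : ℤ) := by
  have h1 : (n + q + 1) * (n + q).choose q = (n + q + 1).choose (q + 1) * (q + 1) :=
    Nat.add_one_mul_choose_eq (n + q) q
  have e1 : (n + q).choose q = (n + q).choose n := by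
    rw [Nat.choose_symm_add]
  have e2 : (n + q + 1).choose (q + 1) = (n + (q + 1)).choose n := by
    rw [show n + q + 1 = n + (q + 1) by ring, Nat.choose_symm_add]
  rw [e1, e2] at h1
  have h2 : (n + (q + 1)).choose n * (q + 1) ≤ ((n + 1) * (n + q).choose n) * (q + 1) := by
    rw [← h1]
    have : n + q + 1 ≤ (n + 1) * (q + 1) := by nlinarith
    calc (n + q + 1) * (n + q).choose n ≤ (n + 1) * (q + 1) * (n + q).choose n :=
          Nat.mul_le_mul_right _ this
      _ = _ := by ring
  have h3 := Nat.le_of_mul_le_mul_right h2 (by omega)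
  exact_mod_cast h3

private theorem wor_upper (n k : ℕ) : eu n k ≤ ((k : ℤ) + 1) ^ n := by
  rw [← wor_worpitzky n k, Finset.sum_range_succ]
  have h1 : 0 ≤ ∑ j ∈ Finset.range k, ((n + (k - j)).choose n : ℤ) * eu n j :=
    Finset.sum_nonneg fun j _ => mul_nonneg (by positivity) (wor_nonneg n j)
  simp only [Nat.sub_self, Nat.add_zero, Nat.choose_self, Nat.cast_one, one_mul]
  linarith

private theorem wor_lower (n k : ℕ) :
    ((k : ℤ) + 1) ^ n - ((n : ℤ) + 1) * (k : ℤ) ^ n ≤ eu n k := by
  rcases Nat.eq_zero_or_pos k with rfl | hk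
  · rw [wor_zero_right]
    have : 0 ≤ ((n : ℤ) + 1) * ((0 : ℕ) : ℤ) ^ n := by positivity
    simp only [Nat.cast_zero, zero_add, one_pow] at *
    linarith
  · obtain ⟨m, rfl⟩ : ∃ m, k = m + 1 := ⟨k - 1, by omega⟩
    rw [← wor_worpitzky n (m + 1), Finset.sum_range_succ]
    have h1 : ∑ j ∈ Finset.range (m + 1), ((n + (m + 1 - j)).choose n : ℤ) * eu n j ≤
        ((n : ℤ) + 1) * ((m + 1 : ℕ) : ℤ) ^ n := by
      have e : ((m + 1 : ℕ) : ℤ) ^ n = ((m : ℤ) + 1) ^ n := by push_cast; ring
      rw [e, ← wor_worpitzky n m, Finset.mul_sum]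
      refine Finset.sum_le_sum fun j hj => ?_
      have hj' := Finset.mem_range.1 hj
      have e1 : m + 1 - j = (m - j) + 1 := by omega
      rw [e1, ← mul_assoc]
      exact mul_le_mul_of_nonneg_right (wor_choose_le n (m - j)) (wor_nonneg n j)
    simp only [Nat.sub_self, Nat.add_zero, Nat.choose_self, Nat.cast_one, one_mul] at *
    linarith

theorem wor : WorSt := by
  refine ⟨wor_nonneg, wor_vanish, fun n k _ hk => wor_pos n k hk, wor_symm, fun n k => ?_,
    fun n k => ?_⟩
  · have := wor_upper n k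
    exact_mod_cast this
  · have := wor_lower n k
    have h : ((((k : ℤ) + 1) ^ n - ((n : ℤ) + 1) * (k : ℤ) ^ n : ℤ) : ℝ) ≤ ((eu n k : ℤ) : ℝ) := by
      exact_mod_cast this
    push_cast at h
    exact h

end Pool.Agent.H53.ATP
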